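import Pool.Agent.MP_6af7b0_al.Defs2

set_option autoImplicit false

/-!
# The address track

Three facts about the address track `tau`: `tau_rec` (the letters of a level-`j` cell give the
position modulo `Rf m (j+3)`), `tau_cell` (conversely), `tau_red` (the bit of a cell depends on its
row only modulo `bf m (k+1) + 1`).
-/

namespace Pool.Agent.MP_6af7b0_al

namespace Adr

/-! ### numerics -/

theorem rf_le_two_pow (m j : ℕ) : rf m (j + 3) ≤ 2 ^ bf m j := by
  have h1 : m.factorial ≤ 2 ^ (m * m) := by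
    calc m.factorial ≤ m ^ m := Nat.factorial_le_pow m
      _ ≤ (2 ^ m) ^ m := Nat.pow_le_pow_left Nat.lt_two_pow_self.le m
      _ = 2 ^ (m * m) := by rw [← pow_mul]
  have h2 : Mf m (j + 3) ≤ 2 ^ (1 + m * m + 128 * m * 2 ^ j) := by
    unfold Mf
    have e : 16 * m * 2 ^ (j + 3) = 128 * m * 2 ^ j := by ring
    rw [e]
    have h3 : m.factorial * 2 ^ (128 * m * 2 ^ j) ≤ 2 ^ (m * m) * 2 ^ (128 * m * 2 ^ j) :=
      Nat.mul_le_mul_right _ h1
    have h4 : 1 ≤ 2 ^ (m * m) * 2 ^ (128 * m * 2 ^ j) := Nat.one_le_iff_ne_zero.mpr (by positivity)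
    have h5 : 2 ^ (1 + m * m + 128 * m * 2 ^ j) =
        2 * (2 ^ (m * m) * 2 ^ (128 * m * 2 ^ j)) := by
      rw [pow_add, pow_add, pow_one, mul_assoc]
    omega
  unfold rf
  calc Mf m (j + 3) ^ 2 ≤ (2 ^ (1 + m * m + 128 * m * 2 ^ j)) ^ 2 := Nat.pow_le_pow_left h2 2
    _ = 2 ^ bf m j := by
        rw [← pow_mul]
        congr 1
        unfold bf
        ring

theorem mul_bf_le (m j : ℕ) (hm : 1 ≤ m) : m * (bf m j + 1) ≤ rf m j := by
  obtain ⟨x, hx⟩ : ∃ x, x = m * 2 ^ j := ⟨_, rfl⟩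
  have h2j : 1 ≤ 2 ^ j := Nat.one_le_two_pow
  have hmx : m ≤ x := by rw [hx]; exact Nat.le_mul_of_pos_right m h2j
  have hx1 : 1 ≤ x := le_trans hm hmx
  have hr : 2 ^ (32 * x) ≤ rf m j := by
    have h1 : 2 ^ (16 * x) ≤ Mf m j := by
      unfold Mf
      have e : 16 * m * 2 ^ j = 16 * x := by rw [hx]; ring
      rw [e]
      have := Nat.mul_le_mul_right (2 ^ (16 * x)) (Nat.factorial_pos m)
      omega
    calc 2 ^ (32 * x) = (2 ^ (16 * x)) ^ 2 := by rw [← pow_mul]; congr 1; ring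
      _ ≤ rf m j := Nat.pow_le_pow_left h1 2
  have hb : bf m j + 1 ≤ 3 + 2 * x ^ 2 + 256 * x := by
    unfold bf
    have h1 : m ^ 2 ≤ x ^ 2 := Nat.pow_le_pow_left hmx 2
    have h2 : 256 * m * 2 ^ j = 256 * x := by rw [hx]; ring
    rw [h2]
    omega
  have hpx : x ≤ 2 ^ x := Nat.lt_two_pow_self.le
  have h3 : x * (3 + 2 * x ^ 2 + 256 * x) ≤ 512 * x ^ 3 := by
    have h4 : x ≤ x ^ 3 := by
      calc x = x ^ 1 := (pow_one x).symm
        _ ≤ x ^ 3 := Nat.pow_le_pow_right hx1 (by norm_num)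
    have h5 : x ^ 2 ≤ x ^ 3 := Nat.pow_le_pow_right hx1 (by norm_num)
    have h6 : x * (3 + 2 * x ^ 2 + 256 * x) = 3 * x + 2 * x ^ 3 + 256 * x ^ 2 := by ring
    rw [h6]
    omega
  calc m * (bf m j + 1) ≤ x * (3 + 2 * x ^ 2 + 256 * x) := Nat.mul_le_mul hmx hb
    _ ≤ 512 * x ^ 3 := h3
    _ ≤ 2 ^ 9 * (2 ^ x) ^ 3 := Nat.mul_le_mul (by norm_num) (Nat.pow_le_pow_left hpx 3)
    _ = 2 ^ (9 + x * 3) := by rw [← pow_mul, ← pow_add]
    _ ≤ 2 ^ (32 * x) := Nat.pow_le_pow_right (by norm_num) (by omega)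
    _ ≤ rf m j := hr

theorem bf_lt (m j : ℕ) (hm : 1 ≤ m) : bf m j < rf m j := by
  have h := mul_bf_le m j hm
  have h2 : bf m j + 1 ≤ m * (bf m j + 1) := Nat.le_mul_of_pos_left _ hm
  omega

/-! ### digits -/

theorem Rf_succ (m k : ℕ) : Rf m (k + 1) = rf m k * Rf m k := rfl

theorem Rf_succ' (m k : ℕ) : Rf m (k + 1) = Rf m k * rf m k := by rw [Rf_succ, mul_comm]

theorem Rf_dvd (m : ℕ) {i j : ℕ} (h : i ≤ j) : Rf m i ∣ Rf m j := by
  induction h with
  | refl => exact dvd_rfl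
  | step _ ih => exact ih.trans (Dvd.intro_left _ rfl)

theorem dg_eq (m j P : ℕ) : dg m j P = P % Rf m (j + 1) / Rf m j := by
  rw [dg, Rf_succ', Nat.mod_mul_right_div_self]

theorem dg_congr (m j : ℕ) {P P' : ℕ} (h : P ≡ P' [MOD Rf m (j + 1)]) : dg m j P = dg m j P' := by
  rw [dg_eq, dg_eq, h]

theorem dg_add_low (m j : ℕ) {Q : ℕ} (i : ℕ) (h : Rf m (j + 1) ∣ Q) :
    dg m j (Q + i) = dg m j i := by
  apply dg_congr
  have : Q ≡ 0 [MOD Rf m (j + 1)] := (Nat.modEq_zero_iff_dvd).2 h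
  simpa using this.add_right i

theorem dg_zero (m j : ℕ) : dg m j 0 = 0 := by simp [dg]

theorem dg_low (m j : ℕ) {Q : ℕ} (h : Rf m (j + 1) ∣ Q) : dg m j Q = 0 := by
  have := dg_add_low m j 0 h
  rw [add_zero, dg_zero] at this
  exact this

theorem dg_add_high (m : ℕ) {k j P i : ℕ} (hkj : k ≤ j) (hP : Rf m k ∣ P) (hi : i < Rf m k) :
    dg m j (P + i) = dg m j P := by
  obtain ⟨c, hc⟩ := Rf_dvd m hkj
  obtain ⟨p, rfl⟩ := hP
  have h0 := Rf_pos m k
  rw [dg, dg, hc, ← Nat.div_div_eq_div_mul, ← Nat.div_div_eq_div_mul,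
    Nat.mul_add_div h0, Nat.div_eq_of_lt hi, add_zero, Nat.mul_div_cancel_left _ h0]

theorem dg_lt (m j P : ℕ) : dg m j P < rf m j := Nat.mod_lt _ (rf_pos m j)

/-! ### the address bit -/

theorem bit_of_lev (m P j : ℕ) (h0 : ∀ i < j, dg m i P % (bf m i + 1) = 0)
    (h1 : dg m j P % (bf m j + 1) ≠ 0) :
    bitAt m P ↔ (dg m (j + 3) P).testBit (dg m j P % (bf m j + 1) - 1) = true := by
  constructor
  · rintro ⟨j', h0', h1', h2'⟩
    rcases lt_trichotomy j j' with hlt | heq | hgt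
    · exact absurd (h0' j hlt) h1
    · subst heq; exact h2'
    · exact absurd (h0 j' hgt) h1'
  · intro h
    exact ⟨j, h0, h1, h⟩

theorem bit_mp (m P P' : ℕ)
    (h1 : ∀ j, dg m j P % (bf m j + 1) = dg m j P' % (bf m j + 1))
    (h2 : ∀ j, dg m j P % (bf m j + 1) ≠ 0 → dg m (j + 3) P = dg m (j + 3) P') :
    bitAt m P ↔ bitAt m P' := by
  constructor
  · rintro ⟨j, a, b, c⟩
    refine ⟨j, fun i hi => by rw [← h1 i]; exact a i hi, by rw [← h1 j]; exact b, ?_⟩
    rw [← h1 j, ← h2 j b]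
    exact c
  · rintro ⟨j, a, b, c⟩
    have b' : dg m j P % (bf m j + 1) ≠ 0 := by rw [h1 j]; exact b
    refine ⟨j, fun i hi => by rw [h1 i]; exact a i hi, b', ?_⟩
    rw [h1 j, h2 j b']
    exact c

theorem tau_eq_iff (m P P' : ℕ) :
    tau m P = tau m P' ↔ P % Rf m 3 = P' % Rf m 3 ∧ (bitAt m P ↔ bitAt m P') := by
  unfold tau
  rw [Prod.mk.injEq, Fin.mk.injEq, decide_eq_decide]

theorem bit_expose (m j P i : ℕ) (hm : 1 ≤ m) (hP : Rf m (j + 1) ∣ P) (hi1 : 1 ≤ i)
    (hi2 : i ≤ bf m j) :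
    i * Rf m j < Rf m (j + 1) ∧
      (bitAt m (P + i * Rf m j) ↔ (dg m (j + 3) P).testBit (i - 1) = true) := by
  have hb := bf_lt m j hm
  have hR := Rf_pos m j
  have hlt : i * Rf m j < Rf m (j + 1) := by
    rw [Rf_succ]
    exact Nat.mul_lt_mul_of_pos_right (by omega) hR
  have hdg : dg m j (P + i * Rf m j) = i := by
    rw [dg_add_low m j _ hP, dg, Nat.mul_div_cancel _ hR, Nat.mod_eq_of_lt (by omega)]
  have hmod : i % (bf m j + 1) = i := Nat.mod_eq_of_lt (by omega)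
  refine ⟨hlt, ?_⟩
  rw [bit_of_lev m (P + i * Rf m j) j, hdg, hmod, dg_add_high m (by omega) hP hlt]
  · intro i' hi'
    have hd : Rf m (i' + 1) ∣ P + i * Rf m j :=
      dvd_add ((Rf_dvd m (by omega)).trans hP) (dvd_mul_of_dvd_right (Rf_dvd m hi') i)
    rw [dg_low m i' hd, Nat.zero_mod]
  · rw [hdg, hmod]
    omega

/-- (A1) -/
theorem tau_rec (m : ℕ) (hm : 1 ≤ m) (j P P' : ℕ) (hP : Rf m j ∣ P)
    (h : ∀ i < Rf m j, tau m (P + i) = tau m (P' + i)) : P ≡ P' [MOD Rf m (j + 3)] := by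
  induction j with
  | zero =>
    have := h 0 (Rf_pos m 0)
    rw [tau_eq_iff] at this
    simpa [Nat.ModEq] using this.1
  | succ j ih =>
    have hdj : Rf m j ∣ Rf m (j + 1) := Rf_dvd m (by omega)
    have h3 : P ≡ P' [MOD Rf m (j + 3)] :=
      ih (hdj.trans hP) fun i hi => h i (lt_of_lt_of_le hi (Nat.le_of_dvd (Rf_pos m _) hdj))
    have hP' : Rf m (j + 1) ∣ P' := by
      have h4 : P ≡ P' [MOD Rf m (j + 1)] := h3.of_dvd (Rf_dvd m (by omega))
      rw [← Nat.modEq_zero_iff_dvd] at hP ⊢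
      exact h4.symm.trans hP
    have hdig : dg m (j + 3) P = dg m (j + 3) P' := by
      apply Nat.eq_of_testBit_eq
      intro i
      by_cases hi : i < bf m j
      · obtain ⟨hl, e1⟩ := bit_expose m j P (i + 1) hm hP (by omega) (by omega)
        obtain ⟨_, e2⟩ := bit_expose m j P' (i + 1) hm hP' (by omega) (by omega)
        have e3 := ((tau_eq_iff m _ _).1 (h _ hl)).2
        rw [e1, e2, Nat.add_sub_cancel] at e3
        exact Bool.eq_iff_iff.2 e3
      · have hle : 2 ^ bf m j ≤ 2 ^ i := Nat.pow_le_pow_right (by norm_num) (by omega)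
        have hr := rf_le_two_pow m j
        rw [Nat.testBit_lt_two_pow (lt_of_lt_of_le (dg_lt m (j + 3) P) (hr.trans hle)),
          Nat.testBit_lt_two_pow (lt_of_lt_of_le (dg_lt m (j + 3) P') (hr.trans hle))]
    show P % Rf m (j + 1 + 3) = P' % Rf m (j + 1 + 3)
    have e4 : j + 1 + 3 = (j + 3) + 1 := by ring
    rw [e4, Rf_succ', Nat.mod_mul, Nat.mod_mul]
    unfold dg at hdig
    rw [hdig, h3]

/-- (A2) -/
theorem tau_cell (m k P P' : ℕ) (hP : Rf m k ∣ P) (h : P ≡ P' [MOD Rf m (k + 3)])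
    (hb : bitAt m P ↔ bitAt m P') : ∀ i < Rf m k, tau m (P + i) = tau m (P' + i) := by
  intro i hi
  have hP' : Rf m k ∣ P' := by
    have h4 : P ≡ P' [MOD Rf m k] := h.of_dvd (Rf_dvd m (by omega))
    rw [← Nat.modEq_zero_iff_dvd] at hP ⊢
    exact h4.symm.trans hP
  rw [tau_eq_iff]
  constructor
  · exact (h.of_dvd (Rf_dvd m (by omega))).add_right i
  · by_cases hex : ∃ j, j < k ∧ dg m j i % (bf m j + 1) ≠ 0
    · classical
      obtain ⟨hjk, hj⟩ := Nat.find_spec hex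
      have hmin : ∀ i' < Nat.find hex, dg m i' i % (bf m i' + 1) = 0 := by
        intro i' hi'
        by_contra hne
        exact Nat.find_min hex hi' ⟨by omega, hne⟩
      generalize Nat.find hex = j at hjk hj hmin
      have key : ∀ Q, Rf m k ∣ Q → ∀ i', i' < k → dg m i' (Q + i) = dg m i' i := by
        intro Q hQ i' hi'
        exact dg_add_low m i' i ((Rf_dvd m hi').trans hQ)
      have hlev : ∀ Q, Rf m k ∣ Q →
          (bitAt m (Q + i) ↔ (dg m (j + 3) (Q + i)).testBit (dg m j i % (bf m j + 1) - 1)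
            = true) := by
        intro Q hQ
        rw [bit_of_lev m (Q + i) j, key Q hQ j hjk]
        · intro i' hi'
          rw [key Q hQ i' (by omega)]
          exact hmin i' hi'
        · rw [key Q hQ j hjk]
          exact hj
      rw [hlev P hP, hlev P' hP']
      have : dg m (j + 3) (P + i) = dg m (j + 3) (P' + i) :=
        dg_congr m (j + 3) ((h.of_dvd (Rf_dvd m (by omega))).add_right i)
      rw [this]
    · push Not at hex
      have key : ∀ Q, Rf m k ∣ Q → (bitAt m (Q + i) ↔ bitAt m Q) := by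
        intro Q hQ
        apply bit_mp
        · intro j
          by_cases hjk : j < k
          · have hd : Rf m (j + 1) ∣ Q := (Rf_dvd m hjk).trans hQ
            rw [dg_add_low m j i hd, dg_low m j hd, hex j hjk, Nat.zero_mod]
          · rw [dg_add_high m (by omega) hQ hi]
        · intro j hj
          by_cases hjk : j < k
          · have hd : Rf m (j + 1) ∣ Q := (Rf_dvd m hjk).trans hQ
            rw [dg_add_low m j i hd] at hj
            exact absurd (hex j hjk) hj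
          · rw [dg_add_high m (by omega) hQ hi]
      rw [key P hP, key P' hP', hb]

/-- (A3) -/
theorem tau_red (m : ℕ) (hm : 1 ≤ m) (k c t0 : ℕ) (hc : c < rf m k) (ht : t0 < rf m (k + 1))
    (S : Finset ℕ) (hS : S.card < m) :
    ∃ t1 < rf m (k + 1), t1 ∉ S ∧ ∀ B,
      (bitAt m (((B * rf m (k + 1) + t1) * rf m k + c) * Rf m k) ↔
        bitAt m (((B * rf m (k + 1) + t0) * rf m k + c) * Rf m k)) := by
  obtain ⟨s, hs, hsS⟩ : ∃ s < m, t0 % (bf m (k + 1) + 1) + s * (bf m (k + 1) + 1) ∉ S := by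
    by_contra hcon
    push Not at hcon
    have hsub : (Finset.range m).image
        (fun s => t0 % (bf m (k + 1) + 1) + s * (bf m (k + 1) + 1)) ⊆ S := by
      intro x hx
      rw [Finset.mem_image] at hx
      obtain ⟨s, hs, rfl⟩ := hx
      exact hcon s (Finset.mem_range.1 hs)
    have hcard := Finset.card_le_card hsub
    rw [Finset.card_image_of_injective, Finset.card_range] at hcard
    · omega
    · intro a b hab
      have hab' : a * (bf m (k + 1) + 1) = b * (bf m (k + 1) + 1) := by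
        simpa using hab
      exact Nat.eq_of_mul_eq_mul_right (by omega) hab'
  have ht1 : t0 % (bf m (k + 1) + 1) + s * (bf m (k + 1) + 1) < rf m (k + 1) := by
    have h1 := mul_bf_le m (k + 1) hm
    have h2 : t0 % (bf m (k + 1) + 1) < bf m (k + 1) + 1 := Nat.mod_lt _ (by omega)
    have h3 : (s + 1) * (bf m (k + 1) + 1) ≤ m * (bf m (k + 1) + 1) :=
      Nat.mul_le_mul_right _ hs
    have h4 : (s + 1) * (bf m (k + 1) + 1) = s * (bf m (k + 1) + 1) + (bf m (k + 1) + 1) := by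
      ring
    omega
  refine ⟨_, ht1, hsS, ?_⟩
  intro B
  have hmod : (t0 % (bf m (k + 1) + 1) + s * (bf m (k + 1) + 1)) % (bf m (k + 1) + 1) =
      t0 % (bf m (k + 1) + 1) := by
    rw [Nat.add_mul_mod_self_right, Nat.mod_mod]
  generalize t0 % (bf m (k + 1) + 1) + s * (bf m (k + 1) + 1) = t1 at ht1 hsS hmod
  have hR := Rf_pos m k
  have hr := rf_pos m k
  have hr1 := rf_pos m (k + 1)
  -- digits
  have dlow : ∀ t, ∀ j < k, dg m j (((B * rf m (k + 1) + t) * rf m k + c) * Rf m k) = 0 := by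
    intro t j hj
    exact dg_low m j ((Rf_dvd m hj).trans (Dvd.intro_left _ rfl))
  have dk : ∀ t, dg m k (((B * rf m (k + 1) + t) * rf m k + c) * Rf m k) = c := by
    intro t
    rw [dg, Nat.mul_div_cancel _ hR, Nat.mul_add_mod', Nat.mod_eq_of_lt hc]
  have q1 : ∀ t, (((B * rf m (k + 1) + t) * rf m k + c) * Rf m k) / Rf m (k + 1) =
      B * rf m (k + 1) + t := by
    intro t
    rw [Rf_succ', ← Nat.div_div_eq_div_mul, Nat.mul_div_cancel _ hR, mul_comm,
      Nat.mul_add_div hr, Nat.div_eq_of_lt hc, add_zero]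
  have dk1 : ∀ t < rf m (k + 1),
      dg m (k + 1) (((B * rf m (k + 1) + t) * rf m k + c) * Rf m k) = t := by
    intro t ht'
    rw [dg, q1, mul_comm B, Nat.mul_add_mod, Nat.mod_eq_of_lt ht']
  have dhigh : ∀ j, k + 2 ≤ j →
      dg m j (((B * rf m (k + 1) + t1) * rf m k + c) * Rf m k) =
      dg m j (((B * rf m (k + 1) + t0) * rf m k + c) * Rf m k) := by
    intro j hj
    obtain ⟨e, he⟩ := Rf_dvd m hj
    have q2 : ∀ t < rf m (k + 1),
        (((B * rf m (k + 1) + t) * rf m k + c) * Rf m k) / Rf m (k + 2) = B := by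
      intro t ht'
      rw [Rf_succ' m (k + 1), ← Nat.div_div_eq_div_mul, q1, mul_comm,
        Nat.mul_add_div hr1, Nat.div_eq_of_lt ht', add_zero]
    rw [dg, dg, he, ← Nat.div_div_eq_div_mul, ← Nat.div_div_eq_div_mul, q2 t1 ht1, q2 t0 ht]
  apply bit_mp
  · intro j
    rcases lt_trichotomy j (k + 1) with hj | hj | hj
    · rcases Nat.lt_succ_iff_lt_or_eq.1 hj with hj' | hj'
      · rw [dlow _ j hj', dlow _ j hj']
      · subst hj'
        rw [dk, dk]
    · subst hj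
      rw [dk1 _ ht1, dk1 _ ht, hmod]
    · rw [dhigh j hj]
  · intro j hj
    by_cases hjk : j < k
    · rw [dlow _ j hjk, Nat.zero_mod] at hj
      exact absurd rfl hj
    · exact dhigh (j + 3) (by omega)

end Adr

theorem tau_rec (m : ℕ) (hm : 1 ≤ m) (j P P' : ℕ) (hP : Rf m j ∣ P)
    (h : ∀ i < Rf m j, tau m (P + i) = tau m (P' + i)) : P ≡ P' [MOD Rf m (j + 3)] :=
  Adr.tau_rec m hm j P P' hP h

theorem tau_cell (m k P P' : ℕ) (hP : Rf m k ∣ P) (h : P ≡ P' [MOD Rf m (k + 3)])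
    (hb : bitAt m P ↔ bitAt m P') : ∀ i < Rf m k, tau m (P + i) = tau m (P' + i) :=
  Adr.tau_cell m k P P' hP h hb

theorem tau_red (m : ℕ) (hm : 1 ≤ m) (k c t0 : ℕ) (hc : c < rf m k) (ht : t0 < rf m (k + 1))
    (S : Finset ℕ) (hS : S.card < m) :
    ∃ t1 < rf m (k + 1), t1 ∉ S ∧ ∀ B,
      (bitAt m (((B * rf m (k + 1) + t1) * rf m k + c) * Rf m k) ↔
        bitAt m (((B * rf m (k + 1) + t0) * rf m k + c) * Rf m k)) :=
  Adr.tau_red m hm k c t0 hc ht S hS

end Pool.Agent.MP_6af7b0_al
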