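import Pool.Agent.MP_6af7b0_al.Defs2

set_option autoImplicit false

namespace Pool.Agent.MP_6af7b0_al

theorem toL_mul {α : Type} (a b : FreeSemigroup α) : toL (a * b) = toL a ++ toL b := rfl

theorem toL_of {α : Type} (x : α) : toL (FreeSemigroup.of x) = [x] := rfl

theorem toL_inj {α : Type} {a b : FreeSemigroup α} (h : toL a = toL b) : a = b := by
  simp only [toL, List.cons.injEq] at h
  exact FreeSemigroup.ext h.1 h.2

theorem toL_ne_nil {α : Type} (a : FreeSemigroup α) : toL a ≠ [] := by simp [toL]

theorem toL_lift {α : Type} (a : ℕ → FreeSemigroup α) (w : FreeSemigroup ℕ) :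
    toL (FreeSemigroup.lift a w) = (toL w).flatMap (fun x => toL (a x)) := by
  induction w using FreeSemigroup.recOnMul with
  | ih1 x => simp [toL_of]
  | ih2 x y h1 h2 => rw [map_mul, toL_mul, toL_mul, List.flatMap_append, h1, h2]

/-- The Rees congruence of the complement of a factorial language. -/
def reesCon {α : Type} (C : Set (List α)) (hfac : ∀ a b c, a ++ b ++ c ∈ C → b ∈ C) :
    Con (FreeSemigroup α) where
  r w w' := w = w' ∨ (toL w ∉ C ∧ toL w' ∉ C)
  iseqv := by
    refine ⟨fun _ => Or.inl rfl, ?_, ?_⟩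
    · rintro a b (h | h)
      · exact Or.inl h.symm
      · exact Or.inr ⟨h.2, h.1⟩
    · rintro a b c (h | h) (h' | h')
      · exact Or.inl (h.trans h')
      · exact Or.inr (by rw [h]; exact h')
      · exact Or.inr (by rw [← h']; exact h)
      · exact Or.inr ⟨h.1, h'.2⟩
  mul' := by
    intro a b c d h h'
    have hl : ∀ x y : FreeSemigroup α, toL x ∉ C → toL (x * y) ∉ C := by
      intro x y hx hxy
      apply hx
      apply hfac [] (toL x) (toL y)
      simpa [toL_mul] using hxy
    have hr : ∀ x y : FreeSemigroup α, toL y ∉ C → toL (x * y) ∉ C := by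
      intro x y hx hxy
      apply hx
      apply hfac (toL x) (toL y) []
      simpa [toL_mul] using hxy
    rcases h with h | h
    · rcases h' with h' | h'
      · exact Or.inl (by rw [h, h'])
      · exact Or.inr ⟨hr _ _ h'.1, hr _ _ h'.2⟩
    · exact Or.inr ⟨hl _ _ h.1, hl _ _ h.2⟩

/-- (F) -/
theorem assembly (E : List (FreeSemigroup ℕ × FreeSemigroup ℕ)) (α : Type) [Fintype α]
    (C : Set (List α)) (hfac : ∀ a b c, a ++ b ++ c ∈ C → b ∈ C)
    (hE : ∀ p ∈ E, ∀ θ : ℕ → List α, (∀ x, θ x ≠ []) →
      ((toL p.1).flatMap θ ∈ C → (toL p.2).flatMap θ = (toL p.1).flatMap θ) ∧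
      ((toL p.2).flatMap θ ∈ C → (toL p.1).flatMap θ = (toL p.2).flatMap θ))
    (c : ℝ) (hc : 1 < c)
    (hgrow : ∀ n ≥ 1, c ^ n ≤ (Nat.card {w : List α // w ∈ C ∧ w.length = n} : ℝ)) :
    ∃ (T : Type) (_ : Semigroup T),
      (∀ p ∈ E, ∀ f : FreeSemigroup ℕ →ₙ* T, f p.1 = f p.2) ∧
      ∃ (k : ℕ) (g : Fin k → T),
        Subsemigroup.closure (Set.range g) = ⊤ ∧
        ∃ c : ℝ, 1 < c ∧ ∃ N : ℕ, ∀ n ≥ N,
          c ^ n ≤ (Nat.card {x : T | ∃ w : FreeSemigroup (Fin k),
            w.tail.length < n ∧ FreeSemigroup.lift g w = x} : ℝ) := by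
  classical
  set r := reesCon C hfac with hr
  have hmk : ∀ a b : FreeSemigroup α, ((a : r.Quotient) = (b : r.Quotient)) ↔
      (a = b ∨ (toL a ∉ C ∧ toL b ∉ C)) := fun a b => Con.eq r
  let e := Fintype.equivFin α
  let g : Fin (Fintype.card α) → r.Quotient := fun i => ((FreeSemigroup.of (e.symm i) :
    FreeSemigroup α) : r.Quotient)
  have hlift : ∀ w : FreeSemigroup α, FreeSemigroup.lift g (FreeSemigroup.map e w) =
      (w : r.Quotient) := by
    intro w
    induction w using FreeSemigroup.recOnMul with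
    | ih1 x => simp [g]
    | ih2 x y h1 h2 => rw [map_mul, map_mul, h1, h2, Con.coe_mul]
  refine ⟨r.Quotient, inferInstance, ?_, Fintype.card α, g, ?_, c, hc, 1, ?_⟩
  · intro p hp f
    have hex : ∀ x : ℕ, ∃ a : FreeSemigroup α, (a : r.Quotient) = f (FreeSemigroup.of x) := by
      intro x
      obtain ⟨a, ha⟩ := Quotient.exists_rep (f (FreeSemigroup.of x))
      exact ⟨a, ha⟩
    choose a ha using hex
    have hF : ∀ w : FreeSemigroup ℕ, f w = ((FreeSemigroup.lift a w : FreeSemigroup α) :
        r.Quotient) := by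
      intro w
      induction w using FreeSemigroup.recOnMul with
      | ih1 x => rw [FreeSemigroup.lift_of, ha]
      | ih2 x y h1 h2 => rw [map_mul, map_mul, h1, h2, Con.coe_mul]
    rw [hF, hF, hmk]
    obtain ⟨h1, h2⟩ := hE p hp (fun x => toL (a x)) (fun x => toL_ne_nil _)
    rw [← toL_lift, ← toL_lift] at h1 h2
    by_cases hu : toL (FreeSemigroup.lift a p.1) ∈ C
    · exact Or.inl (toL_inj (h1 hu)).symm
    · by_cases hv : toL (FreeSemigroup.lift a p.2) ∈ C
      · exact Or.inl (toL_inj (h2 hv))
      · exact Or.inr ⟨hu, hv⟩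
  · rw [eq_top_iff]
    intro x hx0
    clear hx0
    obtain ⟨w, rfl⟩ := Quotient.exists_rep x
    change ((w : r.Quotient)) ∈ _
    induction w using FreeSemigroup.recOnMul with
    | ih1 x =>
      apply Subsemigroup.subset_closure
      exact ⟨e x, by simp [g]⟩
    | ih2 x y h1 h2 =>
      rw [Con.coe_mul]
      exact Subsemigroup.mul_mem _ h1 h2
  · intro n hn
    refine le_trans (hgrow n hn) ?_
    have hfin : Set.Finite {x : r.Quotient | ∃ w : FreeSemigroup (Fin (Fintype.card α)),
        w.tail.length < n ∧ FreeSemigroup.lift g w = x} := by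
      have h1 : Set.Finite {w : FreeSemigroup (Fin (Fintype.card α)) | w.tail.length < n} := by
        apply Set.Finite.of_finite_image (f := toL) _ (fun a _ b _ h => toL_inj h)
        apply (List.finite_length_lt (Fin (Fintype.card α)) (n + 1)).subset
        rintro _ ⟨w, hw, rfl⟩
        simp only [Set.mem_ofPred_eq] at hw
        simp only [Set.mem_ofPred_eq, toL, List.length_cons]
        omega
      apply (h1.image (FreeSemigroup.lift g)).subset
      rintro x ⟨w, hw, rfl⟩
      exact ⟨w, hw, rfl⟩
    have : Finite {x : r.Quotient | ∃ w : FreeSemigroup (Fin (Fintype.card α)),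
        w.tail.length < n ∧ FreeSemigroup.lift g w = x} := hfin.to_subtype
    have hne : ∀ w : List α, w.length = n → ∃ h : w ≠ [], toL ⟨w.head h, w.tail⟩ = w := by
      intro w hw
      have h : w ≠ [] := by
        rintro rfl
        simp at hw
        omega
      exact ⟨h, List.cons_head_tail h⟩
    choose hne1 hne2 using hne
    let F : {w : List α // w ∈ C ∧ w.length = n} → FreeSemigroup α := fun w =>
      ⟨w.1.head (hne1 w.1 w.2.2), w.1.tail⟩
    have hF : ∀ w, toL (F w) = w.1 := fun w => hne2 w.1 w.2.2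
    have hinj := Nat.card_le_card_of_injective
      (fun w : {w : List α // w ∈ C ∧ w.length = n} =>
        (⟨((F w : FreeSemigroup α) : r.Quotient), FreeSemigroup.map e (F w), by
          have h1 := FreeSemigroup.length_map e (F w)
          simp only [FreeSemigroup.length] at h1
          have h2 : (toL (F w)).length = n := by rw [hF]; exact w.2.2
          simp only [toL, List.length_cons] at h2
          omega, hlift _⟩ : {x : r.Quotient | ∃ w : FreeSemigroup (Fin (Fintype.card α)),
        w.tail.length < n ∧ FreeSemigroup.lift g w = x})) (by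
        intro w w' h
        have h1 := congrArg Subtype.val h
        simp only at h1
        rw [hmk] at h1
        rcases h1 with h1 | h1
        · apply Subtype.ext
          rw [← hF w, ← hF w', h1]
        · exact absurd (by rw [hF]; exact w.2.1) h1.1)
    exact_mod_cast hinj

end Pool.Agent.MP_6af7b0_al
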