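import Pool.Agent.MP_6af7b0_al.Defs

set_option autoImplicit false

namespace Pool.Agent.MP_6af7b0_al

section

variable {S : Type} [Semigroup S]

theorem closure_sub_powers (a : S) (s : S) (hs : s ∈ Subsemigroup.closure ({a} : Set S)) :
    ∃ n : ℕ, (s : WithOne S) = (a : WithOne S) ^ n := by
  induction hs using Subsemigroup.closure_induction with
  | mem x hx =>
    obtain rfl : x = a := hx
    exact ⟨1, by rw [pow_one]⟩
  | mul x y _ _ hx hy =>
    obtain ⟨i, hi⟩ := hx
    obtain ⟨j, hj⟩ := hy
    exact ⟨i + j, by rw [WithOne.coe_mul, hi, hj, pow_add]⟩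

theorem powers_injective (a : S)
    (hinf : (Subsemigroup.closure ({a} : Set S) : Set S).Infinite) :
    Function.Injective fun n : ℕ => (a : WithOne S) ^ n := by
  have key : ∀ i j : ℕ, i < j → (a : WithOne S) ^ i ≠ (a : WithOne S) ^ j := by
    intro i j hij heq
    have hred : ∀ n : ℕ, ∃ n' < j, (a : WithOne S) ^ n = (a : WithOne S) ^ n' := by
      intro n
      induction n using Nat.strong_induction_on with
      | _ n ih =>
        by_cases hn : n < j
        · exact ⟨n, hn, rfl⟩
        · push Not at hn
          obtain ⟨n', h1, h2⟩ := ih (n - (j - i)) (by omega)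
          refine ⟨n', h1, ?_⟩
          rw [← h2]
          have e1 : n = (n - j) + j := by omega
          have e2 : n - (j - i) = (n - j) + i := by omega
          rw [e2, pow_add, heq, ← pow_add, ← e1]
    apply hinf
    have hfin : (Set.range fun n : Fin j => (a : WithOne S) ^ (n : ℕ)).Finite :=
      Set.finite_range _
    have hsub : (fun s : S => (s : WithOne S)) '' (Subsemigroup.closure ({a} : Set S) : Set S) ⊆
        Set.range fun n : Fin j => (a : WithOne S) ^ (n : ℕ) := by
      rintro _ ⟨s, hs, rfl⟩
      obtain ⟨n, hn⟩ := closure_sub_powers a s hs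
      obtain ⟨n', h1, h2⟩ := hred n
      exact ⟨⟨n', h1⟩, (hn.trans h2).symm⟩
    exact Set.Finite.of_finite_image (hfin.subset hsub) (WithOne.coe_injective.injOn)
  intro i j h
  by_contra hne
  rcases Nat.lt_or_gt_of_ne hne with h1 | h1
  · exact key i j h1 h
  · exact key j i h1 h.symm

theorem lift_powers (a : S) (g : ℕ → S) (k : ℕ → ℕ)
    (hg : ∀ z, (g z : WithOne S) = (a : WithOne S) ^ k z) (w : FreeSemigroup ℕ) :
    ((FreeSemigroup.lift g w : S) : WithOne S) = (a : WithOne S) ^ tot k (toL w) := by
  induction w using FreeSemigroup.recOnMul with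
  | ih1 x =>
    rw [FreeSemigroup.lift_of, hg]
    simp [toL, tot]
  | ih2 x y hx hy =>
    rw [map_mul, WithOne.coe_mul, hx, hy, ← pow_add]
    have : toL (FreeSemigroup.of x * y) = toL (FreeSemigroup.of x) ++ toL y := rfl
    rw [this]
    unfold tot
    rw [List.map_append, List.sum_append]

end

/-- identities of a non-periodic semigroup are balanced -/
theorem balanced {S : Type} [Semigroup S] (u v : FreeSemigroup ℕ)
    (hS : ∀ f : FreeSemigroup ℕ →ₙ* S, f u = f v) (a : S)
    (hinf : (Subsemigroup.closure ({a} : Set S) : Set S).Infinite) :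
    (toL u).Perm (toL v) := by
  have hinj := powers_injective a hinf
  have e1 : tot (fun _ => 1) (toL u) = tot (fun _ => 1) (toL v) := by
    apply hinj
    have h := hS (FreeSemigroup.lift fun _ => a)
    have h1 := lift_powers a (fun _ => a) (fun _ => 1) (fun _ => by simp) u
    have h2 := lift_powers a (fun _ => a) (fun _ => 1) (fun _ => by simp) v
    simp only
    rw [← h1, ← h2, h]
  rw [List.perm_iff_count]
  intro x
  have e2 : tot (fun z => if z = x then 2 else 1) (toL u) =
      tot (fun z => if z = x then 2 else 1) (toL v) := by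
    apply hinj
    have hg : ∀ z, (((if z = x then a * a else a : S)) : WithOne S) =
        (a : WithOne S) ^ (if z = x then 2 else 1) := by
      intro z
      split_ifs
      · rw [WithOne.coe_mul, sq]
      · rw [pow_one]
    have h := hS (FreeSemigroup.lift fun z => if z = x then a * a else a)
    have h1 := lift_powers a (fun z => if z = x then a * a else a) _ hg u
    have h2 := lift_powers a (fun z => if z = x then a * a else a) _ hg v
    simp only
    rw [← h1, ← h2, h]
  have e3 : ∀ w : List ℕ, tot (fun z => if z = x then 2 else 1) w =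
      tot (fun _ => 1) w + w.count x := by
    intro w
    induction w with
    | nil => rfl
    | cons z w ih =>
      unfold tot at *
      rw [List.map_cons, List.sum_cons, ih, List.map_cons, List.sum_cons, List.count_cons]
      by_cases h : z = x
      · subst h; simp; omega
      · simp [h]; omega
  rw [e3, e3] at e2
  omega

end Pool.Agent.MP_6af7b0_al
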