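import Pool.Agent.MP_6af7b0_al.Ruler

set_option autoImplicit false

namespace Pool.Agent.MP_6af7b0_al

/-- position code of a state -/
def cst (ρ c ε a : ℕ) : ℕ := 2 ^ (ρ + 1) * a + ((2 ^ c - 1) + 2 ^ ρ * (1 - ε))

theorem two_pow_lt {ρ c : ℕ} (hc : c < ρ) : 2 ^ c * 2 ≤ 2 ^ ρ := by
  rw [← pow_succ]
  exact Nat.pow_le_pow_right (by norm_num) hc

theorem cst_mod {ρ c ε a : ℕ} (hc : c < ρ) :
    cst ρ c ε a % 2 ^ (ρ + 1) = cst ρ c ε 0 := by
  unfold cst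
  have h1 := two_pow_lt hc
  have h2 : 0 < 2 ^ c := by positivity
  rw [Nat.mul_add_mod, mul_zero, zero_add, Nat.mod_eq_of_lt]
  rw [pow_succ]
  rcases Nat.lt_or_ge ε 1 with h | h
  · have : ε = 0 := by omega
    subst this
    simp only [Nat.sub_zero, mul_one]
    omega
  · have : 1 - ε = 0 := by omega
    rw [this]
    omega

theorem cst_div {ρ c ε a : ℕ} (hc : c < ρ) : cst ρ c ε a / 2 ^ (ρ + 1) = a := by
  have h := cst_mod (ε := ε) (a := a) hc
  have h2 := Nat.div_add_mod (cst ρ c ε a) (2 ^ (ρ + 1))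
  rw [h] at h2
  have h3 : cst ρ c ε a = 2 ^ (ρ + 1) * a + cst ρ c ε 0 := by unfold cst; ring
  have h4 : 2 ^ (ρ + 1) * (cst ρ c ε a / 2 ^ (ρ + 1)) = 2 ^ (ρ + 1) * a := by omega
  exact Nat.eq_of_mul_eq_mul_left (by positivity) h4

structure Step (ρ k k1 l1 b c ε a b' c' ε' a' : ℕ) : Prop where
  hc : c < ρ
  hc' : c' < ρ
  hε : ε ≤ 1
  hε' : ε' ≤ 1
  h1 : ρ * b' + c' = ρ * b + c + k
  h2 : b' + ε' = b + ε + k1
  h3 : a' = a + l1
  h4 : k1 = 0 ↔ l1 = 0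
  hk : 0 < k

variable {ρ k k1 l1 b c ε a b' c' ε' a' : ℕ}

theorem Step.ble (h : Step ρ k k1 l1 b c ε a b' c' ε' a') : b ≤ b' := by
  obtain ⟨hc, hc', hε, hε', h1, h2, h3, h4, hk⟩ := h
  by_contra hb
  push Not at hb
  have : ρ * (b' + 1) ≤ ρ * b := Nat.mul_le_mul_left _ hb
  rw [mul_add] at this
  omega

theorem Step.small (h : Step ρ k k1 l1 b c ε a b' c' ε' a') (hk1 : k1 = 0) (hb : b' = b) :
    ε' = ε ∧ c' = c + k ∧ l1 = 0 ∧ a' = a ∧
      cst ρ c' ε' a' = cst ρ c ε a + (2 ^ c' - 2 ^ c) ∧ 2 ^ c < 2 ^ c' := by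
  obtain ⟨hc, hc', hε, hε', h1, h2, h3, h4, hk⟩ := h
  subst hb
  have e1 : c' = c + k := by omega
  have e2 : ε' = ε := by omega
  have e3 : l1 = 0 := h4.mp hk1
  have e4 : a' = a := by omega
  have e5 : 2 ^ c < 2 ^ c' := Nat.pow_lt_pow_right (by norm_num) (by omega)
  refine ⟨e2, e1, e3, e4, ?_, e5⟩
  subst e2 e4
  unfold cst
  have : 0 < 2 ^ c := by positivity
  omega

theorem Step.cross (h : Step ρ k k1 l1 b c ε a b' c' ε' a') (hk1 : k1 = 0) (hb : b' ≠ b) :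
    b' = b + 1 ∧ ε = 1 ∧ ε' = 0 ∧ l1 = 0 ∧ a' = a := by
  have hble := h.ble
  obtain ⟨hc, hc', hε, hε', h1, h2, h3, h4, hk⟩ := h
  have e3 : l1 = 0 := h4.mp hk1
  omega

theorem Step.big (h : Step ρ k k1 l1 b c ε a b' c' ε' a') (hb : 0 < k1 ∨ b' ≠ b) :
    ∃ z, cst ρ c ε a < z ∧ z ≤ cst ρ c' ε' a' ∧ 2 ^ ρ ∣ z := by
  have hc := h.hc
  have hc' := h.hc'
  have t1 := two_pow_lt hc
  have t2 : 0 < 2 ^ c := by positivity
  have t1' := two_pow_lt hc'
  have t2' : 0 < 2 ^ c' := by positivity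
  rcases Nat.eq_zero_or_pos k1 with hk1 | hk1
  · have hb' : b' ≠ b := by omega
    obtain ⟨e1, e2, e3, e4, e5⟩ := h.cross hk1 hb'
    refine ⟨2 ^ ρ * (2 * a + 1), ?_, ?_, dvd_mul_right _ _⟩
    · unfold cst
      subst e2
      rw [pow_succ]
      simp only [Nat.sub_self, mul_zero, add_zero]
      have : 2 ^ ρ * (2 * a + 1) = 2 ^ ρ * 2 * a + 2 ^ ρ := by ring
      omega
    · unfold cst
      subst e3 e5
      rw [pow_succ]
      simp only [Nat.sub_zero, mul_one]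
      have : 2 ^ ρ * (2 * a' + 1) = 2 ^ ρ * 2 * a' + 2 ^ ρ := by ring
      omega
  · refine ⟨2 ^ (ρ + 1) * (a + 1), ?_, ?_, ?_⟩
    · have hm : cst ρ c ε a = 2 ^ (ρ + 1) * a + cst ρ c ε a % 2 ^ (ρ + 1) := by
        conv_lhs => rw [← Nat.div_add_mod (cst ρ c ε a) (2 ^ (ρ + 1)), cst_div hc]
      rw [hm, mul_add, mul_one]
      have := Nat.mod_lt (cst ρ c ε a) (show 0 < 2 ^ (ρ + 1) by positivity)
      omega
    · have hl : 0 < l1 := by
        rcases Nat.eq_zero_or_pos l1 with e | e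
        · have := h.h4.mpr e
          omega
        · exact e
      have h3 := h.h3
      unfold cst
      have : 2 ^ (ρ + 1) * (a + 1) ≤ 2 ^ (ρ + 1) * a' := Nat.mul_le_mul_left _ (by omega)
      omega
    · exact Dvd.dvd.mul_right (pow_dvd_pow 2 (by omega)) _

theorem Step.lt (h : Step ρ k k1 l1 b c ε a b' c' ε' a') : cst ρ c ε a < cst ρ c' ε' a' := by
  by_cases hb : 0 < k1 ∨ b' ≠ b
  · obtain ⟨z, h1, h2, _⟩ := h.big hb
    omega
  · push Not at hb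
    obtain ⟨_, _, _, _, h5, h6⟩ := h.small (by omega) hb.2
    omega

/-- residue of the code determines `ε` -/
theorem cst_inj {ρ c ε ε2 : ℕ} (hε : ε ≤ 1) (hε2 : ε2 ≤ 1)
    (h : cst ρ c ε 0 = cst ρ c ε2 0) : ε = ε2 := by
  unfold cst at h
  have : 0 < 2 ^ ρ := by positivity
  rcases Nat.lt_or_ge ε 1 with h1 | h1 <;> rcases Nat.lt_or_ge ε2 1 with h2 | h2
  · omega
  · obtain rfl : ε = 0 := by omega
    obtain rfl : ε2 = 1 := by omega
    simp at h
  · obtain rfl : ε = 1 := by omega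
    obtain rfl : ε2 = 0 := by omega
    simp at h
  · omega

theorem cst_first {ρ c ε A : ℕ} (hc : c < ρ) (h : A % 2 ^ (ρ + 1) = cst ρ c ε 0) :
    padicValNat 2 (A + 1) = c := by
  have h2 := Nat.div_add_mod A (2 ^ (ρ + 1))
  rw [h] at h2
  have t2 : 0 < 2 ^ c := by positivity
  have : A + 1 = 2 ^ ρ * (2 * (A / 2 ^ (ρ + 1)) + (1 - ε)) + 2 ^ c := by
    have e : 2 ^ ρ * (2 * (A / 2 ^ (ρ + 1)) + (1 - ε)) =
      2 ^ (ρ + 1) * (A / 2 ^ (ρ + 1)) + 2 ^ ρ * (1 - ε) := by ring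
    rw [e]
    unfold cst at h2
    omega
  rw [this]
  exact v2_first hc

/-- equality of the words read in two steps with the same column -/
theorem Step.word {b2 ε2 a2 b2' ε2' a2' : ℕ} (h : Step ρ k k1 l1 b c ε a b' c' ε' a')
    (h2 : Step ρ k k1 l1 b2 c ε2 a2 b2' c' ε2' a2') (hside : 0 < k1 → ε = ε2)
    (hw : rul a l1 = rul a2 l1) :
    rul (cst ρ c ε a) (cst ρ c' ε' a' - cst ρ c ε a) =
      rul (cst ρ c ε2 a2) (cst ρ c' ε2' a2' - cst ρ c ε2 a2) := by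
  have hc := h.hc
  have hc' := h.hc'
  have t1 := two_pow_lt hc
  have t2 : 0 < 2 ^ c := by positivity
  have t1' := two_pow_lt hc'
  have t2' : 0 < 2 ^ c' := by positivity
  have hbb : b' + b2 = b + b2' := by
    have e1 := h.h1
    have e2 := h2.h1
    have e3 : ρ * (b' + b2) = ρ * (b + b2') := by
      rw [mul_add, mul_add]; omega
    exact Nat.eq_of_mul_eq_mul_left (by omega) e3
  by_cases hb : 0 < k1 ∨ b' ≠ b
  · -- big step: the states agree
    have hεε : ε = ε2 := by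
      rcases Nat.eq_zero_or_pos k1 with hk1 | hk1
      · have q1 := h.cross hk1 (by omega)
        have q2 := h2.cross hk1 (by omega)
        omega
      · exact hside hk1
    subst hεε
    have hεε' : ε' = ε2' := by
      have e1 := h.h2
      have e2 := h2.h2
      omega
    subst hεε'
    have ha : a' + a2 = a + a2' := by
      have e1 := h.h3
      have e2 := h2.h3
      omega
    have hlen : cst ρ c' ε' a' - cst ρ c ε a = cst ρ c' ε' a2' - cst ρ c ε a2 := by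
      have e0 : 2 ^ (ρ + 1) * a' + 2 ^ (ρ + 1) * a2 = 2 ^ (ρ + 1) * a + 2 ^ (ρ + 1) * a2' := by
        rw [← mul_add, ← mul_add, ha]
      unfold cst
      omega
    rw [hlen, rul_eq_iff]
    intro i hi
    rw [rul_eq_iff] at hw
    by_cases hd : 2 ^ (ρ + 1) ∣ cst ρ c ε a + 1 + i
    · -- a multiple of `2^(ρ+1)`
      have m1 := cst_mod (ε := ε) (a := a) hc
      have m2 := cst_mod (ε := ε) (a := a2) hc
      obtain ⟨w, hw1⟩ := hd
      have q1 : cst ρ c ε a = 2 ^ (ρ + 1) * a + cst ρ c ε 0 := by unfold cst; ring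
      have q2 : cst ρ c ε a2 = 2 ^ (ρ + 1) * a2 + cst ρ c ε 0 := by unfold cst; ring
      have q3 : cst ρ c ε 0 < 2 ^ (ρ + 1) := by
        rw [← m1]; exact Nat.mod_lt _ (by positivity)
      have hwa : a < w := by
        by_contra hcon
        push Not at hcon
        have : 2 ^ (ρ + 1) * w ≤ 2 ^ (ρ + 1) * a := Nat.mul_le_mul_left _ hcon
        omega
      have hwa' : w ≤ a + l1 := by
        by_contra hcon
        push Not at hcon
        have e3 := h2.h3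
        have q4 : cst ρ c' ε' a2' = 2 ^ (ρ + 1) * a2' + cst ρ c' ε' 0 := by unfold cst; ring
        have q5 : cst ρ c' ε' 0 < 2 ^ (ρ + 1) := by
          rw [← cst_mod (ε := ε') (a := a2') hc']; exact Nat.mod_lt _ (by positivity)
        have : 2 ^ (ρ + 1) * (a + l1 + 1) ≤ 2 ^ (ρ + 1) * w := Nat.mul_le_mul_left _ hcon
        have e4 : 2 ^ (ρ + 1) * (a + l1 + 1) = 2 ^ (ρ + 1) * a + 2 ^ (ρ + 1) * l1 + 2 ^ (ρ + 1) := by
          ring
        have e5 : 2 ^ (ρ + 1) * a2' = 2 ^ (ρ + 1) * a2 + 2 ^ (ρ + 1) * l1 := by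
          rw [e3]; ring
        omega
      obtain ⟨j, rfl⟩ : ∃ j, w = a + 1 + j := ⟨w - a - 1, by omega⟩
      have hw2 : cst ρ c ε a2 + 1 + i = 2 ^ (ρ + 1) * (a2 + 1 + j) := by
        have e1 : 2 ^ (ρ + 1) * (a + 1 + j) = 2 ^ (ρ + 1) * a + 2 ^ (ρ + 1) * (1 + j) := by ring
        have e2 : 2 ^ (ρ + 1) * (a2 + 1 + j) = 2 ^ (ρ + 1) * a2 + 2 ^ (ρ + 1) * (1 + j) := by ring
        omega
      rw [hw1, hw2, v2_pow_mul _ _ (by omega), v2_pow_mul _ _ (by omega), hw j (by omega)]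
    · apply v2_congr (g := ρ + 1) _ hd
      have m1 := cst_mod (ε := ε) (a := a) hc
      have m2 := cst_mod (ε := ε) (a := a2) hc
      rw [add_assoc, add_assoc, Nat.add_mod, m1, Nat.add_mod (cst ρ c ε a2), m2]
  · -- small step
    push Not at hb
    obtain ⟨f1, f2, f3, f4, f5, f6⟩ := h.small (by omega) hb.2
    obtain ⟨g1, g2, g3, g4, g5, g6⟩ := h2.small (by omega) (by omega)
    rw [f5, g5, Nat.add_sub_cancel_left, Nat.add_sub_cancel_left, rul_eq_iff]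
    intro i hi
    have q1 : ∀ (e x : ℕ), cst ρ c e x + 1 + i = 2 ^ ρ * (2 * x + (1 - e)) + (2 ^ c + i) := by
      intro e x
      unfold cst
      rw [pow_succ]
      have : 2 ^ ρ * (2 * x + (1 - e)) = 2 ^ ρ * 2 * x + 2 ^ ρ * (1 - e) := by ring
      omega
    apply v2_congr (g := ρ)
    · rw [q1, q1, Nat.mul_add_mod, Nat.mul_add_mod]
    · rw [q1, Nat.dvd_iff_mod_eq_zero, Nat.mul_add_mod, Nat.mod_eq_of_lt (by omega)]
      omega

/-- the step made by the other word -/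
theorem Step.other {b2 c2 ε2 A : ℕ} (h : Step ρ k k1 l1 b c ε a b' c' ε' a')
    (hc2 : c2 < ρ) (hε2 : ε2 ≤ 1) (hA : A % 2 ^ (ρ + 1) = cst ρ c2 ε2 0)
    (hw : rul (cst ρ c ε a) (cst ρ c' ε' a' - cst ρ c ε a) =
      rul A (cst ρ c' ε' a' - cst ρ c ε a)) :
    c2 = c ∧ (0 < k1 → ε2 = ε) ∧ ∃ b2' ε2', ρ * b2' + c' = ρ * b2 + c + k ∧ ε2' ≤ 1 ∧
      b2' + ε2' = b2 + ε2 + k1 ∧
      (A + (cst ρ c' ε' a' - cst ρ c ε a)) % 2 ^ (ρ + 1) = cst ρ c' ε2' 0 := by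
  have hc := h.hc
  have hc' := h.hc'
  have hlt := h.lt
  rw [rul_eq_iff] at hw
  have hcc : c2 = c := by
    have e := hw 0 (by omega)
    rw [add_zero, add_zero, cst_first hc (cst_mod hc), cst_first hc2 hA] at e
    exact e.symm
  subst hcc
  have hbb := h.ble
  have hb2 : ρ * (b2 + (b' - b)) + c' = ρ * b2 + c2 + k := by
    have e1 := h.h1
    have e2 : ρ * b + ρ * (b' - b) = ρ * b' := by
      rw [← mul_add]; congr 1; omega
    rw [mul_add]; omega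
  by_cases hb : 0 < k1 ∨ b' ≠ b
  · obtain ⟨z, hz1, hz2, hz3⟩ := h.big hb
    obtain ⟨i, rfl⟩ : ∃ i, z = cst ρ c2 ε a + 1 + i := ⟨z - cst ρ c2 ε a - 1, by omega⟩
    have e := hw i (by omega)
    have e2 := v2_congr_of_dvd (by omega) (by omega) e hz3
    have e3 : cst ρ c2 ε a % 2 ^ (ρ + 1) = A % 2 ^ (ρ + 1) := by
      have : (cst ρ c2 ε a + (1 + i)) ≡ (A + (1 + i)) [MOD 2 ^ (ρ + 1)] := by
        rw [← add_assoc, ← add_assoc]; exact e2
      exact Nat.ModEq.add_right_cancel' _ this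
    rw [cst_mod hc, hA] at e3
    have hεε : ε = ε2 := cst_inj h.hε hε2 e3
    subst hεε
    refine ⟨rfl, fun _ => rfl, b2 + (b' - b), ε', hb2, h.hε', ?_, ?_⟩
    · have := h.h2
      omega
    · rw [← cst_mod (ε := ε') (a := a') hc']
      have e4 : A ≡ cst ρ c2 ε a [MOD 2 ^ (ρ + 1)] := by
        unfold Nat.ModEq
        rw [hA, cst_mod hc]
      have e5 : A + (cst ρ c' ε' a' - cst ρ c2 ε a) ≡
          cst ρ c2 ε a + (cst ρ c' ε' a' - cst ρ c2 ε a) [MOD 2 ^ (ρ + 1)] :=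
        Nat.ModEq.add_right _ e4
      rw [show cst ρ c2 ε a + (cst ρ c' ε' a' - cst ρ c2 ε a) = cst ρ c' ε' a' by omega] at e5
      exact e5
  · push Not at hb
    obtain ⟨f1, f2, f3, f4, f5, f6⟩ := h.small (by omega) hb.2
    refine ⟨rfl, fun h0 => by omega, b2 + (b' - b), ε2, hb2, hε2, by omega, ?_⟩
    rw [f5, Nat.add_sub_cancel_left, Nat.add_mod, hA]
    have t1' := two_pow_lt hc'
    have t2 : 0 < 2 ^ c2 := by positivity
    have e1 : (2 ^ c' - 2 ^ c2) % 2 ^ (ρ + 1) = 2 ^ c' - 2 ^ c2 := by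
      apply Nat.mod_eq_of_lt
      rw [pow_succ]; omega
    have e2 : cst ρ c2 ε2 0 + (2 ^ c' - 2 ^ c2) = cst ρ c' ε2 0 := by
      unfold cst; omega
    rw [e1, e2]
    rw [← cst_mod (ε := ε2) (a := 0) hc', Nat.mod_mod]

end Pool.Agent.MP_6af7b0_al
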