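import Pool.Agent.MP_6af7b0_al.Defs

set_option autoImplicit false

/-!
# The counting lemma
-/

namespace Pool.Agent.MP_6af7b0_al

namespace Cnt

theorem Mf_ge (m k : ℕ) : 2 ≤ Mf m k := by
  unfold Mf
  have h1 := Nat.factorial_pos m
  have h2 : 0 < 2 ^ (16 * m * 2 ^ k) := by positivity
  have := Nat.mul_pos h1 h2
  omega

theorem rf_ge (m k : ℕ) : 2 ≤ rf m k := by
  unfold rf
  have := Mf_ge m k
  nlinarith

theorem Rf_ge (m k : ℕ) : 2 ^ k ≤ Rf m k := by
  induction k with
  | zero => simp [Rf]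
  | succ k ih =>
    rw [pow_succ, mul_comm, Rf]
    exact Nat.mul_le_mul (rf_ge m k) ih

theorem Rf_succ (m k : ℕ) : Rf m (k + 1) = rf m k * Rf m k := rfl

theorem Rf_dvd (m : ℕ) {i j : ℕ} (h : i ≤ j) : Rf m i ∣ Rf m j := by
  induction j, h using Nat.le_induction with
  | base => exact dvd_rfl
  | succ j _ ih => exact ih.trans (Dvd.intro_left _ rfl)

/-- assemble rows -/
def asm (m K : ℕ) (g : Fin (rf m K) → Fin (Rf m K) → Fin (Nf m)) :
    Fin (Rf m (K + 1)) → Fin (Nf m) :=
  fun x => g ⟨x.1 / Rf m K, (Nat.div_lt_iff_lt_mul (Rf_pos m K)).2 x.2⟩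
    ⟨x.1 % Rf m K, Nat.mod_lt _ (Rf_pos m K)⟩

theorem asm_injective (m K : ℕ) : Function.Injective (asm m K) := by
  intro g g' h
  funext i t
  have hlt : i.1 * Rf m K + t.1 < Rf m (K + 1) := by
    rw [Rf_succ]
    calc i.1 * Rf m K + t.1 < i.1 * Rf m K + Rf m K := by omega
      _ = (i.1 + 1) * Rf m K := by ring
      _ ≤ _ := Nat.mul_le_mul_right _ i.2
  have h1 := congrFun h ⟨i.1 * Rf m K + t.1, hlt⟩
  have hd : (i.1 * Rf m K + t.1) / Rf m K = i.1 := by
    rw [mul_comm, Nat.mul_add_div (Rf_pos m K), Nat.div_eq_of_lt t.2, add_zero]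
  have hm : (i.1 * Rf m K + t.1) % Rf m K = t.1 := by
    rw [mul_comm, Nat.mul_add_mod, Nat.mod_eq_of_lt t.2]
  simpa [asm, hd, hm] using h1

theorem per_asm (m K : ℕ) (g : Fin (rf m K) → Fin (Rf m K) → Fin (Nf m)) (n : ℕ) :
    per m (K + 1) (asm m K g) n =
      per m K (g ⟨n / Rf m K % rf m K, Nat.mod_lt _ (rf_pos m K)⟩) n := by
  have h1 : n % Rf m (K + 1) / Rf m K = n / Rf m K % rf m K := by
    rw [Rf_succ]; exact Nat.mod_mul_left_div_self _ _ _
  have h2 : n % Rf m (K + 1) % Rf m K = n % Rf m K := by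
    rw [Rf_succ]; exact Nat.mod_mul_left_mod _ _ _
  simp only [per, asm, h1, h2]

theorem rowOf_lt (m k j : ℕ) (a β : ZMod (Mf m (k + 1))) : rowOf m k j a β < rf m (k + 1) := by
  unfold rowOf rf
  have h1 := ZMod.val_lt (a - (j : ZMod (Mf m (k + 1))) * β)
  have h2 := ZMod.val_lt β
  rw [pow_two]
  calc _ < (a - (j : ZMod (Mf m (k + 1))) * β).val * Mf m (k + 1) + Mf m (k + 1) := by omega
    _ = ((a - (j : ZMod (Mf m (k + 1))) * β).val + 1) * Mf m (k + 1) := by ring
    _ ≤ _ := Nat.mul_le_mul_right _ h1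

/-- index bookkeeping -/
theorem idx_split (m k B row c i : ℕ) (hrow : row < rf m (k + 1)) (hc : c < rf m k)
    (hi : i < Rf m k) :
    ∃ t, t < Rf m (k + 2) ∧
      ((B * rf m (k + 1) + row) * rf m k + c) * Rf m k + i = B * Rf m (k + 2) + t := by
  refine ⟨(row * rf m k + c) * Rf m k + i, ?_, ?_⟩
  · have e : Rf m (k + 2) = rf m (k + 1) * (rf m k * Rf m k) := rfl
    rw [e]
    have h1 : row * rf m k + c + 1 ≤ rf m (k + 1) * rf m k := by
      calc row * rf m k + c + 1 ≤ row * rf m k + rf m k := by omega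
        _ = (row + 1) * rf m k := by ring
        _ ≤ _ := Nat.mul_le_mul_right _ hrow
    calc (row * rf m k + c) * Rf m k + i < (row * rf m k + c) * Rf m k + Rf m k := by omega
      _ = (row * rf m k + c + 1) * Rf m k := by ring
      _ ≤ (rf m (k + 1) * rf m k) * Rf m k := Nat.mul_le_mul_right _ h1
      _ = _ := by ring
  · have e : Rf m (k + 2) = rf m (k + 1) * (rf m k * Rf m k) := rfl
    rw [e]
    ring

/-- conditions inside a row -/
theorem code_row (m : ℕ) (σ : Shift m) (K k B : ℕ) (hk : k + 2 ≤ K)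
    (g : Fin (rf m K) → Fin (Rf m K) → Fin (Nf m))
    (h : ∀ i, codeOK m σ k (per m K (g i)) B) : codeOK m σ k (per m (K + 1) (asm m K g)) B := by
  intro c
  have h0 := h ⟨B * Rf m (k + 2) / Rf m K % rf m K, Nat.mod_lt _ (rf_pos m K)⟩ c
  convert h0 using 1
  funext β
  congr 1
  have : cellOf m k (per m (K + 1) (asm m K g))
      ((B * rf m (k + 1) + rowOf m k (c.2.2.1 : ℕ) c.2.2.2 β) * rf m k + (c.1 : ℕ)) =
      cellOf m k (per m K (g ⟨B * Rf m (k + 2) / Rf m K % rf m K, Nat.mod_lt _ (rf_pos m K)⟩))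
      ((B * rf m (k + 1) + rowOf m k (c.2.2.1 : ℕ) c.2.2.2 β) * rf m k + (c.1 : ℕ)) := by
    funext i
    unfold cellOf
    obtain ⟨t, ht, e⟩ := idx_split m k B (rowOf m k (c.2.2.1 : ℕ) c.2.2.2 β) c.1 i
      (rowOf_lt _ _ _ _ _) c.1.2 i.2
    rw [e, per_asm]
    congr 2
    obtain ⟨q, hq⟩ := Rf_dvd m hk
    have h1 : (B * Rf m (k + 2) + t) / Rf m K = B * Rf m (k + 2) / Rf m K := by
      rw [hq, ← Nat.div_div_eq_div_mul, ← Nat.div_div_eq_div_mul]
      congr 1
      rw [mul_comm, Nat.mul_add_div (Rf_pos m _), Nat.div_eq_of_lt ht, add_zero,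
        Nat.mul_div_cancel_left _ (Rf_pos m _)]
    simp only [h1]
  rw [this]

/-- conditions for a periodic word do not depend on the cell number -/
theorem code_per (m : ℕ) (σ : Shift m) (k B : ℕ) (f : Fin (Rf m (k + 2)) → Fin (Nf m))
    (h : codeOK m σ k (per m (k + 2) f) 0) : codeOK m σ k (per m (k + 2) f) B := by
  intro c
  have h0 := h c
  convert h0 using 1
  funext β
  congr 1
  have : cellOf m k (per m (k + 2) f)
      ((B * rf m (k + 1) + rowOf m k (c.2.2.1 : ℕ) c.2.2.2 β) * rf m k + (c.1 : ℕ)) =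
      cellOf m k (per m (k + 2) f)
      ((0 * rf m (k + 1) + rowOf m k (c.2.2.1 : ℕ) c.2.2.2 β) * rf m k + (c.1 : ℕ)) := by
    funext i
    unfold cellOf per
    congr 2
    have e : Rf m (k + 2) = rf m (k + 1) * (rf m k * Rf m k) := rfl
    have e2 : ((B * rf m (k + 1) + rowOf m k (c.2.2.1 : ℕ) c.2.2.2 β) * rf m k + (c.1 : ℕ)) * Rf m k
        + i = ((0 * rf m (k + 1) + rowOf m k (c.2.2.1 : ℕ) c.2.2.2 β) * rf m k + (c.1 : ℕ)) * Rf m k
        + i + Rf m (k + 2) * B := by
      rw [e]; ring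
    rw [e2, Nat.add_mul_mod_self_left]
  rw [this]

/-- the number of shifts that are right for a given word -/
theorem card_shift (M : ℕ) [NeZero M] (C : Type) [Fintype C] [DecidableEq C]
    (h : C → ZMod M → ZMod M) :
    Nat.card {τ : C → ZMod M → ZMod M // ∀ c, Function.Bijective fun β => h c β + τ c β} =
      (M.factorial) ^ (Fintype.card C) := by
  have e : {τ : C → ZMod M → ZMod M // ∀ c, Function.Bijective fun β => h c β + τ c β} ≃
      (C → Equiv.Perm (ZMod M)) :=
    { toFun := fun τ c => Equiv.ofBijective _ (τ.2 c)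
      invFun := fun p => ⟨fun c β => p c β - h c β, fun c => by
        have : (fun β => h c β + (p c β - h c β)) = p c := by funext β; ring
        rw [this]; exact (p c).bijective⟩
      left_inv := fun τ => by
        apply Subtype.ext
        funext c β
        simp
      right_inv := fun p => by
        funext c
        apply Equiv.ext
        intro β
        simp }
  rw [Nat.card_congr e, Nat.card_eq_fintype_card, Fintype.card_fun, Fintype.card_perm, ZMod.card]

/-- double counting -/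
theorem exists_many {α β : Type} [Fintype α] [Fintype β] (hβ : 0 < Fintype.card β)
    (P : α → β → Prop) (n : ℕ) (h : ∀ a, n ≤ Nat.card {b // P a b}) :
    ∃ b, Fintype.card α * n ≤ Nat.card {a // P a b} * Fintype.card β := by
  classical
  by_contra hcon
  push Not at hcon
  have h1 : ∑ b : β, Nat.card {a // P a b} = ∑ a : α, Nat.card {b // P a b} := by
    have e1 : ∀ b, Nat.card {a // P a b} = ∑ a : α, if P a b then 1 else 0 := by
      intro b
      rw [Nat.card_eq_fintype_card, Fintype.card_subtype, Finset.card_filter]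
    have e2 : ∀ a, Nat.card {b // P a b} = ∑ b : β, if P a b then 1 else 0 := by
      intro a
      rw [Nat.card_eq_fintype_card, Fintype.card_subtype, Finset.card_filter]
    simp only [e1, e2]
    exact Finset.sum_comm
  have h2 : Fintype.card α * n ≤ ∑ a : α, Nat.card {b // P a b} := by
    calc Fintype.card α * n = ∑ _a : α, n := by simp
      _ ≤ _ := Finset.sum_le_sum fun a _ => h a
  have hne : (Finset.univ : Finset β).Nonempty := by
    rw [Finset.univ_nonempty_iff]; exact Fintype.card_pos_iff.1 hβ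
  have h3 : ∑ b : β, Nat.card {a // P a b} * Fintype.card β < ∑ _b : β, Fintype.card α * n :=
    Finset.sum_lt_sum_of_nonempty hne fun b _ => hcon b
  rw [← Finset.sum_mul, h1] at h3
  simp only [Finset.sum_const, Finset.card_univ, smul_eq_mul] at h3
  rw [mul_comm (Fintype.card β)] at h3
  exact absurd (Nat.mul_le_mul_right (Fintype.card β) h2) (not_le.2 h3)

/-- base case -/
theorem count_base (m : ℕ) (σ : Shift m) :
    Real.exp (m * Rf m 1 * (8 + 3 / 2 ^ 0)) ≤
      (Nat.card {f : Fin (Rf m 1) → Fin (Nf m) // Good m σ 1 (per m 1 f)} : ℝ) := by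
  have h1 : Nat.card {f : Fin (Rf m 1) → Fin (Nf m) // Good m σ 1 (per m 1 f)} =
      Nf m ^ Rf m 1 := by
    have e : {f : Fin (Rf m 1) → Fin (Nf m) // Good m σ 1 (per m 1 f)} ≃
        (Fin (Rf m 1) → Fin (Nf m)) :=
      Equiv.subtypeUnivEquiv fun f k hk => by omega
    rw [Nat.card_congr e]
    simp
  rw [h1]
  unfold Nf
  push_cast
  rw [← pow_mul]
  have h2 : (2 : ℝ) = Real.exp (Real.log 2) := (Real.exp_log (by norm_num)).symm
  rw [show (2 : ℝ) ^ (16 * m * Rf m 1) = Real.exp (Real.log 2) ^ (16 * m * Rf m 1) by rw [← h2],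
    ← Real.exp_nat_mul]
  apply Real.exp_le_exp.2
  have h3 := Real.log_two_gt_d9
  push_cast
  have h4 : (0 : ℝ) ≤ m * Rf m 1 := by positivity
  nlinarith

/-- `M ^ M ≤ M! * exp M` -/
theorem pow_le_fact (M : ℕ) : (M : ℝ) ^ M ≤ M.factorial * Real.exp M := by
  have h := Real.pow_div_factorial_le_exp (M : ℝ) (Nat.cast_nonneg M) M
  have hp : (0 : ℝ) < M.factorial := by exact_mod_cast Nat.factorial_pos M
  rw [div_le_iff₀ hp] at h
  linarith

theorem card_cond (m k : ℕ) : Fintype.card (Cond m k) =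
    rf m k * (Bf m k * (m * Mf m (k + 1))) := by
  simp [Cond, ZMod.card]

theorem cond_bound (m k : ℕ) :
    (Fintype.card (Cond m k) : ℝ) * Mf m (k + 1) ≤ m * Rf m (k + 2) * (3 / 2 ^ (k + 1)) := by
  rw [card_cond]
  have hB : (Bf m k : ℝ) ≤ Rf m k * (3 / 2 ^ (k + 1)) := by
    have h1 : ((Rf m k / 2 ^ (k + 1) : ℕ) : ℝ) ≤ (Rf m k : ℝ) / 2 ^ (k + 1) := by
      have := @Nat.cast_div_le ℝ _ _ _ (Rf m k) (2 ^ (k + 1))
      simpa using this
    have h2 : (2 : ℝ) ^ k ≤ Rf m k := by exact_mod_cast Rf_ge m k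
    unfold Bf
    push_cast at h1 ⊢
    have h3 : (1 : ℝ) ≤ Rf m k * (2 / 2 ^ (k + 1)) := by
      rw [pow_succ, show (2 : ℝ) / (2 ^ k * 2) = 1 / 2 ^ k by field_simp]
      rw [mul_one_div, le_div_iff₀ (by positivity)]
      linarith
    calc _ ≤ (Rf m k : ℝ) / 2 ^ (k + 1) + Rf m k * (2 / 2 ^ (k + 1)) := add_le_add h1 h3
      _ = _ := by ring
  have e : (Rf m (k + 2) : ℝ) = (Mf m (k + 1)) ^ 2 * (rf m k * Rf m k) := by
    have : Rf m (k + 2) = (Mf m (k + 1)) ^ 2 * (rf m k * Rf m k) := rfl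
    rw [this]; push_cast; ring
  rw [e]
  push_cast
  have hp : (0 : ℝ) ≤ m * ((Mf m (k + 1)) ^ 2 * rf m k) := by positivity
  calc (rf m k : ℝ) * (Bf m k * (m * Mf m (k + 1))) * Mf m (k + 1)
      = m * ((Mf m (k + 1)) ^ 2 * rf m k) * Bf m k := by ring
    _ ≤ m * ((Mf m (k + 1)) ^ 2 * rf m k) * (Rf m k * (3 / 2 ^ (k + 1))) :=
        mul_le_mul_of_nonneg_left hB hp
    _ = _ := by ring

theorem count_step (m k : ℕ) (σ : Shift m)
    (h : Real.exp (m * Rf m (k + 1) * (8 + 3 / 2 ^ k)) ≤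
      (Nat.card {f : Fin (Rf m (k + 1)) → Fin (Nf m) // Good m σ (k + 1) (per m (k + 1) f)} : ℝ)) :
    ∃ σ' : Shift m, Real.exp (m * Rf m (k + 2) * (8 + 3 / 2 ^ (k + 1))) ≤
      (Nat.card {f : Fin (Rf m (k + 2)) → Fin (Nf m) // Good m σ' (k + 2) (per m (k + 2) f)} : ℝ)
      := by
  classical
  set W := {f : Fin (Rf m (k + 1)) → Fin (Nf m) // Good m σ (k + 1) (per m (k + 1) f)} with hW
  set M := Mf m (k + 1) with hM
  -- the assembled word
  let wd : (Fin (rf m (k + 1)) → W) → (Fin (Rf m (k + 2)) → Fin (Nf m)) :=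
    fun g => asm m (k + 1) fun i => (g i).1
  let hh : (Fin (rf m (k + 1)) → W) → Cond m k → ZMod M → ZMod M := fun g c β =>
    iota m k (cellOf m k (per m (k + 2) (wd g))
      ((0 * rf m (k + 1) + rowOf m k (c.2.2.1 : ℕ) c.2.2.2 β) * rf m k + (c.1 : ℕ))) c.2.1
  let P : (Fin (rf m (k + 1)) → W) → (Cond m k → ZMod M → ZMod M) → Prop := fun g τ =>
    ∀ c, Function.Bijective fun β => hh g c β + τ c β
  have : Fintype W := Fintype.ofFinite _
  obtain ⟨τ, hτ⟩ := exists_many (Fintype.card_pos) P (M.factorial ^ Fintype.card (Cond m k))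
    (fun g => (card_shift M (Cond m k) (hh g)).ge)
  refine ⟨Function.update σ k τ, ?_⟩
  -- injection
  have hinj : Nat.card {g // P g τ} ≤ Nat.card {f : Fin (Rf m (k + 2)) → Fin (Nf m) //
      Good m (Function.update σ k τ) (k + 2) (per m (k + 2) f)} := by
    refine Nat.card_le_card_of_injective (fun g => ⟨wd g.1, ?_⟩) ?_
    · intro k' hk' B
      rcases Nat.lt_or_ge k' k with hlt | hge
      · have hgood : codeOK m σ k' (per m (k + 2) (wd g.1)) B :=
          code_row m σ (k + 1) k' B (by omega) _ (fun i => (g.1 i).2 k' (by omega) B)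
        intro c
        have := hgood c
        rw [Function.update_of_ne (by omega)]
        exact this
      · have hkk : k' = k := by omega
        subst hkk
        apply code_per
        intro c
        rw [Function.update_self]
        exact g.2 c
    · intro g g' hgg
      have h1 : wd g.1 = wd g'.1 := congrArg Subtype.val hgg
      have h2 := asm_injective m (k + 1) h1
      apply Subtype.ext
      funext i
      exact Subtype.ext (congrFun h2 i)
  refine le_trans ?_ (Nat.cast_le.2 hinj)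
  have hcW : (Fintype.card W : ℝ) = (Nat.card W : ℝ) := by rw [Nat.card_eq_fintype_card]
  have hτ' : ((Fintype.card W : ℝ) ^ rf m (k + 1)) * (M.factorial : ℝ) ^ Fintype.card (Cond m k) ≤
      (Nat.card {g // P g τ} : ℝ) * ((M : ℝ) ^ M) ^ Fintype.card (Cond m k) := by
    have h1 : Fintype.card (Fin (rf m (k + 1)) → W) = Fintype.card W ^ rf m (k + 1) := by simp
    have h2 : Fintype.card (Cond m k → ZMod M → ZMod M) = (M ^ M) ^ Fintype.card (Cond m k) := by
      simp [ZMod.card]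
    rw [h1, h2] at hτ
    exact_mod_cast hτ
  have hMf := pow_le_fact M
  set c := Fintype.card (Cond m k) with hc
  have hfp : (0 : ℝ) < (M.factorial : ℝ) ^ c := by
    have : (0 : ℝ) < M.factorial := by exact_mod_cast Nat.factorial_pos M
    positivity
  have h5 : ((M : ℝ) ^ M) ^ c ≤ (M.factorial : ℝ) ^ c * Real.exp (c * M) := by
    calc ((M : ℝ) ^ M) ^ c ≤ (M.factorial * Real.exp M) ^ c :=
          pow_le_pow_left₀ (by positivity) hMf c
      _ = _ := by rw [mul_pow, ← Real.exp_nat_mul]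
  have h6 : (Fintype.card W : ℝ) ^ rf m (k + 1) ≤ (Nat.card {g // P g τ} : ℝ) * Real.exp (c * M) := by
    have h7 : ((Fintype.card W : ℝ) ^ rf m (k + 1)) * (M.factorial : ℝ) ^ c ≤
        ((Nat.card {g // P g τ} : ℝ) * Real.exp (c * M)) * (M.factorial : ℝ) ^ c := by
      calc _ ≤ _ := hτ'
        _ ≤ (Nat.card {g // P g τ} : ℝ) * ((M.factorial : ℝ) ^ c * Real.exp (c * M)) :=
            mul_le_mul_of_nonneg_left h5 (Nat.cast_nonneg _)
        _ = _ := by ring
    exact le_of_mul_le_mul_right h7 hfp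
  have h8 : Real.exp (m * Rf m (k + 2) * (8 + 3 / 2 ^ k)) ≤ (Fintype.card W : ℝ) ^ rf m (k + 1) := by
    rw [hcW]
    calc Real.exp (m * Rf m (k + 2) * (8 + 3 / 2 ^ k))
        = Real.exp (m * Rf m (k + 1) * (8 + 3 / 2 ^ k)) ^ rf m (k + 1) := by
          rw [← Real.exp_nat_mul]
          congr 1
          have : (Rf m (k + 2) : ℝ) = rf m (k + 1) * Rf m (k + 1) := by
            rw [Rf_succ m (k + 1)]; push_cast; ring
          rw [this]; ring
      _ ≤ _ := pow_le_pow_left₀ (Real.exp_pos _).le h _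
  have h9 : Real.exp (m * Rf m (k + 2) * (8 + 3 / 2 ^ (k + 1))) * Real.exp (c * M) ≤
      Real.exp (m * Rf m (k + 2) * (8 + 3 / 2 ^ k)) := by
    rw [← Real.exp_add]
    apply Real.exp_le_exp.2
    have := cond_bound m k
    rw [← hc, ← hM] at this
    have e : (m : ℝ) * Rf m (k + 2) * (8 + 3 / 2 ^ k) =
        m * Rf m (k + 2) * (8 + 3 / 2 ^ (k + 1)) + m * Rf m (k + 2) * (3 / 2 ^ (k + 1)) := by
      rw [pow_succ]; field_simp; ring
    rw [e]
    linarith
  exact le_of_mul_le_mul_right (h9.trans (h8.trans h6)) (Real.exp_pos _)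

theorem count_all (m k : ℕ) : ∃ σ : Shift m,
    Real.exp (m * Rf m (k + 1) * (8 + 3 / 2 ^ k)) ≤
      (Nat.card {f : Fin (Rf m (k + 1)) → Fin (Nf m) // Good m σ (k + 1) (per m (k + 1) f)} : ℝ)
    := by
  induction k with
  | zero => exact ⟨fun _ _ _ => 0, count_base m _⟩
  | succ k ih =>
    obtain ⟨σ, h⟩ := ih
    exact count_step m k σ h

end Cnt

open Cnt

/-- (N) the counting lemma -/
theorem exists_code (m : ℕ) (hm : 1 ≤ m) (K : ℕ) (hK : 1 ≤ K) :
    ∃ σ : Shift m, Real.exp (8 * m * Rf m K) ≤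
      (Nat.card {f : Fin (Rf m K) → Fin (Nf m) // Good m σ K (per m K f)} : ℝ) := by
  obtain ⟨k, rfl⟩ : ∃ k, K = k + 1 := ⟨K - 1, by omega⟩
  obtain ⟨σ, h⟩ := count_all m k
  refine ⟨σ, le_trans (Real.exp_le_exp.2 ?_) h⟩
  have h1 : (0 : ℝ) ≤ m * Rf m (k + 1) * (3 / 2 ^ k) := by positivity
  linarith [h1]

end Pool.Agent.MP_6af7b0_al
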