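import Pool.Agent.MP_6af7b0_al.Transfer

set_option autoImplicit false

open Classical

namespace Pool.Agent.MP_6af7b0_al

/-- the letters read when the other word is placed at `q0` -/
noncomputable def wv (m : ℕ) (y : ℕ → Fin (Nf m)) (len : ℕ → ℕ) (q0 : ℕ) (u v : List ℕ)
    (P : ℕ) : Letter m :=
  match (locs len v)[P - q0]? with
  | some (x, o) => wl m y (cgp len q0 u x + o)
  | none => wl m y P

section

variable {m : ℕ} {y : ℕ → Fin (Nf m)} {len : ℕ → ℕ} {q0 : ℕ} {u v : List ℕ} {k : ℕ}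
  {Sp : ℕ → Prop}

theorem wv_mid {p s : List ℕ} {x o : ℕ} (h : v = p ++ x :: s) (ho : o < len x) :
    wv m y len q0 u v (q0 + tot len p + o) = wl m y (cgp len q0 u x + o) := by
  unfold wv
  rw [show q0 + tot len p + o - q0 = tot len p + o by omega, locs_get h ho]

/-- equality on all cells of uncut classes of level `k` -/
def EqK (m : ℕ) (y : ℕ → Fin (Nf m)) (len : ℕ → ℕ) (q0 : ℕ) (u v : List ℕ) (k : ℕ) : Prop :=
  ∀ n0, InR m len q0 u k n0 →
    (∀ n', n' ≡ n0 [MOD rf m k * rf m (k + 1)] → ¬ Cut m len q0 u k n') →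
    ∀ i < Rf m k, wv m y len q0 u v (n0 * Rf m k + i) = wl m y (n0 * Rf m k + i)

theorem eq_of_block {n n0 ρ : ℕ} (h1 : n / ρ = n0 / ρ) (h2 : n ≡ n0 [MOD ρ]) : n = n0 := by
  rw [← Nat.div_add_mod n ρ, ← Nat.div_add_mod n0 ρ, h1, h2]

/-- the fixed class selection -/
theorem spec_fixed {n0 : ℕ}
    (hU : ∀ n', n' ≡ n0 [MOD rf m k * rf m (k + 1)] → ¬ Cut m len q0 u k n') :
    Spec m y len q0 u k (fun n => n ≡ n0 [MOD rf m k * rf m (k + 1)]) := by
  have hρ : 0 < rf m k * rf m (k + 1) := Nat.mul_pos (rf_pos _ _) (rf_pos _ _)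
  constructor
  · intro B
    obtain ⟨n, h1, h2, h3⟩ := unique_col (Nat.mod_lt n0 hρ) B
    exact ⟨n, h1, h2, fun n' g1 g2 => h3 n' g1 g2⟩
  · intro n hn
    exact hU n hn
  · intro n n' h1 h2 _
    exact h2.symm.trans h1

/-- location of an uncut cell in the other word -/
theorem locate (hpl : Placed m y len q0 u) (hperm : v.Perm u) (hPC : PC (fun _ => 1) u v)
    (hu : ∀ j, u.length + 1 < rf m j) {K : ℕ} (hq : q0 + tot len u ≤ Rf m K) (hk : k + 2 ≤ K)
    {n0 : ℕ} (hin : InR m len q0 u k n0)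
    (hU : ∀ n', n' ≡ n0 [MOD rf m k * rf m (k + 1)] → ¬ Cut m len q0 u k n') :
    ∃ p x s o, v = p ++ x :: s ∧ o + Rf m k ≤ len x ∧ n0 * Rf m k = q0 + tot len p + o ∧
      Rf m k ∣ cgp len q0 u x + o ∧
      q0 + tot len p ≡ cgp len q0 u x [MOD Rf m (k + 3)] := by
  obtain ⟨n, n1, h1, h2, h3, p, x, s, o, h4, h5, h6, h7, h8⟩ :=
    transfer hpl hperm hPC hu hq hk (spec_fixed hU) hin (Nat.ModEq.refl n0)
  have hn : n = n0 := eq_of_block h1 (h3.trans h2)
  subst hn
  exact ⟨p, x, s, o, h4, h5, h6, by rw [← h7]; exact Dvd.intro_left n1 rfl, h8⟩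

theorem eqK_base (hpl : Placed m y len q0 u) (hperm : v.Perm u) (hPC : PC (fun _ => 1) u v)
    (hu : ∀ j, u.length + 1 < rf m j) {K : ℕ} (hq : q0 + tot len u ≤ Rf m (K + 2)) :
    EqK m y len q0 u v K := by
  intro n0 hin hU i hi
  obtain ⟨p, x, s, o, h1, h2, h3, h4, h5⟩ := locate hpl hperm hPC hu hq le_rfl hin hU
  have hx : x ∈ u := hperm.subset (by rw [h1]; simp)
  obtain ⟨p2, s2, g1, g2⟩ := cgp_spec len q0 hx
  have hle : Rf m (K + 2) ≤ Rf m (K + 3) := Nat.le_of_dvd (Rf_pos _ _) (Rf_dvd m (by omega))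
  have htl : tot len v = tot len u := tot_perm len hperm
  have hlx := hpl.hlen x hx
  have e1 : tot len v = tot len p + (len x + tot len s) := by rw [h1]; simp
  have e2 : tot len u = tot len p2 + (len x + tot len s2) := by rw [g1]; simp
  have heq : q0 + tot len p = cgp len q0 u x :=
    Nat.ModEq.eq_of_lt_of_lt h5 (by omega) (by omega)
  rw [h3, add_assoc (q0 + tot len p), wv_mid h1 (by omega), ← add_assoc, heq]
  congr 1
  omega

theorem eq_row (hE : EqK m y len q0 u v (k + 1)) {n : ℕ}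
    (hrow : n / rf m k % rf m (k + 1) ∉ badRows m len q0 u (k + 1))
    (hin : InR m len q0 u k n) :
    ∀ i < Rf m k, wv m y len q0 u v (n * Rf m k + i) = wl m y (n * Rf m k + i) := by
  intro i hi
  set n' := n / rf m k with hn'
  have hR : Rf m (k + 1) = Rf m k * rf m k := Rf_succ m k
  have hpos := Rf_pos m k
  have hpos1 := Rf_pos m (k + 1)
  have hnn := Nat.div_add_mod n (rf m k)
  rw [← hn'] at hnn
  have hmod := Nat.mod_lt n (rf_pos m k)
  have e1 : n * Rf m k = n' * Rf m (k + 1) + n % rf m k * Rf m k := by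
    rw [hR]
    calc n * Rf m k = (rf m k * n' + n % rf m k) * Rf m k := by rw [hnn]
      _ = _ := by ring
  have e2 : (n % rf m k) * Rf m k + Rf m k ≤ Rf m (k + 1) := by
    rw [hR]
    have : (n % rf m k + 1) * Rf m k ≤ rf m k * Rf m k := Nat.mul_le_mul_right _ hmod
    nlinarith
  have huc : ¬ Cut m len q0 u (k + 1) n' := not_badRows hrow
  have e3 : (n' + 1) * Rf m (k + 1) = n' * Rf m (k + 1) + Rf m (k + 1) := by ring
  have e4 : (n + 1) * Rf m k = n * Rf m k + Rf m k := by ring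
  obtain ⟨i1, i2⟩ := hin
  have hin' : InR m len q0 u (k + 1) n' := by
    constructor
    · by_contra hcon
      push Not at hcon
      exact huc ⟨[], u, rfl, by simpa using hcon, by rw [tot_nil]; omega⟩
    · by_contra hcon
      push Not at hcon
      exact huc ⟨u, [], by simp, by omega, by omega⟩
  have hU' : ∀ n'', n'' ≡ n' [MOD rf m (k + 1) * rf m (k + 1 + 1)] →
      ¬ Cut m len q0 u (k + 1) n'' := by
    intro n'' h
    apply not_badRows
    have : n'' % rf m (k + 1) = n' % rf m (k + 1) := h.of_dvd (Dvd.intro _ rfl)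
    rw [this]
    exact hrow
  have := hE n' hin' hU' (n % rf m k * Rf m k + i) (by omega)
  rw [← add_assoc, ← e1] at this
  exact this

/-- the decoding lemma -/
theorem decode (hpl : Placed m y len q0 u) (hperm : v.Perm u) (hPC : PC (fun _ => 1) u v)
    (hu : ∀ j, u.length + 1 < rf m j) {K : ℕ} (hq : q0 + tot len u ≤ Rf m K) (hk : k + 2 ≤ K)
    (hE : EqK m y len q0 u v (k + 1))
    (hS : Spec m y len q0 u k Sp) {n0 : ℕ} (hin : InR m len q0 u k n0) (h0 : Sp n0)
    (hcond : ∀ n, Sp n → n ≡ n0 [MOD rf m k * rf m (k + 1)] ∨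
      n / rf m k % rf m (k + 1) ∉ badRows m len q0 u (k + 1)) :
    ∃ n1, Sp n1 ∧ n1 ≡ n0 [MOD rf m k * rf m (k + 1)] ∧
      ∀ i < Rf m k, wv m y len q0 u v (n0 * Rf m k + i) = wl m y (n1 * Rf m k + i) := by
  obtain ⟨n, n1, h1, h2, h3, p, x, s, o, h4, h5, h6, h7, h8⟩ :=
    transfer hpl hperm hPC hu hq hk hS hin h0
  have hcontent : ∀ i < Rf m k, wv m y len q0 u v (n * Rf m k + i) =
      wl m y (n1 * Rf m k + i) := by
    intro i hi
    rw [h6, h7, add_assoc (q0 + tot len p), wv_mid h4 (by omega), ← add_assoc]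
  rcases hcond n1 h2 with hc | hc
  · have hn : n = n0 := eq_of_block h1 (h3.trans hc)
    subst hn
    exact ⟨n1, h2, hc, hcontent⟩
  · have hrow : n / rf m k % rf m (k + 1) = n1 / rf m k % rf m (k + 1) := div_mod_congr h3
    have htl : tot len v = tot len u := tot_perm len hperm
    have e1 : tot len v = tot len p + (len x + tot len s) := by rw [h4]; simp
    have e4 : (n + 1) * Rf m k = n * Rf m k + Rf m k := by ring
    have hinn : InR m len q0 u k n := ⟨by omega, by omega⟩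
    have hrw := eq_row hE (n := n) (by rw [hrow]; exact hc) hinn
    have hSn : Sp n := by
      refine hS.sp3 n1 n h2 h3.symm ?_
      intro i hi
      rw [← hcontent i hi, hrw i hi]
    obtain ⟨n', w1, w2, w3⟩ := hS.sp1 (n0 / (rf m k * rf m (k + 1)))
    have hn : n = n0 := (w3 n h1 hSn).trans (w3 n0 rfl h0).symm
    subst hn
    exact ⟨n1, h2, h3.symm, hcontent⟩

theorem cut_up {n : ℕ} (h : Cut m len q0 u k n) : Cut m len q0 u (k + 1) (n / rf m k) := by
  obtain ⟨p, s, h1, h2, h3⟩ := h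
  have hR : Rf m (k + 1) = Rf m k * rf m k := Rf_succ m k
  have hnn := Nat.div_add_mod n (rf m k)
  have hmod := Nat.mod_lt n (rf_pos m k)
  set n' := n / rf m k
  refine ⟨p, s, h1, ?_, ?_⟩
  · refine lt_of_le_of_lt ?_ h2
    rw [hR]
    calc n' * (Rf m k * rf m k) = (rf m k * n') * Rf m k := by ring
      _ ≤ n * Rf m k := Nat.mul_le_mul_right _ (by omega)
  · refine lt_of_lt_of_le h3 ?_
    rw [hR]
    calc (n + 1) * Rf m k ≤ (rf m k * n' + rf m k) * Rf m k := Nat.mul_le_mul_right _ (by omega)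
      _ = (n' + 1) * (Rf m k * rf m k) := by ring

end

end Pool.Agent.MP_6af7b0_al
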