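import Mathlib

set_option autoImplicit false

/-!
# Definitions for the positive answer to the growth question (S01797)
-/

namespace Pool.Agent.MP_6af7b0_al

/-- The factor of the ruler word with letters `v₂(a+1), …, v₂(a+n)`. -/
def rul (a n : ℕ) : List ℕ := (List.range n).map fun i => padicValNat 2 (a + 1 + i)

/-- Condition on a pair of words: for every substitution `ψ` erasing exactly the variables with
`k x = 0`, if `ψ(u)` is a factor of the ruler word then `ψ(v) = ψ(u)`. -/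
def PC (k : ℕ → ℕ) (u v : List ℕ) : Prop :=
  ∀ ψ : ℕ → List ℕ, (∀ x ∈ u, (ψ x = [] ↔ k x = 0)) →
    ∀ a n : ℕ, u.flatMap ψ = rul a n → v.flatMap ψ = rul a n

/-- total weight of a word -/
def tot (k : ℕ → ℕ) (p : List ℕ) : ℕ := (p.map k).sum

/-- list of letters of an element of a free semigroup -/
def toL {α : Type} (w : FreeSemigroup α) : List α := w.head :: w.tail

/-! ### Parameters of the code -/

/-- bucket sizes -/
def Mf (m k : ℕ) : ℕ := 1 + m.factorial * 2 ^ (16 * m * 2 ^ k)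

/-- number of level-`k` cells in a level-`(k+1)` cell -/
def rf (m k : ℕ) : ℕ := (Mf m k) ^ 2

/-- length of a level-`k` cell -/
def Rf (m : ℕ) : ℕ → ℕ
  | 0 => 1
  | k + 1 => rf m k * Rf m k

/-- size of the payload alphabet -/
def Nf (m : ℕ) : ℕ := 2 ^ (16 * m)

/-- number of digits of a level-`k` cell in base `Mf m (k+1)` -/
def Bf (m k : ℕ) : ℕ := Rf m k / 2 ^ (k + 1) + 1

instance (m k : ℕ) : NeZero (Mf m k) := ⟨by unfold Mf; omega⟩

theorem Mf_pos (m k : ℕ) : 0 < Mf m k := by unfold Mf; omega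

theorem rf_pos (m k : ℕ) : 0 < rf m k := pow_pos (Mf_pos m k) 2

theorem Rf_pos (m k : ℕ) : 0 < Rf m k := by
  induction k with
  | zero => simp [Rf]
  | succ k ih => exact Nat.mul_pos (rf_pos m k) ih

theorem card_le (m k : ℕ) :
    Fintype.card (Fin (Rf m k) → Fin (Nf m)) ≤
      Fintype.card (Fin (Bf m k) → ZMod (Mf m (k + 1))) := by
  have h0 : (2 : ℕ) ^ (16 * m * 2 ^ (k + 1)) ≤ Mf m (k + 1) := by
    unfold Mf
    have h1 := Nat.factorial_pos m
    have h2 := Nat.mul_le_mul_right (2 ^ (16 * m * 2 ^ (k + 1))) h1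
    omega
  simp only [Fintype.card_fun, Fintype.card_fin, ZMod.card]
  calc Nf m ^ Rf m k = 2 ^ (16 * m * Rf m k) := by rw [Nf, ← pow_mul]
    _ ≤ 2 ^ (16 * m * 2 ^ (k + 1) * Bf m k) := by
        apply Nat.pow_le_pow_right (by norm_num)
        rw [mul_assoc (16 * m)]
        apply Nat.mul_le_mul_left
        unfold Bf
        have := Nat.lt_mul_div_succ (Rf m k) (show 0 < 2 ^ (k + 1) by positivity)
        exact this.le
    _ = (2 ^ (16 * m * 2 ^ (k + 1))) ^ Bf m k := by rw [← pow_mul]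
    _ ≤ _ := Nat.pow_le_pow_left h0 _

/-- the digits of a level-`k` cell -/
noncomputable def iota (m k : ℕ) :
    (Fin (Rf m k) → Fin (Nf m)) ↪ (Fin (Bf m k) → ZMod (Mf m (k + 1))) :=
  (Function.Embedding.nonempty_of_card_le (card_le m k)).some

/-- indices of the code conditions: column, digit, type, bucket -/
abbrev Cond (m k : ℕ) : Type :=
  Fin (rf m k) × Fin (Bf m k) × Fin m × ZMod (Mf m (k + 1))

/-- families of shifts -/
abbrev Shift (m : ℕ) : Type :=
  ∀ k : ℕ, Cond m k → ZMod (Mf m (k + 1)) → ZMod (Mf m (k + 1))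

/-- content of the level-`k` cell number `n` of `y` -/
def cellOf (m k : ℕ) (y : ℕ → Fin (Nf m)) (n : ℕ) : Fin (Rf m k) → Fin (Nf m) :=
  fun i => y (n * Rf m k + i)

/-- the row with number `β` in the bucket `a` of type `j` -/
def rowOf (m k j : ℕ) (a β : ZMod (Mf m (k + 1))) : ℕ :=
  (a - (j : ZMod (Mf m (k + 1))) * β).val * Mf m (k + 1) + β.val

/-- the level-`(k+2)` cell number `B` of `y` satisfies the code -/
def codeOK (m : ℕ) (σ : Shift m) (k : ℕ) (y : ℕ → Fin (Nf m)) (B : ℕ) : Prop :=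
  ∀ c : Cond m k, Function.Bijective fun β : ZMod (Mf m (k + 1)) =>
    iota m k (cellOf m k y
      ((B * rf m (k + 1) + rowOf m k (c.2.2.1 : ℕ) c.2.2.2 β) * rf m k + (c.1 : ℕ))) c.2.1
      + σ k c β

/-- periodic extension of a word of length `Rf m K` -/
def per (m K : ℕ) (f : Fin (Rf m K) → Fin (Nf m)) : ℕ → Fin (Nf m) :=
  fun i => f ⟨i % Rf m K, Nat.mod_lt _ (Rf_pos m K)⟩

/-- all cells up to level `K` satisfy the code -/
def Good (m : ℕ) (σ : Shift m) (K : ℕ) (y : ℕ → Fin (Nf m)) : Prop :=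
  ∀ k, k + 2 ≤ K → ∀ B, codeOK m σ k y B

end Pool.Agent.MP_6af7b0_al
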