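import Pool.Agent.MP_6af7b0_al.Defs

set_option autoImplicit false

namespace Pool.Agent.MP_6af7b0_al

/-- number of recorded address bits on level `j` -/
def bf (m j : ℕ) : ℕ := 2 + 2 * m ^ 2 + 256 * m * 2 ^ j

/-- digit of level `j` of the position `P` -/
def dg (m j P : ℕ) : ℕ := (P / Rf m j) % rf m j

/-- the address bit at the position `P` -/
def bitAt (m P : ℕ) : Prop :=
  ∃ j, (∀ i < j, dg m i P % (bf m i + 1) = 0) ∧ dg m j P % (bf m j + 1) ≠ 0 ∧
    (dg m (j + 3) P).testBit (dg m j P % (bf m j + 1) - 1) = true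

open Classical in
/-- the address track -/
noncomputable def tau (m P : ℕ) : Fin (Rf m 3) × Bool :=
  (⟨P % Rf m 3, Nat.mod_lt _ (Rf_pos m 3)⟩, decide (bitAt m P))

/-- the alphabet -/
abbrev Letter (m : ℕ) : Type := Fin (Nf m) × (Fin (Rf m 3) × Bool)

/-- the word of length `n` at the position `q` -/
noncomputable def wd (m : ℕ) (y : ℕ → Fin (Nf m)) (q n : ℕ) : List (Letter m) :=
  (List.range n).map fun i => (y (q + i), tau m (q + i))

/-- the language -/
def CL (m : ℕ) : Set (List (Letter m)) :=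
  {w | ∃ (K : ℕ) (σ : Shift m) (y : ℕ → Fin (Nf m)) (q : ℕ), 2 ≤ K ∧ Good m σ K y ∧
    q + w.length ≤ Rf m K ∧ w = wd m y q w.length}

end Pool.Agent.MP_6af7b0_al
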