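import Pool.Agent.MP_6af7b0_al.Defs2
import Pool.Agent.MP_6af7b0_al.Count

set_option autoImplicit false

namespace Pool.Agent.MP_6af7b0_al

theorem gr_two_le_rf (m k : ℕ) : 2 ≤ rf m k := by
  have h1 : 1 ≤ m.factorial * 2 ^ (16 * m * 2 ^ k) :=
    Nat.mul_pos (Nat.factorial_pos m) (by positivity)
  have h2 : 2 ≤ Mf m k := by unfold Mf; omega
  unfold rf
  nlinarith

theorem gr_le_Rf (m n : ℕ) : n + 1 ≤ Rf m n := by
  induction n with
  | zero => simp [Rf]
  | succ n ih =>
    have h := gr_two_le_rf m n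
    have h2 : 2 * Rf m n ≤ Rf m (n + 1) := Nat.mul_le_mul_right _ h
    omega

theorem wd_length (m : ℕ) (y : ℕ → Fin (Nf m)) (q n : ℕ) : (wd m y q n).length = n := by
  simp [wd]

theorem finite_len {α : Type} [Finite α] (C : Set (List α)) (n : ℕ) :
    Finite {w : List α // w ∈ C ∧ w.length = n} := by
  exact ((List.finite_length_eq α n).subset fun w hw => hw.2).to_subtype

/-- (G) -/
theorem growth (m : ℕ) (hm : 1 ≤ m) : ∀ n ≥ 1, Real.exp (4 * m) ^ n ≤
    (Nat.card {w : List (Letter m) // w ∈ CL m ∧ w.length = n} : ℝ) := by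
  intro n hn
  have hR : n + 2 ≤ Rf m (n + 1) := gr_le_Rf m (n + 1)
  obtain ⟨σ, hσ⟩ := exists_code m hm (n + 1) (by omega)
  set R := Rf m (n + 1) with hRdef
  have hfin : Finite {w : List (Letter m) // w ∈ CL m ∧ w.length = n} := finite_len _ _
  set W := {w : List (Letter m) // w ∈ CL m ∧ w.length = n} with hW
  set G := {f : Fin R → Fin (Nf m) // Good m σ (n + 1) (per m (n + 1) f)} with hG
  let Φ : G → (Fin (R / n + 1) → W) := fun f i =>
    ⟨wd m (per m (n + 1) f.1) (min (i.1 * n) (R - n)) n, by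
      refine ⟨⟨n + 1, σ, per m (n + 1) f.1, min (i.1 * n) (R - n), by omega, f.2, ?_, ?_⟩,
        wd_length _ _ _ _⟩
      · rw [wd_length]
        have := min_le_right (i.1 * n) (R - n)
        omega
      · rw [wd_length]⟩
  have hinj : Function.Injective Φ := by
    intro f g hfg
    apply Subtype.ext
    funext p
    have hp : p.1 < R := p.2
    have hi : p.1 / n < R / n + 1 := Nat.lt_succ_of_le (Nat.div_le_div_right hp.le)
    have h1 := congrFun hfg ⟨p.1 / n, hi⟩
    have h2 := congrArg Subtype.val h1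
    simp only [Φ] at h2
    set q := min (p.1 / n * n) (R - n) with hq
    have hdm : p.1 / n * n ≤ p.1 := Nat.div_mul_le_self _ _
    have hdm2 : p.1 < p.1 / n * n + n := by
      have := Nat.lt_div_mul_add (a := p.1) (b := n) (by omega)
      exact this
    have hq1 : q ≤ p.1 := le_trans (min_le_left _ _) hdm
    have hq2 : p.1 < q + n := by
      rcases min_choice (p.1 / n * n) (R - n) with h | h
      · rw [hq, h]; exact hdm2
      · rw [hq, h]; omega
    have h3 := congrArg (fun l : List (Letter m) => l[p.1 - q]?) h2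
    simp only [wd] at h3
    rw [List.getElem?_map, List.getElem?_map, List.getElem?_range (by omega)] at h3
    simp only [Option.map_some, Option.some.injEq, Prod.mk.injEq] at h3
    have h4 := h3.1
    have h5 : q + (p.1 - q) = p.1 := by omega
    rw [h5] at h4
    simp only [per] at h4
    have h6 : (⟨p.1 % Rf m (n + 1), Nat.mod_lt _ (Rf_pos m (n + 1))⟩ : Fin (Rf m (n + 1))) = p := by
      apply Fin.ext
      exact Nat.mod_eq_of_lt hp
    rw [h6] at h4
    exact h4
  have hcard : Nat.card G ≤ Nat.card W ^ (R / n + 1) := by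
    have h := Nat.card_le_card_of_injective Φ hinj
    rwa [Nat.card_fun, Nat.card_eq_fintype_card (α := Fin (R / n + 1)), Fintype.card_fin] at h
  by_contra hlt
  push Not at hlt
  have h1 : (Nat.card G : ℝ) ≤ (Nat.card W : ℝ) ^ (R / n + 1) := by exact_mod_cast hcard
  have h2 : (Nat.card W : ℝ) ^ (R / n + 1) < (Real.exp (4 * m) ^ n) ^ (R / n + 1) :=
    pow_lt_pow_left₀ hlt (Nat.cast_nonneg _) (Nat.succ_ne_zero _)
  have h3 : (Real.exp (4 * m) ^ n) ^ (R / n + 1) ≤ Real.exp (8 * m * R) := by
    rw [← pow_mul, ← Real.exp_nat_mul]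
    apply Real.exp_le_exp.2
    have h4 : n * (R / n + 1) ≤ 2 * R := by
      have := Nat.mul_div_le R n
      nlinarith
    have h5 : ((n * (R / n + 1) : ℕ) : ℝ) ≤ 2 * R := by exact_mod_cast h4
    have h6 : (0 : ℝ) ≤ m := Nat.cast_nonneg _
    nlinarith
  linarith [hσ]

end Pool.Agent.MP_6af7b0_al
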