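import Pool.Agent.MP_6af7b0_al.Defs

set_option autoImplicit false
set_option linter.unusedSectionVars false

namespace Pool.Agent.MP_6af7b0_al

namespace Zimin

variable {α : Type} [Fintype α] [LinearOrder α]

/-- `w'` is smaller than `w` at the first difference -/
def lexlt (w' w : List α) : Prop :=
  ∃ (P : List α) (c c' : α) (t t' : List α), w' = P ++ c :: t ∧ w = P ++ c' :: t' ∧ c < c'

lemma lexlt_append {w' w : List α} (h : lexlt w' w) (p s : List α) :
    lexlt (p ++ w' ++ s) (p ++ w ++ s) := by
  obtain ⟨P, c, c', t, t', rfl, rfl, hc⟩ := h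
  exact ⟨p ++ P, c, c', t ++ s, t' ++ s, by simp, by simp, hc⟩

lemma lexlt_lt {w' w : List α} (h : lexlt w' w) : w' < w := by
  obtain ⟨P, c, c', t, t', rfl, rfl, hc⟩ := h
  induction P with
  | nil => exact List.Lex.rel hc
  | cons x P ih => exact List.Lex.cons ih

variable {Mo : Type} [Monoid Mo]

/-- value of a word -/
def ev (val : α → Mo) (w : List α) : Mo := (w.map val).prod

lemma ev_append (val : α → Mo) (w w' : List α) : ev val (w ++ w') = ev val w * ev val w' := by
  simp [ev]

/-- the language of ShortLex-minimal words -/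
def Lang (val : α → Mo) : Set (List α) :=
  {w | ∀ w', ev val w' = ev val w → w.length ≤ w'.length ∧ (w'.length = w.length → ¬ lexlt w' w)}

/-- factorial languages -/
def Fact (X : Set (List α)) : Prop := ∀ p w s : List α, p ++ w ++ s ∈ X → w ∈ X

lemma Fact.pre {X : Set (List α)} (h : Fact X) {w s : List α} (hw : w ++ s ∈ X) : w ∈ X :=
  h [] w s (by simpa using hw)

lemma Fact.suf {X : Set (List α)} (h : Fact X) {w s : List α} (hw : w ++ s ∈ X) : s ∈ X :=
  h w s [] (by simpa using hw)

lemma Fact.inf {X : Set (List α)} (h : Fact X) {w s : List α} (hw : w <:+: s) (hs : s ∈ X) :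
    w ∈ X := by
  obtain ⟨a, b, rfl⟩ := hw
  exact h a w b hs

lemma Lang_fact (val : α → Mo) : Fact (Lang val) := by
  intro p w s h w' hw'
  have := h (p ++ w' ++ s) (by simp only [ev_append, hw'])
  constructor
  · have h1 := this.1
    simp only [List.length_append] at h1
    omega
  · intro hl hlex
    exact this.2 (by simp [hl]) (lexlt_append hlex p s)

lemma Lang_rep (val : α → Mo) (w : List α) : ∃ w' ∈ Lang val, ev val w' = ev val w := by
  classical
  have hex : ∃ n, ∃ w' : List α, ev val w' = ev val w ∧ w'.length = n := ⟨_, w, rfl, rfl⟩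
  let T : Set (List α) := {w' | ev val w' = ev val w ∧ w'.length = Nat.find hex}
  have hT : T.Finite := (List.finite_length_eq α (Nat.find hex)).subset (fun x hx => hx.2)
  have hne : T.Nonempty := Nat.find_spec hex
  obtain ⟨w0, hw0, hmin⟩ := Set.exists_min_image T id hT hne
  refine ⟨w0, ?_, hw0.1⟩
  intro w' hw'
  constructor
  · rw [hw0.2]
    exact Nat.find_min' hex ⟨w', hw'.trans hw0.1, rfl⟩
  · intro hl hlex
    have : w' ∈ T := ⟨hw'.trans hw0.1, hl.trans hw0.2⟩
    exact absurd (lexlt_lt hlex) (not_lt.2 (hmin w' this))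

/-- `m`-th power of a word -/
def pw (p : List α) : ℕ → List α
  | 0 => []
  | m + 1 => p ++ pw p m

lemma ev_pw (val : α → Mo) (p : List α) (m : ℕ) : ev val (pw p m) = ev val p ^ m := by
  induction m with
  | zero => simp [pw, ev]
  | succ m ih => rw [pw, ev_append, ih, pow_succ']

lemma length_pw (p : List α) (m : ℕ) : (pw p m).length = m * p.length := by
  induction m with
  | zero => simp [pw]
  | succ m ih => rw [pw, List.length_append, ih]; ring

lemma pw_pre (p : List α) {m m' : ℕ} (h : m ≤ m') : pw p m <+: pw p m' := by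
  induction m generalizing m' with
  | zero => simp [pw]
  | succ m ih =>
    obtain ⟨k, rfl⟩ : ∃ k, m' = k + 1 := ⟨m' - 1, by omega⟩
    rw [pw, pw]
    exact (List.prefix_append_right_inj p).2 (ih (by omega))

lemma pw_not_mem (val : α → Mo) (p : List α) (hp : p ≠ []) {i j : ℕ} (hij : i < j)
    (h : ev val p ^ i = ev val p ^ j) : pw p j ∉ Lang val := by
  intro hmem
  have := (hmem (pw p i) (by rw [ev_pw, ev_pw, h])).1
  rw [length_pw, length_pw] at this
  have hpos : 0 < p.length := List.length_pos_iff.2 hp
  have := Nat.mul_lt_mul_of_pos_right hij hpos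
  omega

/-- infinite factorial sublanguages -/
def Good1 (L : Set (List α)) : Set (Set (List α)) :=
  {M | M ⊆ L ∧ Fact M ∧ ∀ n, ∃ w ∈ M, w.length = n}

lemma exists_minimal_lang (L : Set (List α)) (hL : Fact L) (hinf : ∀ n, ∃ w ∈ L, w.length = n) :
    ∃ M, Minimal (· ∈ Good1 L) M := by
  classical
  apply zorn_superset
  intro C hC hchain
  rcases C.eq_empty_or_nonempty with rfl | hne
  · exact ⟨L, ⟨subset_rfl, hL, hinf⟩, by simp⟩
  refine ⟨⋂₀ C, ⟨?_, ?_, ?_⟩, fun s hs => Set.sInter_subset_of_mem hs⟩
  · obtain ⟨X, hX⟩ := hne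
    exact (Set.sInter_subset_of_mem hX).trans (hC hX).1
  · intro p w s h X hX
    exact (hC hX).2.1 p w s (h X hX)
  · intro n
    -- choose `X ∈ C` with the least number of words of length `n`
    let f : Set (List α) → ℕ := fun X => {w | w ∈ X ∧ w.length = n}.ncard
    obtain ⟨X, hX, hmin⟩ : ∃ X ∈ C, ∀ Y ∈ C, f X ≤ f Y := by
      have hex : ∃ m, ∃ X ∈ C, f X = m := by
        obtain ⟨X, hX⟩ := hne
        exact ⟨_, X, hX, rfl⟩
      obtain ⟨X, hX, hXm⟩ := Nat.find_spec hex
      refine ⟨X, hX, fun Y hY => ?_⟩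
      rw [hXm]
      exact Nat.find_min' hex ⟨Y, hY, rfl⟩
    obtain ⟨w, hw, hwn⟩ := (hC hX).2.2 n
    refine ⟨w, ?_, hwn⟩
    intro Y hY
    rcases hchain.total hX hY with h | h
    · exact h hw
    · have hfinX : {w | w ∈ X ∧ w.length = n}.Finite :=
        (List.finite_length_eq α n).subset (fun x hx => hx.2)
      have hsub : {w | w ∈ Y ∧ w.length = n} ⊆ {w | w ∈ X ∧ w.length = n} :=
        fun x hx => ⟨h hx.1, hx.2⟩
      have heq := Set.eq_of_subset_of_ncard_le hsub (hmin Y hY) hfinX
      have : w ∈ {w | w ∈ X ∧ w.length = n} := ⟨hw, hwn⟩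
      rw [← heq] at this
      exact this.1

/-- uniform recurrence -/
lemma recurrent {L M : Set (List α)} (hM : Minimal (· ∈ Good1 L) M) (f : List α) (hf : f ∈ M) :
    ∃ N, ∀ w ∈ M, N ≤ w.length → f <:+: w := by
  obtain ⟨hML, hMF, hMn⟩ := hM.prop
  by_contra hcon
  push Not at hcon
  let M' : Set (List α) := {w | w ∈ M ∧ ¬ f <:+: w}
  have hM' : M' ∈ Good1 L := by
    refine ⟨fun x hx => hML hx.1, ?_, ?_⟩
    · intro p w s h
      refine ⟨hMF p w s h.1, fun hfw => h.2 ?_⟩
      exact hfw.trans ⟨p, s, rfl⟩
    · intro n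
      obtain ⟨w, hw, hwn, hfw⟩ := hcon n
      refine ⟨w.take n, ⟨?_, ?_⟩, by simp [hwn]⟩
      · have : w.take n ++ w.drop n ∈ M := by simpa using hw
        exact hMF.pre this
      · intro h
        exact hfw (h.trans (List.take_prefix n w).isInfix)
  have := hM.le_of_le hM' (fun x hx => hx.1) hf
  exact this.2 List.infix_rfl

lemma recurrent_unif {L M : Set (List α)} (hM : Minimal (· ∈ Good1 L) M) (l : ℕ) :
    ∃ N, ∀ f ∈ M, f.length ≤ l → ∀ w ∈ M, N ≤ w.length → f <:+: w := by
  classical
  have hfin : {f : List α | f.length ≤ l}.Finite := List.finite_length_le α l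
  choose! N hN using fun f (hf : f ∈ M) => recurrent hM f hf
  refine ⟨hfin.toFinset.sup N, fun f hf hfl w hw hwl => hN f hf w hw (le_trans ?_ hwl)⟩
  exact Finset.le_sup (f := N) (by simpa using hfl)

/-- special words -/
def Spec (M : Set (List α)) (c c' : α) (s : List α) : Prop := s ++ [c] ∈ M ∧ s ++ [c'] ∈ M

lemma Spec.suf {M : Set (List α)} (hM : Fact M) {c c' : α} {p s : List α}
    (h : Spec M c c' (p ++ s)) : Spec M c c' s := by
  constructor
  · exact hM.suf (w := p) (by simpa using h.1)
  · exact hM.suf (w := p) (by simpa using h.2)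

lemma determined {M : Set (List α)} (hM : Fact M) (n : ℕ)
    (hns : ∀ s : List α, s.length = n → ∀ a b : α, s ++ [a] ∈ M → s ++ [b] ∈ M → a = b) :
    ∀ (l : ℕ) (X Y : List α), X ∈ M → Y ∈ M → X.length = n + l → Y.length = n + l →
      X.take n = Y.take n → X = Y := by
  intro l
  induction l with
  | zero =>
    intro X Y _ _ hX hY h
    rwa [List.take_of_length_le (by omega), List.take_of_length_le (by omega)] at h
  | succ l ih =>
    intro X Y hXM hYM hX hY h
    obtain ⟨X', a, rfl⟩ : ∃ X' a, X = X' ++ [a] := by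
      rcases List.eq_nil_or_concat' X with rfl | ⟨X', a, rfl⟩
      · simp at hX
      · exact ⟨X', a, rfl⟩
    obtain ⟨Y', b, rfl⟩ : ∃ Y' b, Y = Y' ++ [b] := by
      rcases List.eq_nil_or_concat' Y with rfl | ⟨Y', b, rfl⟩
      · simp at hY
      · exact ⟨Y', b, rfl⟩
    simp only [List.length_append, List.length_singleton] at hX hY
    have hXl : X'.length = n + l := by omega
    have hYl : Y'.length = n + l := by omega
    rw [List.take_append_of_le_length (by omega), List.take_append_of_le_length (by omega)] at h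
    have heq := ih X' Y' (hM.pre hXM) (hM.pre hYM) hXl hYl h
    subst heq
    have hsplit : X' = X'.take l ++ X'.drop l := (List.take_append_drop l X').symm
    have hlen : (X'.drop l).length = n := by simp [hXl]
    have h1 : X'.drop l ++ [a] ∈ M := by
      apply hM.suf (w := X'.take l)
      rw [← List.append_assoc, ← hsplit]; exact hXM
    have h2 : X'.drop l ++ [b] ∈ M := by
      apply hM.suf (w := X'.take l)
      rw [← List.append_assoc, ← hsplit]; exact hYM
    rw [hns _ hlen a b h1 h2]

lemma pw_pre_of_period {X P Y : List α} (h : X = P ++ Y) (hY : Y <+: X) :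
    ∀ m : ℕ, m * P.length ≤ X.length → pw P m <+: X := by
  intro m
  induction m with
  | zero => intro _; simp [pw]
  | succ m ih =>
    intro hm
    have h1 : m * P.length ≤ X.length := by
      have e : (m + 1) * P.length = m * P.length + P.length := by ring
      omega
    have h2 := ih h1
    have h3 : pw P m <+: Y := by
      apply List.prefix_of_prefix_length_le h2 hY
      rw [length_pw]
      have : X.length = P.length + Y.length := by rw [h]; simp
      have e : (m + 1) * P.length = m * P.length + P.length := by ring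
      omega
    rw [pw, h]
    exact (List.prefix_append_right_inj P).2 h3

/-- there is a pair with special words of every length -/
lemma exists_special {L M : Set (List α)} (hM : Minimal (· ∈ Good1 L) M)
    (hper : ∀ p : List α, p ≠ [] → ∃ m, pw p m ∉ L) (hL : Fact L) :
    ∃ c c' : α, c < c' ∧ ∀ n, ∃ s : List α, s.length = n ∧ Spec M c c' s := by
  classical
  obtain ⟨hML, hMF, hMn⟩ := hM.prop
  by_contra hcon
  push Not at hcon
  choose! nn hnn using hcon
  let n : ℕ := Finset.univ.sup (fun c : α => Finset.univ.sup (fun c' : α => nn c c'))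
  have hn : ∀ c c', nn c c' ≤ n := fun c c' =>
    le_trans (Finset.le_sup (f := fun c' : α => nn c c') (Finset.mem_univ c'))
      (Finset.le_sup (f := fun c : α => Finset.univ.sup (fun c' : α => nn c c')) (Finset.mem_univ c))
  have hns' : ∀ s : List α, s.length = n → ∀ a b : α, a < b → ¬ Spec M a b s := by
    intro s hs a b hab hsp
    have hsplit : s = s.take (n - nn a b) ++ s.drop (n - nn a b) := (List.take_append_drop _ s).symm
    rw [hsplit] at hsp
    have h1 := hsp.suf hMF
    apply hnn a b hab (s.drop (n - nn a b)) ?_ h1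
    simp [hs]
    have := hn a b
    omega
  have hns : ∀ s : List α, s.length = n → ∀ a b : α, s ++ [a] ∈ M → s ++ [b] ∈ M → a = b := by
    intro s hs a b ha hb
    rcases lt_trichotomy a b with h | h | h
    · exact absurd ⟨ha, hb⟩ (hns' s hs a b h)
    · exact h
    · exact absurd ⟨hb, ha⟩ (hns' s hs b a h)
  have hdet := determined hMF n hns
  -- pigeonhole
  have hfin : {f : List α | f.length = n}.Finite := List.finite_length_eq α n
  let T : ℕ := hfin.toFinset.card
  choose! mm hmm using hper
  have hfin2 : {f : List α | f.length ≤ T}.Finite := List.finite_length_le α T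
  let m : ℕ := hfin2.toFinset.sup mm
  obtain ⟨w, hw, hwl⟩ := hMn (T + (n + m * T))
  obtain ⟨i, hi, j, hj, hij, hwin⟩ : ∃ i ∈ Finset.range (T + 1), ∃ j ∈ Finset.range (T + 1),
      i ≠ j ∧ (w.drop i).take n = (w.drop j).take n := by
    apply Finset.exists_ne_map_eq_of_card_lt_of_maps_to (t := hfin.toFinset)
    · simp [T]
    · intro i hi
      have hi' : i < T + 1 := by simpa using hi
      simp only [Finset.mem_coe, Set.Finite.mem_toFinset, Set.mem_ofPred_eq, List.length_take,
        List.length_drop]
      omega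
  wlog hlt : i < j generalizing i j
  · exact this j hj i hi (Ne.symm hij) hwin.symm (by omega)
  have hjT : j ≤ T := by simpa [Nat.lt_succ_iff] using hj
  -- X = w.drop i, Y = w.drop j
  have hXM : w.drop i ∈ M := by
    apply hMF.suf (w := w.take i); simpa using hw
  have hYM : w.drop j ∈ M := by
    apply hMF.suf (w := w.take j); simpa using hw
  have hXY : (w.drop i).drop (j - i) = w.drop j := by
    rw [List.drop_drop]; congr 1; omega
  have hdecomp : w.drop i = (w.drop i).take (j - i) ++ w.drop j := by
    rw [← hXY]; exact (List.take_append_drop _ _).symm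
  have hYl : (w.drop j).length = n + (T + m * T - j) := by
    simp only [List.length_drop, hwl]; omega
  have hX'M : (w.drop i).take (w.drop j).length ∈ M := by
    apply hMF.pre (s := (w.drop i).drop (w.drop j).length); simpa using hXM
  have hX'l : ((w.drop i).take (w.drop j).length).length = n + (T + m * T - j) := by
    rw [List.length_take, List.length_drop, List.length_drop, hwl]; omega
  have hpre : (w.drop i).take (w.drop j).length = w.drop j := by
    apply hdet _ _ _ hX'M hYM hX'l hYl
    rw [List.take_take, min_eq_left (by omega)]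
    exact hwin
  have hYpre : w.drop j <+: w.drop i := by
    rw [← hpre]; exact List.take_prefix _ _
  let P : List α := (w.drop i).take (j - i)
  have hPl : P.length = j - i := by
    simp only [P, List.length_take, List.length_drop, hwl]
    omega
  have hPne : P ≠ [] := by
    intro h
    have : P.length = 0 := by rw [h]; rfl
    omega
  have hpw := pw_pre_of_period (P := P) hdecomp hYpre m (by
    rw [hPl, List.length_drop, hwl]
    have : m * (j - i) ≤ m * T := Nat.mul_le_mul_left m (by omega)
    omega)
  have hpwM : pw P m ∈ L := hML (hMF.inf hpw.isInfix hXM)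
  have hmP : mm P ≤ m := Finset.le_sup (f := mm) (by
    simp only [Set.Finite.mem_toFinset, Set.mem_ofPred_eq]; omega)
  exact hmm P hPne (hL.inf (pw_pre P hmP).isInfix hpwM)

/-- the words `U_k` -/
def U (g : ℕ → List α) : ℕ → List α
  | 0 => []
  | k + 1 => U g k ++ g k ++ U g k

lemma U_congr {g g' : ℕ → List α} (k : ℕ) (h : ∀ j < k, g j = g' j) : U g k = U g' k := by
  induction k with
  | zero => rfl
  | succ k ih =>
    rw [U, U, ih (fun j hj => h j (by omega)), h k (by omega)]

lemma exists_U {L M : Set (List α)} (hM : Minimal (· ∈ Good1 L) M) {c c' : α} (e : ℕ → α)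
    (he : ∀ j, e j = c ∨ e j = c') (k : ℕ) :
    ∃ n, ∀ s : List α, s.length = n → Spec M c c' s →
      ∃ r : ℕ → List α, U (fun j => e j :: r j) k <:+ s := by
  classical
  obtain ⟨hML, hMF, hMn⟩ := hM.prop
  induction k with
  | zero => exact ⟨0, fun s _ _ => ⟨fun _ => [], by simp [U]⟩⟩
  | succ k ih =>
    obtain ⟨n, hn⟩ := ih
    obtain ⟨N, hN⟩ := recurrent_unif hM (n + 1)
    refine ⟨N + n, fun s hs hsp => ?_⟩
    have hsplit : s = s.take N ++ s.drop N := (List.take_append_drop _ s).symm
    have hsp1 : Spec M c c' (s.drop N) := by rw [hsplit] at hsp; exact hsp.suf hMF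
    obtain ⟨r, hr⟩ := hn (s.drop N) (by simp [hs]) hsp1
    have hUl : (U (fun j => e j :: r j) k).length ≤ n := by
      have := hr.length_le
      simp [hs] at this
      exact this
    have hr' : U (fun j => e j :: r j) k <:+ s := hr.trans (List.drop_suffix _ _)
    obtain ⟨s', hs'⟩ := hr'
    have hspU : Spec M c c' (U (fun j => e j :: r j) k) := by
      rw [← hs'] at hsp; exact hsp.suf hMF
    have hUe : U (fun j => e j :: r j) k ++ [e k] ∈ M := by
      rcases he k with h | h
      · rw [h]; exact hspU.1
      · rw [h]; exact hspU.2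
    have hsM : s ∈ M := hMF.pre hsp.1
    have hs'M : s' ∈ M := by rw [← hs'] at hsM; exact hMF.pre hsM
    have hs'l : N ≤ s'.length := by
      have : s'.length + (U (fun j => e j :: r j) k).length = s.length := by
        rw [← List.length_append, hs']
      omega
    obtain ⟨x, y, hxy⟩ := hN _ hUe (by simp; omega) s' hs'M hs'l
    refine ⟨Function.update r k y, ?_⟩
    have hU : U (fun j => e j :: Function.update r k y j) k = U (fun j => e j :: r j) k := by
      apply U_congr
      intro j hj
      rw [Function.update_of_ne (by omega)]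
    rw [U, hU]
    simp only [Function.update_self]
    refine ⟨x, ?_⟩
    rw [← hs', ← hxy]
    simp

/-! ### the ruler word -/

lemma rul_append (a n m : ℕ) : rul a (n + m) = rul a n ++ rul (a + n) m := by
  unfold rul
  rw [List.range_add, List.map_append, List.map_map]
  congr 1
  apply List.map_congr_left
  intro i _
  simp only [Function.comp]
  congr 1
  omega

lemma val_lt {m k : ℕ} (h0 : m ≠ 0) (h : m < 2 ^ k) : padicValNat 2 m < k := by
  have h1 : 2 ^ padicValNat 2 m ≤ m := Nat.le_of_dvd (Nat.pos_of_ne_zero h0) pow_padicValNat_dvd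
  exact (Nat.pow_lt_pow_iff_right (by norm_num : 1 < 2)).1 (lt_of_le_of_lt h1 h)

lemma mem_rul_lt {k x : ℕ} (hx : x ∈ rul 0 (2 ^ k - 1)) : x < k := by
  unfold rul at hx
  rw [List.mem_map] at hx
  obtain ⟨i, hi, rfl⟩ := hx
  rw [List.mem_range] at hi
  exact val_lt (by omega) (by omega)

lemma val_add {m k : ℕ} (h0 : m ≠ 0) (h : m < 2 ^ k) :
    padicValNat 2 (2 ^ k + m) = padicValNat 2 m := by
  have hv := val_lt h0 h
  obtain ⟨q, hq⟩ : 2 ^ padicValNat 2 m ∣ m := pow_padicValNat_dvd
  have hodd : ¬ 2 ∣ q := by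
    rintro ⟨q', rfl⟩
    apply pow_succ_padicValNat_not_dvd (p := 2) h0
    exact ⟨q', by rw [pow_succ]; nlinarith⟩
  have h2 : 2 ^ k = 2 ^ padicValNat 2 m * 2 ^ (k - padicValNat 2 m) := by
    rw [← pow_add]; congr 1; omega
  have h3 : 2 ∣ 2 ^ (k - padicValNat 2 m) := dvd_pow_self 2 (by omega)
  have h4 : ¬ 2 ∣ 2 ^ (k - padicValNat 2 m) + q := fun h => hodd ((Nat.dvd_add_right h3).1 h)
  have h5 : 2 ^ k + m = 2 ^ padicValNat 2 m * (2 ^ (k - padicValNat 2 m) + q) := by
    rw [mul_add, ← h2, ← hq]
  rw [h5, padicValNat.mul (by positivity) (by intro h; apply h4; rw [h]; exact dvd_zero 2),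
    padicValNat.prime_pow, padicValNat.eq_zero_of_not_dvd h4]
  rfl

lemma rul_succ (k : ℕ) : rul 0 (2 ^ (k + 1) - 1) = rul 0 (2 ^ k - 1) ++ [k] ++ rul 0 (2 ^ k - 1) := by
  have hpos : 0 < 2 ^ k := by positivity
  have e : 2 ^ (k + 1) - 1 = (2 ^ k - 1) + (1 + (2 ^ k - 1)) := by rw [pow_succ]; omega
  rw [e, rul_append, rul_append, List.append_assoc]
  congr 1
  have h1 : rul (0 + (2 ^ k - 1)) 1 = [k] := by
    unfold rul
    simp only [List.range_one, List.map_cons, List.map_nil]
    have : 0 + (2 ^ k - 1) + 1 + 0 = 2 ^ k := by omega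
    rw [this, padicValNat.prime_pow]
  have h2 : rul (0 + (2 ^ k - 1) + 1) (2 ^ k - 1) = rul 0 (2 ^ k - 1) := by
    unfold rul
    apply List.map_congr_left
    intro i hi
    rw [List.mem_range] at hi
    have : 0 + (2 ^ k - 1) + 1 + 1 + i = 2 ^ k + (0 + 1 + i) := by omega
    rw [this]
    exact val_add (by omega) (by omega)
  rw [h1, h2]

lemma flatMap_rul {β : Type} (g : ℕ → List β) (k : ℕ) :
    (rul 0 (2 ^ k - 1)).flatMap g = U g k := by
  induction k with
  | zero => simp [rul, U]
  | succ k ih =>
    rw [rul_succ, List.flatMap_append, List.flatMap_append, ih, U]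
    simp

lemma first_diff : ∀ (W Z : List ℕ), W.length = Z.length → W ≠ Z →
    ∃ (P : List ℕ) (i j : ℕ) (t t' : List ℕ), W = P ++ i :: t ∧ Z = P ++ j :: t' ∧ i ≠ j := by
  intro W
  induction W with
  | nil =>
    intro Z hl hne
    exfalso
    apply hne
    simp only [List.length_nil] at hl
    exact (List.length_eq_zero_iff.1 hl.symm).symm
  | cons x W ih =>
    intro Z hl hne
    cases Z with
    | nil => simp at hl
    | cons y Z =>
      by_cases hxy : x = y
      · subst hxy
        obtain ⟨P, i, j, t, t', h1, h2, h3⟩ := ih Z (by simpa using hl) (by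
          intro h; apply hne; rw [h])
        exact ⟨x :: P, i, j, t, t', by rw [h1]; rfl, by rw [h2]; rfl, h3⟩
      · exact ⟨[], x, y, W, Z, rfl, rfl, hxy⟩



lemma toL_mul (a b : FreeSemigroup ℕ) : toL (a * b) = toL a ++ toL b := by
  unfold toL
  simp

/-- value of a nonempty word in the semigroup -/
lemma ev_ne_nil {S : Type} [Semigroup S] {d : ℕ} (val : Fin d → S) (w : List (Fin d))
    (hw : w ≠ []) : ∃ s : S, ev (fun i => (val i : WithOne S)) w = (s : WithOne S) := by
  induction w with
  | nil => exact absurd rfl hw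
  | cons x w ih =>
    by_cases h : w = []
    · subst h; exact ⟨val x, by simp [ev]⟩
    · obtain ⟨s, hs⟩ := ih h
      refine ⟨val x * s, ?_⟩
      have : ev (fun i => (val i : WithOne S)) (x :: w) =
          (val x : WithOne S) * ev (fun i => (val i : WithOne S)) w := by simp [ev]
      rw [this, hs, WithOne.coe_mul]

end Zimin

open Zimin

/-- (Z) the isoterm lemma -/
theorem zimin_cond (S : Type) [Semigroup S] (u v : FreeSemigroup ℕ)
    (hS : ∀ f : FreeSemigroup ℕ →ₙ* S, f u = f v)
    (hper : ∀ a : S, (Subsemigroup.closure ({a} : Set S) : Set S).Finite)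
    (A : Set S) (hA : A.Finite) (hinf : (Subsemigroup.closure A : Set S).Infinite)
    (hbal : (toL u).Perm (toL v)) :
    PC (fun _ => 1) (toL u) (toL v) := by
  classical
  have := hA.fintype
  let e : Fin (Fintype.card A) ≃ A := (Fintype.equivFin A).symm
  let val0 : Fin (Fintype.card A) → S := fun i => (e i : S)
  let val : Fin (Fintype.card A) → WithOne S := fun i => (val0 i : WithOne S)
  obtain ⟨s0, _⟩ := hinf.nonempty
  -- every element of the closure is the value of a word
  have hcl : ∀ s ∈ Subsemigroup.closure A, ∃ w : List (Fin (Fintype.card A)),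
      ev val w = (s : WithOne S) := by
    intro s hs
    induction hs using Subsemigroup.closure_induction with
    | mem x hx => exact ⟨[e.symm ⟨x, hx⟩], by simp [ev, val, val0]⟩
    | mul x y _ _ hx hy =>
      obtain ⟨w, hw⟩ := hx
      obtain ⟨w', hw'⟩ := hy
      exact ⟨w ++ w', by rw [ev_append, hw, hw', WithOne.coe_mul]⟩
  have hLF : Fact (Lang val) := Lang_fact val
  have hLinf : (Lang val).Infinite := by
    intro hfin
    apply hinf
    have hsub : (Subsemigroup.closure A : Set S) ⊆
        (fun s : S => (s : WithOne S)) ⁻¹' ((ev val) '' (Lang val)) := by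
      intro s hs
      obtain ⟨w, hw⟩ := hcl s hs
      obtain ⟨w', hw', he⟩ := Lang_rep val w
      exact ⟨w', hw', he.trans hw⟩
    exact ((hfin.image _).preimage (WithOne.coe_injective.injOn)).subset hsub
  have hLn : ∀ n, ∃ w ∈ Lang val, w.length = n := by
    intro n
    by_contra hcon
    push Not at hcon
    apply hLinf
    apply (List.finite_length_le (Fin (Fintype.card A)) n).subset
    intro w hw
    by_contra hlt
    simp only [Set.mem_ofPred_eq, not_le] at hlt
    apply hcon (w.take n)
    · apply hLF.pre (s := w.drop n); simpa using hw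
    · rw [List.length_take]; omega
  have hperL : ∀ p : List (Fin (Fintype.card A)), p ≠ [] → ∃ m, pw p m ∉ Lang val := by
    intro p hp
    obtain ⟨a, ha⟩ := ev_ne_nil val0 p hp
    have hmem : ∀ i : ℕ, ∃ b ∈ Subsemigroup.closure ({a} : Set S),
        ((a : WithOne S)) ^ (i + 1) = (b : WithOne S) := by
      intro i
      induction i with
      | zero => exact ⟨a, Subsemigroup.subset_closure rfl, by simp⟩
      | succ i ih =>
        obtain ⟨b, hb, he⟩ := ih
        exact ⟨b * a, Subsemigroup.mul_mem _ hb (Subsemigroup.subset_closure rfl), by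
          rw [pow_succ, he, WithOne.coe_mul]⟩
    have hni : ¬ Function.Injective (fun i : ℕ => ((a : WithOne S)) ^ (i + 1)) := by
      intro hinj
      have h1 := Set.infinite_range_of_injective hinj
      apply h1
      apply ((hper a).image (fun s : S => (s : WithOne S))).subset
      rintro _ ⟨i, rfl⟩
      obtain ⟨b, hb, he⟩ := hmem i
      exact ⟨b, hb, he.symm⟩
    obtain ⟨i, j, hij, hne⟩ : ∃ i j : ℕ, ((a : WithOne S)) ^ (i + 1) = (a : WithOne S) ^ (j + 1) ∧
        i ≠ j := by
      simp only [Function.Injective] at hni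
      push Not at hni
      exact hni
    rcases lt_or_gt_of_ne hne with h | h
    · exact ⟨j + 1, pw_not_mem val p hp (by omega : i + 1 < j + 1) (by
        change ev val p = _ at ha
        rw [ha]; exact hij)⟩
    · exact ⟨i + 1, pw_not_mem val p hp (by omega : j + 1 < i + 1) (by
        change ev val p = _ at ha
        rw [ha]; exact hij.symm)⟩
  obtain ⟨M, hM⟩ := exists_minimal_lang (Lang val) hLF hLn
  obtain ⟨c, c', hcc, hsp⟩ := exists_special hM hperL hLF
  -- the condition
  intro ψ hψ a n hun
  by_contra hvn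
  have hψ' : ∀ x ∈ toL u, ψ x ≠ [] := fun x hx h => by
    have := (hψ x hx).1 h
    simp at this
  have hk : a + n < 2 ^ (a + n) := Nat.lt_two_pow_self
  obtain ⟨q, hq⟩ : ∃ q, 2 ^ (a + n) - 1 = a + (n + q) := ⟨2 ^ (a + n) - 1 - a - n, by omega⟩
  let k := a + n
  have hZ : rul 0 (2 ^ k - 1) = rul 0 a ++ ((toL u).flatMap ψ ++ rul (0 + a + n) q) := by
    rw [hun, show 2 ^ k - 1 = a + (n + q) from hq, rul_append, rul_append]
    simp
  let Z : List ℕ := rul 0 (2 ^ k - 1)
  let W : List ℕ := rul 0 a ++ ((toL v).flatMap ψ ++ rul (0 + a + n) q)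
  have hZ' : Z = rul 0 a ++ ((toL u).flatMap ψ ++ rul (0 + a + n) q) := hZ
  have hperm : W.Perm Z := by
    rw [hZ']
    apply List.Perm.append_left
    apply List.Perm.append_right
    exact (List.Perm.flatMap_right _ hbal).symm
  have hWZ : W ≠ Z := by
    intro h
    rw [hZ'] at h
    have h1 := List.append_cancel_left h
    have h2 := List.append_cancel_right h1
    exact hvn (h2.trans hun)
  obtain ⟨P, i, j, t, t', hWP, hZP, hij⟩ := first_diff W Z hperm.length_eq hWZ
  let pe : ℕ → Fin (Fintype.card A) := fun x => if x = j then c' else c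
  obtain ⟨n0, hn0⟩ := exists_U hM (c := c) (c' := c') pe (fun x => by
    by_cases h : x = j
    · right; simp [pe, h]
    · left; simp [pe, h]) k
  obtain ⟨s, hs, hss⟩ := hsp n0
  obtain ⟨r, hr⟩ := hn0 s hs hss
  let g : ℕ → List (Fin (Fintype.card A)) := fun x => pe x :: r x
  have hZg : Z.flatMap g = U g k := flatMap_rul g k
  have hUL : Z.flatMap g ∈ Lang val := by
    rw [hZg]
    have hMg := hM.prop
    have hsM : s ∈ M := hMg.2.1.pre hss.1
    exact hMg.1 (hMg.2.1.inf hr.isInfix hsM)
  -- the two values agree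
  let Φ : ℕ → List (Fin (Fintype.card A)) := fun x => (ψ x).flatMap g
  have hΦ : ∀ x ∈ toL u, Φ x ≠ [] := by
    intro x hx h
    obtain ⟨y, l, hyl⟩ := List.exists_cons_of_ne_nil (hψ' x hx)
    simp only [Φ, hyl, List.flatMap_cons, g, List.cons_append] at h
    exact absurd h (by simp)
  let F : ℕ → S := fun x => if h : Φ x ≠ [] then (ev_ne_nil val0 (Φ x) h).choose else s0
  have hF : ∀ x, Φ x ≠ [] → ev val (Φ x) = (F x : WithOne S) := by
    intro x h
    have := (ev_ne_nil val0 (Φ x) h).choose_spec
    simp only [F, dif_pos h]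
    exact this
  let f : FreeSemigroup ℕ →ₙ* S := FreeSemigroup.lift F
  have hf : ∀ w : FreeSemigroup ℕ, (∀ x ∈ toL w, Φ x ≠ []) →
      ((f w : S) : WithOne S) = ev val ((toL w).flatMap Φ) := by
    intro w
    induction w using FreeSemigroup.recOnMul with
    | ih1 x =>
      intro h
      have hx : x ∈ toL (FreeSemigroup.of x) := by simp [toL]
      have e1 : f (FreeSemigroup.of x) = F x := FreeSemigroup.lift_of F x
      have e2 : (toL (FreeSemigroup.of x)).flatMap Φ = Φ x := by simp [toL]
      rw [e1, e2, hF x (h x hx)]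
    | ih2 x y hx hy =>
      intro h
      have e0 : toL (FreeSemigroup.of x * y) = toL (FreeSemigroup.of x) ++ toL y := toL_mul _ _
      rw [map_mul, WithOne.coe_mul, e0, List.flatMap_append, ev_append]
      rw [hx (fun z hz => h z (by rw [e0]; simp [hz])), hy (fun z hz => h z (by rw [e0]; simp [hz]))]
  have hev : ev val ((toL v).flatMap Φ) = ev val ((toL u).flatMap Φ) := by
    rw [← hf u hΦ, ← hf v (fun x hx => hΦ x (hbal.mem_iff.2 hx)), hS f]
  have hevWZ : ev val (W.flatMap g) = ev val (Z.flatMap g) := by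
    rw [hZ']
    simp only [W, List.flatMap_append, ev_append, List.flatMap_assoc]
    rw [show (fun x => (ψ x).flatMap g) = Φ from rfl, hev]
  have hlen : (W.flatMap g).length = (Z.flatMap g).length :=
    (List.Perm.flatMap_right g hperm).length_eq
  have hlex : lexlt (W.flatMap g) (Z.flatMap g) := by
    refine ⟨P.flatMap g, c, c', r i ++ t.flatMap g, r j ++ t'.flatMap g, ?_, ?_, hcc⟩
    · rw [hWP, List.flatMap_append, List.flatMap_cons]
      simp [g, pe, hij]
    · rw [hZP, List.flatMap_append, List.flatMap_cons]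
      simp [g, pe]
  exact (hUL _ hevWZ).2 hlen hlex

end Pool.Agent.MP_6af7b0_al
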