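import Pool.Agent.MP_6af7b0_al.MainStep
import Pool.Agent.MP_6af7b0_al.Zimin
import Pool.Agent.MP_6af7b0_al.Growth
import Pool.Agent.MP_6af7b0_al.Assembly
import Pool.Agent.MP_6af7b0_al.Bal

set_option autoImplicit false

open Classical

namespace Pool.Agent.MP_6af7b0_al

section

variable {m : ℕ} {θ : ℕ → List (Letter m)}

theorem tot_length (w : List ℕ) : tot (fun x => (θ x).length) w = (w.flatMap θ).length := by
  unfold tot
  rw [List.length_flatMap]

theorem flat_get {w p s : List ℕ} {x o : ℕ} (h : w = p ++ x :: s) (ho : o < (θ x).length) :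
    (w.flatMap θ)[tot (fun x => (θ x).length) p + o]? = (θ x)[o]? := by
  rw [h, List.flatMap_append, tot_length, List.getElem?_append_right (by omega),
    Nat.add_sub_cancel_left, List.flatMap_cons, List.getElem?_append_left ho]

theorem wd_get (y : ℕ → Fin (Nf m)) (q n i : ℕ) (hi : i < n) :
    (wd m y q n)[i]? = some (wl m y (q + i)) := by
  unfold wd wl
  rw [List.getElem?_map, List.getElem?_range hi]
  rfl

/-- The words of the language are isoterms. -/
theorem lang_isoterm {u v : List ℕ} (hm : u.length + 1 < m) (hperm : v.Perm u)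
    (hPC : PC (fun _ => 1) u v) (hθ : ∀ x, θ x ≠ []) (h : u.flatMap θ ∈ CL m) :
    v.flatMap θ = u.flatMap θ := by
  obtain ⟨K, σ, y, q, hK, hG, hq, hw⟩ := h
  set len : ℕ → ℕ := fun x => (θ x).length with hlen
  have hpos : ∀ x, 0 < len x := fun x => List.length_pos_iff.mpr (hθ x)
  have htu : tot len u = (u.flatMap θ).length := tot_length u
  have htv : tot len v = (v.flatMap θ).length := tot_length v
  have htt : tot len v = tot len u := tot_perm len hperm
  -- content of an occurrence
  have hcont : ∀ p x s, u = p ++ x :: s → ∀ o < len x,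
      (θ x)[o]? = some (wl m y (q + tot len p + o)) := by
    intro p x s hp o ho
    rw [← flat_get hp ho, hw, wd_get y q _ _ ?_, add_assoc]
    rw [← htu, hp, tot_append, tot_cons]
    have : tot (fun x => (θ x).length) p = tot len p := rfl
    omega
  have hpl : Placed m y len q u := by
    refine ⟨by omega, fun x _ => hpos x, ?_⟩
    intro p x s p2 s2 h1 h2 o ho
    have e1 := hcont p x s h1 o ho
    have e2 := hcont p2 x s2 h2 o ho
    rw [e1] at e2
    exact Option.some.inj e2
  have hu : ∀ j, u.length + 1 < rf m j := by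
    intro j
    have h1 : m < Mf m j := by
      unfold Mf
      have h2 : m < 2 ^ (16 * m * 2 ^ j) := by
        refine lt_of_lt_of_le Nat.lt_two_pow_self (Nat.pow_le_pow_right (by norm_num) ?_)
        have : 1 ≤ 2 ^ j := Nat.one_le_two_pow
        nlinarith
      have h3 := Nat.mul_le_mul_right (2 ^ (16 * m * 2 ^ j)) (Nat.factorial_pos m)
      omega
    have h2 : Mf m j ≤ rf m j := by
      unfold rf
      have := Mf_pos m j
      nlinarith
    omega
  have hmain := wv_eq hK hG hpl hperm hPC hu hm (by rw [htu]; exact hq)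
  apply List.ext_getElem?
  intro i
  by_cases hi : i < tot len u
  · obtain ⟨p, x, s, o, h1, h2, h3⟩ := locs_cases (len := len) v i (by omega)
    have hx : x ∈ u := hperm.subset (by rw [h1]; simp)
    obtain ⟨p2, s2, g1, g2⟩ := cgp_spec len q hx
    have e1 := hmain (q + i) (by omega) (by omega)
    have e2 : (v.flatMap θ)[i]? = (θ x)[o]? := by
      rw [h3]
      exact flat_get h1 h2
    rw [e2, hcont p2 x s2 g1 o h2, hw, wd_get y q _ _ (by rw [← htu]; exact hi), ← e1]
    congr 1
    rw [h3, ← add_assoc, wv_mid h1 h2, g2]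
  · rw [List.getElem?_eq_none (by omega), List.getElem?_eq_none (by omega)]

end

theorem CL_factorial (m : ℕ) : ∀ a b c, a ++ b ++ c ∈ CL m → b ∈ CL m := by
  rintro a b c ⟨K, σ, y, q, hK, hG, hq, hw⟩
  refine ⟨K, σ, y, q + a.length, hK, hG, ?_, ?_⟩
  · simp only [List.length_append] at hq
    omega
  · apply List.ext_getElem?
    intro i
    by_cases hi : i < b.length
    · rw [wd_get y _ _ _ hi]
      have h1 : (a ++ b ++ c)[a.length + i]? = b[i]? := by
        rw [List.append_assoc, List.getElem?_append_right (by omega), Nat.add_sub_cancel_left,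
          List.getElem?_append_left hi]
      rw [← h1, hw, wd_get y q _ _ (by simp only [List.length_append]; omega), add_assoc]
    · rw [List.getElem?_eq_none (by omega), List.getElem?_eq_none (by rw [wd_length]; omega)]

end Pool.Agent.MP_6af7b0_al
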