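import Pool.Agent.MP_6af7b0_al.OneStep

set_option autoImplicit false

open Classical

namespace Pool.Agent.MP_6af7b0_al

/-! ### Counting marks -/

/-- number of marks below `q` -/
noncomputable def cnt (M : ℕ → Prop) (q : ℕ) : ℕ := Nat.count M q

theorem cnt_zero (M : ℕ → Prop) : cnt M 0 = 0 := by simp [cnt]

theorem cnt_mono (M : ℕ → Prop) {a b : ℕ} (h : a ≤ b) : cnt M a ≤ cnt M b :=
  Nat.count_monotone M h

theorem cnt_add (M : ℕ → Prop) (a b : ℕ) :
    cnt M (a + b) = cnt M a + cnt (fun i => M (a + i)) b := by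
  unfold cnt
  exact Nat.count_add M a b

theorem cnt_succ_pos {M : ℕ → Prop} {P : ℕ} (h : M P) : cnt M (P + 1) = cnt M P + 1 := by
  unfold cnt
  rw [Nat.count_succ, if_pos h]

theorem cnt_succ_le (M : ℕ → Prop) (P : ℕ) : cnt M (P + 1) ≤ cnt M P + 1 := by
  unfold cnt
  rw [Nat.count_succ]
  split_ifs <;> omega

theorem cnt_congr {M M' : ℕ → Prop} {q : ℕ} (h : ∀ P < q, (M P ↔ M' P)) : cnt M q = cnt M' q := by
  induction q with
  | zero => simp [cnt]
  | succ q ih =>
    unfold cnt at *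
    rw [Nat.count_succ, Nat.count_succ, ih (fun P hP => h P (by omega))]
    congr 1
    simp [h q (by omega)]

theorem cnt_lt_exists {M : ℕ → Prop} {a b : ℕ} (h : cnt M a < cnt M b) :
    ∃ P, a ≤ P ∧ P < b ∧ M P ∧ cnt M P = cnt M a := by
  induction b with
  | zero => simp [cnt] at h
  | succ b ih =>
    by_cases hlt : cnt M a < cnt M b
    · obtain ⟨P, h1, h2, h3, h4⟩ := ih hlt
      exact ⟨P, h1, by omega, h3, h4⟩
    · push Not at hlt
      have hab : a ≤ b := by
        by_contra hc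
        push Not at hc
        have := cnt_mono M (show b + 1 ≤ a by omega)
        omega
      have h1 := cnt_mono M hab
      have h2 : cnt M b = cnt M a := by omega
      have h3 : M b := by
        by_contra hc
        unfold cnt at h h2
        rw [Nat.count_succ, if_neg hc] at h
        omega
      exact ⟨b, hab, by omega, h3, h2⟩

theorem cnt_true (q : ℕ) {M : ℕ → Prop} (h : ∀ P, M P) : cnt M q = q := by
  induction q with
  | zero => simp [cnt]
  | succ q ih => rw [cnt_succ_pos (h q), ih]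

/-- each cell of length `L` has exactly one mark -/
def Cell (M : ℕ → Prop) (L : ℕ) : Prop := ∀ m, cnt M (m * L) = m

theorem Cell.idx {M : ℕ → Prop} {L : ℕ} (hL : 0 < L) (h : Cell M L) {P : ℕ} (hP : M P) :
    cnt M P = P / L := by
  have h1 := h (P / L)
  have h2 := h (P / L + 1)
  have h3 : P / L * L ≤ P := Nat.div_mul_le_self P L
  have h4 : P < (P / L + 1) * L := by
    have := Nat.lt_mul_div_succ P hL
    rwa [mul_comm] at this
  have h5 := cnt_mono M h3
  have h6 := cnt_mono M (show P + 1 ≤ (P / L + 1) * L by omega)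
  have h7 := cnt_succ_pos hP
  omega

theorem cell_of_idx {M : ℕ → Prop} {L : ℕ} (h : ∀ P, M P → cnt M P = P / L)
    (hinf : ∀ n, ∃ q, n ≤ cnt M q) : Cell M L := by
  intro m
  by_contra hne
  rcases Nat.lt_or_gt_of_ne hne with hlt | hgt
  · obtain ⟨q, hq⟩ := hinf (m + 1)
    obtain ⟨P, h1, _, h3, h4⟩ := cnt_lt_exists (show cnt M (m * L) < cnt M q by omega)
    have h5 := h P h3
    rcases Nat.eq_zero_or_pos L with hL | hL
    · subst hL
      rw [mul_zero, cnt_zero] at h4 hlt
      have hz : ∀ P, M P → cnt M P = 0 := fun P hP => by rw [h P hP, Nat.div_zero]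
      have h6 := cnt_succ_pos h3
      have h7 := hz P h3
      by_cases h8 : cnt M (P + 1) < cnt M q
      · obtain ⟨P', _, _, g3, g4⟩ := cnt_lt_exists h8
        have := hz P' g3
        omega
      · omega
    · have : m ≤ P / L := (Nat.le_div_iff_mul_le hL).mpr h1
      omega
  · -- the mark number `m` lies below `m * L`
    have key : ∀ b, m < cnt M b → ∃ P < b, M P ∧ cnt M P = m := by
      intro b
      induction b with
      | zero => intro h0; simp [cnt] at h0
      | succ b ih =>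
        intro h0
        by_cases h1 : m < cnt M b
        · obtain ⟨P, g1, g2⟩ := ih h1
          exact ⟨P, by omega, g2⟩
        · have h2 := cnt_succ_le M b
          have h3 : M b := by
            by_contra hc
            unfold cnt at h0 h1
            rw [Nat.count_succ, if_neg hc] at h0
            omega
          exact ⟨b, by omega, h3, by omega⟩
    obtain ⟨P, h1, h2, h3⟩ := key _ hgt
    have h4 := h P h2
    have hL : 0 < L := by
      rcases Nat.eq_zero_or_pos L with hL | hL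
      · subst hL; omega
      · exact hL
    have : P / L < m := (Nat.div_lt_iff_lt_mul hL).mpr h1
    omega

/-- counts on consecutive levels -/
theorem cell_bd {M M1 : ℕ → Prop} {L ρ : ℕ} (hρ : 0 < ρ) (h : Cell M L) (h1 : Cell M1 (L * ρ))
    (hn : ∀ P, M1 P → M P) (q : ℕ) : ∃ ε ≤ 1, cnt M1 q = cnt M q / ρ + ε := by
  set b := cnt M q / ρ with hb
  have hm : ∀ m, cnt M (m * (L * ρ)) = m * ρ := by
    intro m
    rw [show m * (L * ρ) = (m * ρ) * L by ring]
    exact h _
  have hdm := Nat.div_add_mod (cnt M q) ρ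
  have hml := Nat.mod_lt (cnt M q) hρ
  have e1 : ρ * b = b * ρ := mul_comm _ _
  have lo : b ≤ cnt M1 q := by
    by_contra hc
    push Not at hc
    rw [← h1 b] at hc
    obtain ⟨P, g1, g2, g3, _⟩ := cnt_lt_exists hc
    have g5 := cnt_mono M g1
    have g6 := cnt_mono M (show P + 1 ≤ b * (L * ρ) by omega)
    rw [cnt_succ_pos (hn P g3), hm b] at g6
    rw [← hb, e1] at hdm
    omega
  have hi : cnt M1 q ≤ b + 1 := by
    by_contra hc
    push Not at hc
    rw [← h1 (b + 1)] at hc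
    obtain ⟨P, g1, g2, g3, _⟩ := cnt_lt_exists hc
    have g5 := cnt_mono M g1
    have g6 := cnt_mono M (show P + 1 ≤ q by omega)
    rw [cnt_succ_pos (hn P g3)] at g6
    rw [hm (b + 1)] at g5
    rw [← hb, e1] at hdm
    have : (b + 1) * ρ = b * ρ + ρ := by ring
    omega
  exact ⟨cnt M1 q - b, by omega, by omega⟩

/-! ### Words placed on the line -/

/-- `w` placed at `q0`: the marks `Mk` are compatible with the offsets `O` of the variables -/
structure World (T : ℕ) (L : ℕ → ℕ) (len cgp : ℕ → ℕ) (q0 : ℕ) (O : ℕ → ℕ → ℕ → Prop)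
    (w : List ℕ) (Mk : ℕ → ℕ → Prop) : Prop where
  off : ∀ s ≤ T, ∀ p x s', w = p ++ x :: s' → ∀ o < len x, (Mk s (q0 + tot len p + o) ↔ O s x o)
  cell : ∀ s ≤ T, Cell (Mk s) (L s)
  cong : ∀ s < T, ∀ p x s', w = p ++ x :: s' → (∃ o < len x, O s x o) →
    q0 + tot len p ≡ cgp x [MOD L (s + 1)]

/-- number of marks in a variable -/
noncomputable def kk (len : ℕ → ℕ) (O : ℕ → ℕ → ℕ → Prop) (s x : ℕ) : ℕ := cnt (O s x) (len x)

theorem kk_pos {len : ℕ → ℕ} {O : ℕ → ℕ → ℕ → Prop} {s x : ℕ} :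
    0 < kk len O s x ↔ ∃ o < len x, O s x o := by
  unfold kk
  constructor
  · intro h
    have h0 : cnt (O s x) 0 < cnt (O s x) (len x) := by rw [cnt_zero]; exact h
    obtain ⟨P, _, h2, h3, _⟩ := cnt_lt_exists h0
    exact ⟨P, h2, h3⟩
  · rintro ⟨o, h1, h2⟩
    have := cnt_succ_pos h2
    have h3 := cnt_mono (O s x) (show o + 1 ≤ len x by omega)
    omega

theorem pcount {len : ℕ → ℕ} {q0 : ℕ} {w : List ℕ} {M : ℕ → Prop}
    {Of : ℕ → ℕ → Prop}
    (off : ∀ p x s', w = p ++ x :: s' → ∀ o < len x, (M (q0 + tot len p + o) ↔ Of x o))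
    (p : List ℕ) : ∀ s, w = p ++ s →
      cnt M (q0 + tot len p) = cnt M q0 + tot (fun x => cnt (Of x) (len x)) p := by
  induction p using List.reverseRecOn with
  | nil => intro s _; simp
  | append_singleton p x ih =>
    intro s hs
    have hs' : w = p ++ x :: s := by simpa using hs
    have h1 := ih (x :: s) hs'
    rw [tot_append, tot_append, tot_cons, tot_nil, tot_cons, tot_nil, add_zero, add_zero,
      ← add_assoc, cnt_add, h1, add_assoc]
    congr 2
    exact cnt_congr (fun o ho => off p x s hs' o ho)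

theorem div_mod_congr {a b L ρ : ℕ} (h : a ≡ b [MOD L * ρ]) : a / L % ρ = b / L % ρ := by
  rw [← Nat.mod_mul_right_div_self, ← Nat.mod_mul_right_div_self, h]

theorem modEq_mul {a b L ρ : ℕ} (h1 : a ≡ b [MOD L]) (h2 : a / L % ρ = b / L % ρ) :
    a ≡ b [MOD L * ρ] := by
  unfold Nat.ModEq at *
  rw [Nat.mod_mul, Nat.mod_mul, h1, h2]

theorem div_shift {a b L : ℕ} (h : a ≡ b [MOD L]) (x y : ℕ) :
    (a + x) / L + (b + y) / L = (b + x) / L + (a + y) / L := by
  rcases Nat.eq_zero_or_pos L with hL | hL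
  · subst hL; simp
  have ha := Nat.div_add_mod a L
  have hb := Nat.div_add_mod b L
  unfold Nat.ModEq at h
  rw [h] at ha
  have e : ∀ z, (a + z) / L = a / L + (b % L + z) / L := by
    intro z
    conv_lhs => rw [← ha, add_assoc, Nat.mul_add_div hL]
  have e' : ∀ z, (b + z) / L = b / L + (b % L + z) / L := by
    intro z
    conv_lhs => rw [← hb, add_assoc, Nat.mul_add_div hL]
  rw [e, e, e', e']
  omega

theorem idx_first {M Of : ℕ → Prop} {L P ℓ f : ℕ} (hL : 0 < L) (hM : Cell M L)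
    (off : ∀ o < ℓ, (M (P + o) ↔ Of o)) (hf : f < ℓ) (h1 : Of f) (h2 : ∀ o < f, ¬ Of o) :
    cnt M P = (P + f) / L := by
  rw [← hM.idx hL ((off f hf).mpr h1), cnt_add]
  have : cnt (fun i => M (P + i)) f = cnt (fun _ => False) f :=
    cnt_congr (fun o ho => by
      rw [off o (by omega)]
      simp [h2 o ho])
  rw [this]
  have : cnt (fun _ => False) f = 0 := by
    by_contra hc
    have h0 : cnt (fun _ => False) 0 < cnt (fun _ => False) f := by
      rw [cnt_zero]; omega
    obtain ⟨_, _, _, h3, _⟩ := cnt_lt_exists h0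
    exact h3
  omega

/-- first marked offset -/
noncomputable def fo (len : ℕ → ℕ) (O : ℕ → ℕ → ℕ → Prop) (s x : ℕ) : ℕ :=
  sInf {o | o < len x ∧ O s x o}

theorem fo_spec {len : ℕ → ℕ} {O : ℕ → ℕ → ℕ → Prop} {s x : ℕ} (h : ∃ o < len x, O s x o) :
    fo len O s x < len x ∧ O s x (fo len O s x) ∧ ∀ o < fo len O s x, ¬ O s x o := by
  obtain ⟨o, ho⟩ := h
  have hne : {o | o < len x ∧ O s x o}.Nonempty := ⟨o, ho⟩
  have h1 := Nat.sInf_mem hne
  refine ⟨h1.1, h1.2, fun o' ho' hc => ?_⟩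
  exact Nat.notMem_of_lt_sInf ho' ⟨lt_trans ho' h1.1, hc⟩

noncomputable def gam (L ρ len cgp : ℕ → ℕ) (O : ℕ → ℕ → ℕ → Prop) (s x : ℕ) : ℕ :=
  ((cgp x + fo len O s x) / L s) % ρ s

noncomputable def eee (L len cgp : ℕ → ℕ) (O : ℕ → ℕ → ℕ → Prop) (s x : ℕ) : ℕ :=
  (cgp x + fo len O (s + 1) x) / L (s + 1) - (cgp x + fo len O s x) / L (s + 1)

theorem fits_of_world {T : ℕ} {L ρ len cgp : ℕ → ℕ} {q0 : ℕ} {O : ℕ → ℕ → ℕ → Prop}
    {w : List ℕ} {Mk : ℕ → ℕ → Prop} (hW : World T L len cgp q0 O w Mk) {s : ℕ} (hs : s < T)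
    (hLpos : ∀ s, 0 < L s) (hρ : 0 < ρ s) (hL : L (s + 1) = L s * ρ s)
    (hnest : ∀ P, Mk (s + 1) P → Mk s P)
    (hOn : ∀ x ∈ w, ∀ o < len x, O (s + 1) x o → O s x o) :
    Fits (ρ s) (kk len O s) (kk len O (s + 1)) (gam L ρ len cgp O s) (eee L len cgp O s)
      (cnt (Mk s) q0) (cnt (Mk (s + 1)) q0) w := by
  have pc0 := pcount (M := Mk s) (Of := O s) (hW.off s hs.le)
  have pc1 := pcount (M := Mk (s + 1)) (Of := O (s + 1)) (hW.off (s + 1) hs)
  have idx0 : ∀ p x s', w = p ++ x :: s' → (∃ o < len x, O s x o) →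
      cnt (Mk s) (q0 + tot len p) = (q0 + tot len p + fo len O s x) / L s := by
    intro p x s' h hex
    obtain ⟨f1, f2, f3⟩ := fo_spec hex
    exact idx_first (hLpos s) (hW.cell s hs.le) (hW.off s hs.le p x s' h) f1 f2 f3
  have idx1 : ∀ p x s', w = p ++ x :: s' → (∃ o < len x, O (s + 1) x o) →
      cnt (Mk (s + 1)) (q0 + tot len p) =
        (q0 + tot len p + fo len O (s + 1) x) / L (s + 1) := by
    intro p x s' h hex
    obtain ⟨f1, f2, f3⟩ := fo_spec hex
    exact idx_first (hLpos (s + 1)) (hW.cell (s + 1) hs) (hW.off (s + 1) hs p x s' h) f1 f2 f3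
  constructor
  · intro p x s' h hk
    have hex := kk_pos.mp hk
    have h1 : cnt (Mk s) q0 + tot (kk len O s) p = cnt (Mk s) (q0 + tot len p) :=
      (pc0 p (x :: s') h).symm
    rw [h1, idx0 p x s' h hex]
    have hc := hW.cong s hs p x s' h hex
    rw [hL] at hc
    exact div_mod_congr (Nat.ModEq.add_right _ hc)
  · intro p x s' h hk1
    have hex1 := kk_pos.mp hk1
    have hx : x ∈ w := by rw [h]; simp
    have hex : ∃ o < len x, O s x o := by
      obtain ⟨o, h1, h2⟩ := hex1
      exact ⟨o, h1, hOn x hx o h1 h2⟩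
    have h1 : cnt (Mk s) q0 + tot (kk len O s) p = cnt (Mk s) (q0 + tot len p) :=
      (pc0 p (x :: s') h).symm
    have h2 : cnt (Mk (s + 1)) q0 + tot (kk len O (s + 1)) p =
        cnt (Mk (s + 1)) (q0 + tot len p) := (pc1 p (x :: s') h).symm
    rw [h1, h2, idx0 p x s' h hex, idx1 p x s' h hex1, Nat.div_div_eq_div_mul, ← hL]
    have hc := hW.cong s hs p x s' h hex
    have hle : fo len O s x ≤ fo len O (s + 1) x := by
      obtain ⟨f1, f2, f3⟩ := fo_spec hex1
      obtain ⟨g1, g2, g3⟩ := fo_spec hex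
      by_contra hcon
      push Not at hcon
      exact g3 _ hcon (hOn x hx _ f1 f2)
    have h3 := div_shift hc (fo len O (s + 1) x) (fo len O s x)
    have h4 : (cgp x + fo len O s x) / L (s + 1) ≤ (cgp x + fo len O (s + 1) x) / L (s + 1) :=
      Nat.div_le_div_right (by omega)
    unfold eee
    omega
  · intro p s' h
    have h1 : cnt (Mk s) q0 + tot (kk len O s) p = cnt (Mk s) (q0 + tot len p) :=
      (pc0 p s' h).symm
    have h2 : cnt (Mk (s + 1)) q0 + tot (kk len O (s + 1)) p =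
        cnt (Mk (s + 1)) (q0 + tot len p) := (pc1 p s' h).symm
    rw [h1, h2]
    have hc1 := hW.cell (s + 1) hs
    rw [hL] at hc1
    exact cell_bd hρ (hW.cell s hs.le) hc1 hnest _

/-! ### The other word -/

/-- list of (variable, offset) read along a word -/
def locs (len : ℕ → ℕ) (v : List ℕ) : List (ℕ × ℕ) :=
  v.flatMap fun x => (List.range (len x)).map fun o => (x, o)

theorem locs_length (len : ℕ → ℕ) (v : List ℕ) : (locs len v).length = tot len v := by
  induction v with
  | nil => simp [locs]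
  | cons x v ih =>
    unfold locs at *
    rw [List.flatMap_cons, List.length_append, ih]
    simp

theorem locs_append (len : ℕ → ℕ) (p q : List ℕ) :
    locs len (p ++ q) = locs len p ++ locs len q := by
  simp [locs]

theorem locs_get {len : ℕ → ℕ} {v p s : List ℕ} {x o : ℕ} (h : v = p ++ x :: s)
    (ho : o < len x) : (locs len v)[tot len p + o]? = some (x, o) := by
  rw [h, locs_append, List.getElem?_append_right (by rw [locs_length]; omega), locs_length,
    Nat.add_sub_cancel_left]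
  unfold locs
  rw [List.flatMap_cons, List.getElem?_append_left (by simpa using ho)]
  simp [ho]

theorem locs_cases {len : ℕ → ℕ} (v : List ℕ) : ∀ i < tot len v,
    ∃ p x s o, v = p ++ x :: s ∧ o < len x ∧ i = tot len p + o := by
  induction v with
  | nil => intro i hi; simp at hi
  | cons y v ih =>
    intro i hi
    by_cases h : i < len y
    · exact ⟨[], y, v, i, rfl, h, by simp⟩
    · obtain ⟨p, x, s, o, h1, h2, h3⟩ := ih (i - len y) (by rw [tot_cons] at hi; omega)
      exact ⟨y :: p, x, s, o, by simp [h1], h2, by rw [tot_cons]; omega⟩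

/-- marks of the world of the other word -/
def mkv (len : ℕ → ℕ) (q0 : ℕ) (O : ℕ → ℕ → ℕ → Prop) (Mk : ℕ → ℕ → Prop) (v : List ℕ)
    (s P : ℕ) : Prop :=
  if P < q0 then Mk s P else
    match (locs len v)[P - q0]? with
    | some (x, o) => O s x o
    | none => Mk s P

theorem mkv_low {len : ℕ → ℕ} {q0 : ℕ} {O : ℕ → ℕ → ℕ → Prop} {Mk : ℕ → ℕ → Prop}
    {v : List ℕ} {s P : ℕ} (h : P < q0) : mkv len q0 O Mk v s P ↔ Mk s P := by
  unfold mkv
  rw [if_pos h]

theorem mkv_high {len : ℕ → ℕ} {q0 : ℕ} {O : ℕ → ℕ → ℕ → Prop} {Mk : ℕ → ℕ → Prop}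
    {v : List ℕ} {s P : ℕ} (h : q0 + tot len v ≤ P) : mkv len q0 O Mk v s P ↔ Mk s P := by
  unfold mkv
  rw [if_neg (by omega), List.getElem?_eq_none (by rw [locs_length]; omega)]

theorem mkv_mid {len : ℕ → ℕ} {q0 : ℕ} {O : ℕ → ℕ → ℕ → Prop} {Mk : ℕ → ℕ → Prop}
    {v p s' : List ℕ} {s x o : ℕ} (h : v = p ++ x :: s') (ho : o < len x) :
    mkv len q0 O Mk v s (q0 + tot len p + o) ↔ O s x o := by
  unfold mkv
  rw [if_neg (by omega), show q0 + tot len p + o - q0 = tot len p + o by omega, locs_get h ho]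

theorem cnt_mkv_low {len : ℕ → ℕ} {q0 : ℕ} {O : ℕ → ℕ → ℕ → Prop} {Mk : ℕ → ℕ → Prop}
    {v : List ℕ} {s P : ℕ} (h : P ≤ q0) : cnt (mkv len q0 O Mk v s) P = cnt (Mk s) P :=
  cnt_congr (fun _ hP' => mkv_low (by omega))

end Pool.Agent.MP_6af7b0_al
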