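import Pool.Agent.MP_6af7b0_al.Geo

set_option autoImplicit false

open Classical

namespace Pool.Agent.MP_6af7b0_al

theorem PC_congr {k k' : ℕ → ℕ} {u v : List ℕ} (h : ∀ x ∈ u, (k x = 0 ↔ k' x = 0))
    (hP : PC k u v) : PC k' u v := by
  intro ψ h1 a n h2
  exact hP ψ (fun x hx => (h1 x hx).trans (h x hx).symm) a n h2

/-- The geometric form of the simulation lemma. -/
theorem geo {T : ℕ} {L ρ len cgp : ℕ → ℕ} {q0 : ℕ} {O : ℕ → ℕ → ℕ → Prop}
    {u v : List ℕ} {Mk : ℕ → ℕ → Prop} (hperm : v.Perm u)
    (hL0 : L 0 = 1) (hL : ∀ s < T, L (s + 1) = L s * ρ s) (hρ : ∀ s < T, 0 < ρ s)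
    (hLpos : ∀ s, 0 < L s)
    (hlen : ∀ x ∈ u, 0 < len x) (hPC : PC (fun _ => 1) u v)
    (hW : World T L len cgp q0 O u Mk)
    (hnest : ∀ s < T, ∀ P, Mk (s + 1) P → Mk s P) (h0 : ∀ P, Mk 0 P)
    (htop : q0 + tot len u ≤ L T) :
    World T L len cgp q0 O v (mkv len q0 O Mk v) := by
  have htl : tot len v = tot len u := tot_perm len hperm
  have hOn : ∀ s < T, ∀ x ∈ u, ∀ o < len x, O (s + 1) x o → O s x o := by
    intro s hs x hx o ho h
    obtain ⟨p, s', hp⟩ := List.append_of_mem hx
    exact (hW.off s hs.le p x s' hp o ho).mp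
      (hnest s hs _ ((hW.off (s + 1) hs p x s' hp o ho).mpr h))
  have hO0 : ∀ x ∈ u, ∀ o < len x, O 0 x o := by
    intro x hx o ho
    obtain ⟨p, s', hp⟩ := List.append_of_mem hx
    exact (hW.off 0 (Nat.zero_le _) p x s' hp o ho).mp (h0 _)
  -- fits for u
  have hFu : ∀ s < T, Fits (ρ s) (kk len O s) (kk len O (s + 1)) (gam L ρ len cgp O s)
      (eee L len cgp O s) (cnt (Mk s) q0) (cnt (Mk (s + 1)) q0) u := by
    intro s hs
    exact fits_of_world hW hs hLpos (hρ s hs) (hL s hs) (hnest s hs) (hOn s hs)
  have hkk : ∀ s < T, ∀ x ∈ u, kk len O s x = 0 → kk len O (s + 1) x = 0 := by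
    intro s hs x hx h
    by_contra hc
    obtain ⟨o, h1, h2⟩ := kk_pos.mp (Nat.pos_of_ne_zero hc)
    have := kk_pos.mpr ⟨o, h1, hOn s hs x hx o h1 h2⟩
    omega
  have hPC0 : PC (kk len O 0) u v := by
    refine PC_congr (fun x hx => ?_) hPC
    have := kk_pos.mpr ⟨0, hlen x hx, hO0 x hx 0 (hlen x hx)⟩
    omega
  have htopE : ∃ ψ : ℕ → List ℕ, (∀ x ∈ u, (ψ x = [] ↔ kk len O T x = 0)) ∧
      ∃ a n, u.flatMap ψ = rul a n := by
    refine ⟨fun x => List.replicate (kk len O T x) 0, ?_, ?_⟩
    · intro x hx
      simp
    · have hc : tot (kk len O T) u ≤ 1 := by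
        have e1 := pcount (M := Mk T) (Of := O T) (hW.off T le_rfl) u [] (by simp)
        have e2 := cnt_mono (Mk T) htop
        have e3 := hW.cell T le_rfl 1
        rw [one_mul] at e3
        have e4 : tot (kk len O T) u = tot (fun x => cnt (O T x) (len x)) u := rfl
        omega
      have hfl : ∀ w : List ℕ, w.flatMap (fun x => List.replicate (kk len O T x) 0) =
          List.replicate (tot (kk len O T) w) 0 := by
        intro w
        induction w with
        | nil => simp
        | cons x w ih =>
          rw [List.flatMap_cons, ih, tot_cons, List.replicate_add]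
      rw [hfl]
      refine ⟨0, tot (kk len O T) u, ?_⟩
      interval_cases h : tot (kk len O T) u
      · simp
      · rw [rul_one]; simp
  have hFv := simul T (kk len O) ρ (gam L ρ len cgp O) (eee L len cgp O)
    (fun s => cnt (Mk s) q0) u v hperm hρ hFu hkk hPC0 htopE
  -- offsets for v
  have offv : ∀ s, ∀ p x s', v = p ++ x :: s' → ∀ o < len x,
      (mkv len q0 O Mk v s (q0 + tot len p + o) ↔ O s x o) :=
    fun s p x s' h o ho => mkv_mid h ho
  have pcv : ∀ s p s', v = p ++ s' → cnt (mkv len q0 O Mk v s) (q0 + tot len p) =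
      cnt (Mk s) q0 + tot (kk len O s) p := by
    intro s p s' h
    have := pcount (M := mkv len q0 O Mk v s) (Of := O s) (offv s) p s' h
    rw [this, cnt_mkv_low le_rfl]
    rfl
  have pcu : ∀ s ≤ T, ∀ p s', u = p ++ s' → cnt (Mk s) (q0 + tot len p) =
      cnt (Mk s) q0 + tot (kk len O s) p := by
    intro s hs p s' h
    exact pcount (M := Mk s) (Of := O s) (hW.off s hs) p s' h
  have hhigh : ∀ s ≤ T, ∀ d, cnt (mkv len q0 O Mk v s) (q0 + tot len v + d) =
      cnt (Mk s) (q0 + tot len v + d) := by
    intro s hs d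
    rw [cnt_add _ (q0 + tot len v) d, cnt_add (Mk s) (q0 + tot len v) d, pcv s v [] (by simp)]
    congr 1
    · rw [htl, pcu s hs u [] (by simp), tot_perm _ hperm]
    · exact cnt_congr (fun P _ => mkv_high (by omega))
  -- main induction
  have main : ∀ s, s ≤ T → Cell (mkv len q0 O Mk v s) (L s) ∧
      (∀ p x s', v = p ++ x :: s' → (∃ o < len x, O s x o) →
        q0 + tot len p ≡ cgp x [MOD L s]) := by
    intro s
    induction s with
    | zero =>
      intro _
      constructor
      · intro m
        rw [hL0, mul_one]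
        apply cnt_true
        intro P
        by_cases h1 : P < q0
        · exact (mkv_low h1).mpr (h0 P)
        · by_cases h2 : q0 + tot len v ≤ P
          · exact (mkv_high h2).mpr (h0 P)
          · obtain ⟨p, x, s', o, g1, g2, g3⟩ := locs_cases (len := len) v (P - q0) (by omega)
            have hP : P = q0 + tot len p + o := by omega
            rw [hP]
            exact (mkv_mid g1 g2).mpr (hO0 x (hperm.subset (by rw [g1]; simp)) o g2)
      · intro p x s' _ _
        rw [hL0]
        exact Nat.modEq_one
    | succ s ih =>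
      intro hs
      obtain ⟨ihc, ihm⟩ := ih (by omega)
      have hsT : s < T := by omega
      have hFs := hFv s hsT
      have hFus := hFu s hsT
      -- congruences on level s
      have idx0 : ∀ p x s', v = p ++ x :: s' → (∃ o < len x, O s x o) →
          cnt (mkv len q0 O Mk v s) (q0 + tot len p) =
            (q0 + tot len p + fo len O s x) / L s := by
        intro p x s' h hex
        obtain ⟨f1, f2, f3⟩ := fo_spec hex
        exact idx_first (hLpos s) ihc (offv s p x s' h) f1 f2 f3
      have idxu : ∀ p x s', u = p ++ x :: s' → (∃ o < len x, O s x o) →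
          cnt (Mk s) (q0 + tot len p) = (q0 + tot len p + fo len O s x) / L s := by
        intro p x s' h hex
        obtain ⟨f1, f2, f3⟩ := fo_spec hex
        exact idx_first (hLpos s) (hW.cell s hsT.le) (hW.off s hsT.le p x s' h) f1 f2 f3
      have congv : ∀ p x s', v = p ++ x :: s' → (∃ o < len x, O s x o) →
          q0 + tot len p ≡ cgp x [MOD L (s + 1)] := by
        intro p x s' h hex
        have h1 := hFs.col p x s' h (kk_pos.mpr hex)
        rw [← pcv s p (x :: s') h, idx0 p x s' h hex] at h1
        rw [hL s hsT]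
        have h2 : q0 + tot len p + fo len O s x ≡ cgp x + fo len O s x [MOD L s * ρ s] :=
          modEq_mul (Nat.ModEq.add_right _ (ihm p x s' h hex)) h1
        exact Nat.ModEq.add_right_cancel' _ h2
      constructor
      · apply cell_of_idx
        · intro P hP
          by_cases h1 : P < q0
          · rw [cnt_mkv_low h1.le]
            exact (hW.cell (s + 1) hs).idx (hLpos _) ((mkv_low h1).mp hP)
          · by_cases h2 : q0 + tot len v ≤ P
            · obtain ⟨d, rfl⟩ := Nat.exists_eq_add_of_le h2
              rw [hhigh (s + 1) hs d]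
              exact (hW.cell (s + 1) hs).idx (hLpos _) ((mkv_high (by omega)).mp hP)
            · obtain ⟨p, x, s', o, g1, g2, g3⟩ := locs_cases (len := len) v (P - q0) (by omega)
              obtain rfl : P = q0 + tot len p + o := by omega
              have hx : x ∈ u := hperm.subset (by rw [g1]; simp)
              have hO1 : O (s + 1) x o := (mkv_mid g1 g2).mp hP
              have hO : O s x o := hOn s hsT x hx o g2 hO1
              obtain ⟨p2, s2, hp2⟩ := List.append_of_mem hx
              have hm2 : Mk (s + 1) (q0 + tot len p2 + o) :=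
                (hW.off (s + 1) hs p2 x s2 hp2 o g2).mpr hO1
              have i2 := (hW.cell (s + 1) hs).idx (hLpos _) hm2
              rw [cnt_add] at i2 ⊢
              have e1 : cnt (fun i => mkv len q0 O Mk v (s + 1) (q0 + tot len p + i)) o =
                  cnt (O (s + 1) x) o :=
                cnt_congr (fun i hi => offv (s + 1) p x s' g1 i (by omega))
              have e2 : cnt (fun i => Mk (s + 1) (q0 + tot len p2 + i)) o =
                  cnt (O (s + 1) x) o :=
                cnt_congr (fun i hi => hW.off (s + 1) hs p2 x s2 hp2 i (by omega))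
              rw [e1]
              rw [e2] at i2
              have hk1 : 0 < kk len O (s + 1) x := kk_pos.mpr ⟨o, g2, hO1⟩
              have s1 := hFs.side p x s' g1 hk1
              have s2' := hFus.side p2 x s2 hp2 hk1
              rw [← pcv s p (x :: s') g1, ← pcv (s + 1) p (x :: s') g1,
                idx0 p x s' g1 ⟨o, g2, hO⟩, Nat.div_div_eq_div_mul, ← hL s hsT] at s1
              rw [← pcu s hsT.le p2 (x :: s2) hp2, ← pcu (s + 1) hs p2 (x :: s2) hp2,
                idxu p2 x s2 hp2 ⟨o, g2, hO⟩, Nat.div_div_eq_div_mul, ← hL s hsT] at s2'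
              have c1 := congv p x s' g1 ⟨o, g2, hO⟩
              have c2 := hW.cong s hsT p2 x s2 hp2 ⟨o, g2, hO⟩
              have c3 := div_shift (c1.trans c2.symm) (fo len O s x) o
              omega
        · intro n
          refine ⟨q0 + tot len v + n * L (s + 1), ?_⟩
          rw [hhigh (s + 1) hs]
          have := cnt_mono (Mk (s + 1)) (show n * L (s + 1) ≤ q0 + tot len v + n * L (s + 1) by omega)
          rw [hW.cell (s + 1) hs n] at this
          exact this
      · intro p x s' h hex
        obtain ⟨o, h1, h2⟩ := hex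
        exact congv p x s' h ⟨o, h1, hOn s hsT x (hperm.subset (by rw [h]; simp)) o h1 h2⟩
  constructor
  · intro s _ p x s' h o ho
    exact offv s p x s' h o ho
  · intro s hs
    exact (main s hs).1
  · intro s hs p x s' h hex
    obtain ⟨f1, f2, f3⟩ := fo_spec hex
    have hi := idx_first (hLpos s) (main s hs.le).1 (offv s p x s' h) f1 f2 f3
    have h1 := (hFv s hs).col p x s' h (kk_pos.mpr hex)
    rw [← pcv s p (x :: s') h, hi] at h1
    rw [hL s hs]
    have h2 : q0 + tot len p + fo len O s x ≡ cgp x + fo len O s x [MOD L s * ρ s] :=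
      modEq_mul (Nat.ModEq.add_right _ ((main s hs.le).2 p x s' h hex)) h1
    exact Nat.ModEq.add_right_cancel' _ h2

end Pool.Agent.MP_6af7b0_al
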