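import Pool.Agent.MP_6af7b0_al.Defs

set_option autoImplicit false

namespace Pool.Agent.MP_6af7b0_al

/-- the bucket of type `j` containing the row `t` -/
def eta (m k j t : ℕ) : ZMod (Mf m (k + 1)) :=
  ((t / Mf m (k + 1) : ℕ) : ZMod (Mf m (k + 1))) +
    (j : ZMod (Mf m (k + 1))) * ((t % Mf m (k + 1) : ℕ) : ZMod (Mf m (k + 1)))

theorem rowOf_div (m k j : ℕ) (a β : ZMod (Mf m (k + 1))) :
    rowOf m k j a β / Mf m (k + 1) = (a - (j : ZMod (Mf m (k + 1))) * β).val := by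
  unfold rowOf
  rw [mul_comm, Nat.mul_add_div (Mf_pos _ _), Nat.div_eq_of_lt (ZMod.val_lt β), add_zero]

theorem rowOf_mod (m k j : ℕ) (a β : ZMod (Mf m (k + 1))) :
    rowOf m k j a β % Mf m (k + 1) = β.val := by
  unfold rowOf
  rw [mul_comm, Nat.mul_add_mod, Nat.mod_eq_of_lt (ZMod.val_lt β)]

theorem rowOf_lt (m k j : ℕ) (a β : ZMod (Mf m (k + 1))) :
    rowOf m k j a β < rf m (k + 1) := by
  have h1 := ZMod.val_lt (a - (j : ZMod (Mf m (k + 1))) * β)
  have h2 := ZMod.val_lt β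
  have h3 : ((a - (j : ZMod (Mf m (k + 1))) * β).val + 1) * Mf m (k + 1) ≤
      Mf m (k + 1) * Mf m (k + 1) := Nat.mul_le_mul_right _ h1
  unfold rowOf rf
  rw [sq]
  have h4 : ((a - (j : ZMod (Mf m (k + 1))) * β).val + 1) * Mf m (k + 1) =
    (a - (j : ZMod (Mf m (k + 1))) * β).val * Mf m (k + 1) + Mf m (k + 1) := by ring
  omega

theorem rowOf_inj (m k j : ℕ) (a : ZMod (Mf m (k + 1))) {β β' : ZMod (Mf m (k + 1))}
    (h : rowOf m k j a β = rowOf m k j a β') : β = β' := by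
  have h1 := rowOf_mod m k j a β
  rw [h, rowOf_mod] at h1
  exact ZMod.val_injective _ h1.symm

theorem eta_rowOf (m k j : ℕ) (a β : ZMod (Mf m (k + 1))) :
    eta m k j (rowOf m k j a β) = a := by
  unfold eta
  rw [rowOf_div, rowOf_mod, ZMod.natCast_zmod_val, ZMod.natCast_zmod_val]
  ring

theorem rowOf_eta (m k j : ℕ) {t : ℕ} (ht : t < rf m (k + 1)) :
    rowOf m k j (eta m k j t) ((t % Mf m (k + 1) : ℕ) : ZMod (Mf m (k + 1))) = t := by
  have h1 : t / Mf m (k + 1) < Mf m (k + 1) := by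
    rw [Nat.div_lt_iff_lt_mul (Mf_pos _ _), ← sq]
    exact ht
  have h2 := Nat.mod_lt t (Mf_pos m (k + 1))
  unfold rowOf eta
  rw [add_sub_cancel_right, ZMod.val_natCast, ZMod.val_natCast, Nat.mod_eq_of_lt h1, Nat.mod_mod]
  exact Nat.div_add_mod' t _

theorem coprime_Mf (m k : ℕ) {d : ℕ} (h1 : 0 < d) (h2 : d ≤ m) : Nat.Coprime d (Mf m k) := by
  have hd : d ∣ m.factorial * 2 ^ (16 * m * 2 ^ k) :=
    Dvd.dvd.mul_right (Nat.dvd_factorial h1 h2) _
  unfold Mf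
  obtain ⟨c, hc⟩ := hd
  rw [hc]
  have : Nat.gcd d (1 + d * c) = 1 := by
    rw [Nat.gcd_add_mul_left_right, Nat.gcd_one_right]
  exact this

theorem eta_two {m k j j' t t' : ℕ} (hj : j < j') (hj' : j' < m) (ht : t < rf m (k + 1))
    (ht' : t' < rf m (k + 1)) (h1 : eta m k j t = eta m k j t')
    (h2 : eta m k j' t = eta m k j' t') : t = t' := by
  have hM := Mf_pos m (k + 1)
  have q1 : t / Mf m (k + 1) < Mf m (k + 1) := by
    rw [Nat.div_lt_iff_lt_mul hM, ← sq]; exact ht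
  have q1' : t' / Mf m (k + 1) < Mf m (k + 1) := by
    rw [Nat.div_lt_iff_lt_mul hM, ← sq]; exact ht'
  obtain ⟨d, rfl⟩ : ∃ d, j' = j + d := ⟨j' - j, by omega⟩
  unfold eta at h1 h2
  have h3 : ((d : ℕ) : ZMod (Mf m (k + 1))) * ((t % Mf m (k + 1) : ℕ) : ZMod (Mf m (k + 1))) =
      ((d : ℕ) : ZMod (Mf m (k + 1))) * ((t' % Mf m (k + 1) : ℕ) : ZMod (Mf m (k + 1))) := by
    have e : ∀ z : ZMod (Mf m (k + 1)), (((j + d : ℕ) : ℕ) : ZMod (Mf m (k + 1))) * z =
        (j : ZMod (Mf m (k + 1))) * z + (d : ZMod (Mf m (k + 1))) * z := by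
      intro z; push_cast; ring
    rw [e, e, ← add_assoc, ← add_assoc, h1] at h2
    exact add_left_cancel h2
  have hcop : Nat.Coprime d (Mf m (k + 1)) := coprime_Mf m (k + 1) (by omega) (by omega)
  have hu : IsUnit ((d : ℕ) : ZMod (Mf m (k + 1))) := (ZMod.isUnit_iff_coprime d _).mpr hcop
  have h4 := hu.mul_left_cancel h3
  have h5 : t % Mf m (k + 1) = t' % Mf m (k + 1) := by
    have := congrArg ZMod.val h4
    rwa [ZMod.val_natCast, ZMod.val_natCast, Nat.mod_mod, Nat.mod_mod] at this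
  rw [h5] at h1
  have h6 := add_right_cancel h1
  have h7 : t / Mf m (k + 1) = t' / Mf m (k + 1) := by
    have := congrArg ZMod.val h6
    rwa [ZMod.val_natCast, ZMod.val_natCast, Nat.mod_eq_of_lt q1, Nat.mod_eq_of_lt q1'] at this
  rw [← Nat.div_add_mod t (Mf m (k + 1)), ← Nat.div_add_mod t' (Mf m (k + 1)), h5, h7]

/-- a good type for a row -/
theorem exists_type {m k : ℕ} {S : Finset ℕ} (hS : S.card < m) {t0 : ℕ}
    (ht0 : t0 < rf m (k + 1)) (hlt : ∀ t ∈ S, t < rf m (k + 1)) :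
    ∃ j : Fin m, ∀ t ∈ S, t ≠ t0 → eta m k j t ≠ eta m k j t0 := by
  by_contra hcon
  push Not at hcon
  choose f hf1 hf2 hf3 using hcon
  have hinj : Function.Injective f := by
    intro j j' hjj
    by_contra hne
    have hne' : (j : ℕ) ≠ (j' : ℕ) := fun h => hne (Fin.ext h)
    have e1 := hf3 j
    have e2 := hf3 j'
    rw [← hjj] at e2
    rcases Nat.lt_or_gt_of_ne hne' with h | h
    · exact hf2 j (eta_two h j'.2 (hlt _ (hf1 j)) ht0 e1 e2)
    · exact hf2 j (eta_two h j.2 (hlt _ (hf1 j)) ht0 e2 e1)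
  have hsub : (Finset.univ.image f) ⊆ S := by
    intro t ht
    obtain ⟨j, _, rfl⟩ := Finset.mem_image.mp ht
    exact hf1 j
  have := Finset.card_le_card hsub
  rw [Finset.card_image_of_injective _ hinj, Finset.card_univ, Fintype.card_fin] at this
  omega

end Pool.Agent.MP_6af7b0_al
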