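import Pool.Agent.MP_6af7b0_al.Decode
import Pool.Agent.MP_6af7b0_al.Rows

set_option autoImplicit false

open Classical

namespace Pool.Agent.MP_6af7b0_al

section

variable {m : ℕ} {y : ℕ → Fin (Nf m)} {len : ℕ → ℕ} {q0 : ℕ} {u v : List ℕ} {k : ℕ}

/-- mixed radix decomposition of a cell number -/
theorem cell_decomp (m k n : ℕ) :
    n = (n / (rf m k * rf m (k + 1)) * rf m (k + 1) + n / rf m k % rf m (k + 1)) * rf m k +
      n % rf m k := by
  have h1 := Nat.div_add_mod n (rf m k)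
  have h2 := Nat.div_add_mod (n / rf m k) (rf m (k + 1))
  rw [Nat.div_div_eq_div_mul] at h2
  calc n = rf m k * (n / rf m k) + n % rf m k := h1.symm
    _ = rf m k * (rf m (k + 1) * (n / (rf m k * rf m (k + 1))) + n / rf m k % rf m (k + 1)) +
        n % rf m k := by rw [h2]
    _ = _ := by ring

theorem cell_comp_facts {m k B t c : ℕ} (hc : c < rf m k) (ht : t < rf m (k + 1)) :
    ((B * rf m (k + 1) + t) * rf m k + c) / (rf m k * rf m (k + 1)) = B ∧
    ((B * rf m (k + 1) + t) * rf m k + c) % rf m k = c ∧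
    ((B * rf m (k + 1) + t) * rf m k + c) / rf m k % rf m (k + 1) = t := by
  have h0 := rf_pos m k
  have h1 := rf_pos m (k + 1)
  have e1 : ((B * rf m (k + 1) + t) * rf m k + c) / rf m k = B * rf m (k + 1) + t := by
    rw [mul_comm, Nat.mul_add_div h0, Nat.div_eq_of_lt hc, add_zero]
  refine ⟨?_, ?_, ?_⟩
  · rw [← Nat.div_div_eq_div_mul, e1, mul_comm, Nat.mul_add_div h1, Nat.div_eq_of_lt ht, add_zero]
  · rw [mul_comm, Nat.mul_add_mod, Nat.mod_eq_of_lt hc]
  · rw [e1, mul_comm, Nat.mul_add_mod, Nat.mod_eq_of_lt ht]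

/-- the class of a cell is its column and row -/
theorem class_iff {m k n n' : ℕ} : n ≡ n' [MOD rf m k * rf m (k + 1)] ↔
    n % rf m k = n' % rf m k ∧ n / rf m k % rf m (k + 1) = n' / rf m k % rf m (k + 1) := by
  constructor
  · intro h
    exact ⟨h.of_dvd (Dvd.intro _ rfl), div_mod_congr h⟩
  · rintro ⟨h1, h2⟩
    exact modEq_mul h1 h2

theorem wl_bit {P P' : ℕ} (h : wl m y P = wl m y P') : bitAt m P ↔ bitAt m P' := by
  have h1 := congrArg (fun z : Letter m => z.2.2) h
  simp only [wl, tau] at h1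
  exact decide_eq_decide.mp h1

/-- decoding of the foreign bit -/
theorem step_bit (hpl : Placed m y len q0 u) (hperm : v.Perm u) (hPC : PC (fun _ => 1) u v)
    (hu : ∀ j, u.length + 1 < rf m j) (hum : u.length + 1 < m) {K : ℕ}
    (hq : q0 + tot len u ≤ Rf m K) (hk : k + 2 ≤ K)
    (hE : EqK m y len q0 u v (k + 1)) {n0 : ℕ} (hin : InR m len q0 u k n0)
    (hU : ∀ n', n' ≡ n0 [MOD rf m k * rf m (k + 1)] → ¬ Cut m len q0 u k n')
    (ht0 : n0 / rf m k % rf m (k + 1) ∈ badRows m len q0 u (k + 1)) :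
    ∃ n1, (bitAt m (n1 * Rf m k) ↔ bitAt m (n0 * Rf m k)) ∧
      wv m y len q0 u v (n0 * Rf m k) = wl m y (n1 * Rf m k) := by
  set c := n0 % rf m k with hc
  set t0 := n0 / rf m k % rf m (k + 1) with ht
  have hcl : c < rf m k := Nat.mod_lt _ (rf_pos _ _)
  have htl : t0 < rf m (k + 1) := Nat.mod_lt _ (rf_pos _ _)
  obtain ⟨t1, h1, h2, h3⟩ := tau_red m hpl.hm k c t0 hcl htl (badRows m len q0 u (k + 1))
    (lt_of_le_of_lt (badRows_card _ _ _ _ _) hum)
  have hne : t1 ≠ t0 := fun h => h2 (h ▸ ht0)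
  set Sp : ℕ → Prop := fun n =>
    (n ≡ n0 [MOD rf m k * rf m (k + 1)] ∧ (bitAt m (n * Rf m k) ↔ bitAt m (n0 * Rf m k))) ∨
    (n % rf m k = c ∧ n / rf m k % rf m (k + 1) = t1 ∧
      ¬ (bitAt m (n * Rf m k) ↔ bitAt m (n0 * Rf m k))) with hSp
  have hspec : Spec m y len q0 u k Sp := by
    constructor
    · intro B
      obtain ⟨a1, a2, a3⟩ := cell_comp_facts (B := B) hcl htl
      obtain ⟨b1, b2, b3⟩ := cell_comp_facts (B := B) hcl h1
      have h3B := h3 B
      by_cases hb : bitAt m (((B * rf m (k + 1) + t0) * rf m k + c) * Rf m k) ↔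
          bitAt m (n0 * Rf m k)
      · refine ⟨(B * rf m (k + 1) + t0) * rf m k + c, a1, Or.inl ⟨class_iff.mpr ⟨a2, a3⟩, hb⟩, ?_⟩
        intro n' g1 g2
        rcases g2 with ⟨g3, _⟩ | ⟨g3, g4, g5⟩
        · obtain ⟨g6, g7⟩ := class_iff.mp g3
          rw [cell_decomp m k n', g1, g6, g7]
        · exfalso
          rw [cell_decomp m k n', g1, g3, g4] at g5
          exact g5 (h3B.trans hb)
      · refine ⟨(B * rf m (k + 1) + t1) * rf m k + c, b1, Or.inr ⟨b2, b3, ?_⟩, ?_⟩
        · intro hcon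
          exact hb (h3B.symm.trans hcon)
        · intro n' g1 g2
          rcases g2 with ⟨g3, g4⟩ | ⟨g3, g4, _⟩
          · exfalso
            obtain ⟨g6, g7⟩ := class_iff.mp g3
            rw [cell_decomp m k n', g1, g6, g7] at g4
            exact hb g4
          · rw [cell_decomp m k n', g1, g3, g4]
    · intro n hn
      rcases hn with ⟨g1, _⟩ | ⟨_, g2, _⟩
      · exact hU n g1
      · intro hcut
        exact not_badRows (by rw [g2]; exact h2) (cut_up hcut)
    · intro n n' hn hnn hw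
      have hb : bitAt m (n * Rf m k) ↔ bitAt m (n' * Rf m k) := by
        have := hw 0 (Rf_pos m k)
        rw [add_zero, add_zero] at this
        exact wl_bit this
      rcases hn with ⟨g1, g2⟩ | ⟨g1, g2, g3⟩
      · exact Or.inl ⟨hnn.symm.trans g1, hb.symm.trans g2⟩
      · obtain ⟨q1, q2⟩ := class_iff.mp hnn
        refine Or.inr ⟨q1 ▸ g1, q2 ▸ g2, ?_⟩
        intro hcon
        exact g3 (hb.trans hcon)
  have hSp0 : Sp n0 := Or.inl ⟨Nat.ModEq.refl _, Iff.rfl⟩
  obtain ⟨n1, e1, e2, e3⟩ := decode hpl hperm hPC hu hq hk hE hspec hin hSp0 (by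
    intro n hn
    rcases hn with ⟨g1, _⟩ | ⟨_, g2, _⟩
    · exact Or.inl g1
    · exact Or.inr (by rw [g2]; exact h2))
  have e4 := e3 0 (Rf_pos m k)
  rw [add_zero, add_zero] at e4
  refine ⟨n1, ?_, e4⟩
  rcases e1 with ⟨_, g2⟩ | ⟨_, g2, _⟩
  · exact g2
  · exfalso
    have := (class_iff.mp e2).2
    rw [g2] at this
    exact hne this

/-- decoding of a digit -/
theorem step_digit {σ : Shift m} {K : ℕ} (hG : Good m σ K y) (hpl : Placed m y len q0 u)
    (hperm : v.Perm u) (hPC : PC (fun _ => 1) u v)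
    (hu : ∀ j, u.length + 1 < rf m j) (hum : u.length + 1 < m)
    (hq : q0 + tot len u ≤ Rf m K) (hk : k + 2 ≤ K)
    (hE : EqK m y len q0 u v (k + 1)) {n0 : ℕ} (hin : InR m len q0 u k n0)
    (hU : ∀ n', n' ≡ n0 [MOD rf m k * rf m (k + 1)] → ¬ Cut m len q0 u k n')
    (b : Fin (Bf m k)) :
    ∃ n1, iota m k (cellOf m k y n1) b = iota m k (cellOf m k y n0) b ∧
      ∀ i < Rf m k, wv m y len q0 u v (n0 * Rf m k + i) = wl m y (n1 * Rf m k + i) := by
  set c := n0 % rf m k with hc
  set t0 := n0 / rf m k % rf m (k + 1) with ht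
  have hcl : c < rf m k := Nat.mod_lt _ (rf_pos _ _)
  have htl : t0 < rf m (k + 1) := Nat.mod_lt _ (rf_pos _ _)
  have hlt : ∀ t ∈ badRows m len q0 u (k + 1), t < rf m (k + 1) := by
    intro t hts
    unfold badRows at hts
    obtain ⟨i, _, rfl⟩ := Finset.mem_image.mp hts
    exact Nat.mod_lt _ (rf_pos _ _)
  obtain ⟨j, hj⟩ := exists_type (S := badRows m len q0 u (k + 1))
    (lt_of_le_of_lt (badRows_card _ _ _ _ _) hum) htl hlt
  set a := eta m k j t0 with ha
  set cd : Cond m k := (⟨c, hcl⟩, b, j, a) with hcd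
  set β0 : ZMod (Mf m (k + 1)) := ((t0 % Mf m (k + 1) : ℕ) : ZMod (Mf m (k + 1))) with hβ0
  have hr0 : rowOf m k j a β0 = t0 := rowOf_eta m k j htl
  set e := iota m k (cellOf m k y n0) b + σ k cd β0 with he
  set Sp : ℕ → Prop := fun n => ∃ β, n % rf m k = c ∧ n / rf m k % rf m (k + 1) = rowOf m k j a β ∧
    iota m k (cellOf m k y n) b + σ k cd β = e with hSp
  -- rows of the bucket different from `t0` are not bad
  have hrow : ∀ β, rowOf m k j a β = t0 ∨ rowOf m k j a β ∉ badRows m len q0 u (k + 1) := by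
    intro β
    by_cases h1 : rowOf m k j a β = t0
    · exact Or.inl h1
    · right
      intro h2
      exact hj _ h2 h1 (eta_rowOf m k j a β)
  have hspec : Spec m y len q0 u k Sp := by
    constructor
    · intro B
      have hbij := hG k hk B cd
      obtain ⟨β, hβ⟩ := hbij.2 e
      obtain ⟨a1, a2, a3⟩ := cell_comp_facts (B := B) hcl (rowOf_lt m k j a β)
      refine ⟨(B * rf m (k + 1) + rowOf m k j a β) * rf m k + c, a1, ⟨β, a2, a3, hβ⟩, ?_⟩
      rintro n' g1 ⟨β', g2, g3, g4⟩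
      have hn' : n' = (B * rf m (k + 1) + rowOf m k j a β') * rf m k + c := by
        conv_lhs => rw [cell_decomp m k n', g1, g2, g3]
      have hββ : β' = β := by
        apply hbij.1
        rw [hn'] at g4
        exact g4.trans hβ.symm
      rw [hn', hββ]
    · rintro n ⟨β, g1, g2, _⟩
      rcases hrow β with h | h
      · exact hU n (class_iff.mpr ⟨g1, by rw [g2, h]⟩)
      · intro hcut
        exact not_badRows (by rw [g2]; exact h) (cut_up hcut)
    · rintro n n' ⟨β, g1, g2, g3⟩ hnn hw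
      obtain ⟨q1, q2⟩ := class_iff.mp hnn
      refine ⟨β, q1 ▸ g1, q2 ▸ g2, ?_⟩
      have hcell : cellOf m k y n' = cellOf m k y n := by
        funext i
        exact (congrArg Prod.fst (hw i i.2)).symm
      rw [← g3, hcell]
  have hSp0 : Sp n0 := ⟨β0, rfl, hr0.symm, rfl⟩
  obtain ⟨n1, ⟨β, f1, f2, f3⟩, e2, e3⟩ := decode hpl hperm hPC hu hq hk hE hspec hin hSp0 (by
    rintro n ⟨β, g1, g2, _⟩
    rcases hrow β with h | h
    · exact Or.inl (class_iff.mpr ⟨g1, by rw [g2, h]⟩)
    · exact Or.inr (by rw [g2]; exact h))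
  refine ⟨n1, ?_, e3⟩
  have h1 := (class_iff.mp e2).2
  rw [f2, ← ht, ← hr0] at h1
  have hββ := rowOf_inj m k j a h1
  rw [hββ] at f3
  exact add_right_cancel f3

/-- the induction step -/
theorem eqK_step {σ : Shift m} {K : ℕ} (hG : Good m σ K y) (hpl : Placed m y len q0 u)
    (hperm : v.Perm u) (hPC : PC (fun _ => 1) u v)
    (hu : ∀ j, u.length + 1 < rf m j) (hum : u.length + 1 < m)
    (hq : q0 + tot len u ≤ Rf m K) (hk : k + 2 ≤ K)
    (hE : EqK m y len q0 u v (k + 1)) : EqK m y len q0 u v k := by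
  intro n0 hin hU
  by_cases ht0 : n0 / rf m k % rf m (k + 1) ∈ badRows m len q0 u (k + 1)
  · obtain ⟨p, x, s, o, h1, h2, h3, h4, h5⟩ := locate hpl hperm hPC hu hq hk hin hU
    have hw : ∀ i < Rf m k, wv m y len q0 u v (n0 * Rf m k + i) =
        wl m y (cgp len q0 u x + o + i) := by
      intro i hi
      rw [h3, add_assoc (q0 + tot len p), wv_mid h1 (by omega), ← add_assoc]
    have hw0 := hw 0 (Rf_pos m k)
    rw [add_zero, add_zero] at hw0
    -- the bit
    obtain ⟨n1, b1, b2⟩ := step_bit hpl hperm hPC hu hum hq hk hE hin hU ht0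
    have hbit : bitAt m (cgp len q0 u x + o) ↔ bitAt m (n0 * Rf m k) :=
      (wl_bit (hw0.symm.trans b2)).trans b1
    have htau := tau_cell m k (cgp len q0 u x + o) (n0 * Rf m k) h4
      (by rw [h3]; exact Nat.ModEq.add_right _ h5.symm) hbit
    -- the payload
    have hpay : (fun i : Fin (Rf m k) => y (cgp len q0 u x + o + i)) = cellOf m k y n0 := by
      apply (iota m k).injective
      funext b
      obtain ⟨n2, d1, d2⟩ := step_digit hG hpl hperm hPC hu hum hq hk hE hin hU b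
      rw [← d1]
      have hcell : (fun i : Fin (Rf m k) => y (cgp len q0 u x + o + i)) = cellOf m k y n2 := by
        funext i
        have := (hw i i.2).symm.trans (d2 i i.2)
        exact congrArg Prod.fst this
      rw [hcell]
    intro i hi
    rw [hw i hi]
    unfold wl
    rw [htau i hi]
    have := congrFun hpay ⟨i, hi⟩
    simp only [cellOf] at this
    rw [this]
  · exact eq_row hE ht0 hin

/-- The main theorem on the other word. -/
theorem wv_eq {σ : Shift m} {K : ℕ} (hK : 2 ≤ K) (hG : Good m σ K y)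
    (hpl : Placed m y len q0 u)
    (hperm : v.Perm u) (hPC : PC (fun _ => 1) u v)
    (hu : ∀ j, u.length + 1 < rf m j) (hum : u.length + 1 < m)
    (hq : q0 + tot len u ≤ Rf m K) (P : ℕ) (h1 : q0 ≤ P) (h2 : P < q0 + tot len u) :
    wv m y len q0 u v P = wl m y P := by
  obtain ⟨K, rfl⟩ := Nat.exists_eq_add_of_le' hK
  have hall : ∀ d k, k + d = K → EqK m y len q0 u v k := by
    intro d
    induction d with
    | zero =>
      intro k hk
      obtain rfl : k = K := by omega
      exact eqK_base hpl hperm hPC hu hq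
    | succ d ih =>
      intro k hk
      exact eqK_step hG hpl hperm hPC hu hum hq (by omega) (ih (k + 1) (by omega))
  have h0 := hall K 0 (by omega) P ⟨by simpa [Rf] using h1, by simpa [Rf] using h2⟩ (by
    rintro n' _ ⟨p, s, _, g1, g2⟩
    simp only [Rf, mul_one] at g1 g2
    omega) 0 (Rf_pos m 0)
  simpa [Rf] using h0

end

end Pool.Agent.MP_6af7b0_al
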