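import Pool.Agent.MP_6af7b0_al.Core

set_option autoImplicit false

namespace Pool.Agent.MP_6af7b0_al

@[simp] theorem tot_nil (k : ℕ → ℕ) : tot k [] = 0 := rfl

@[simp] theorem tot_cons (k : ℕ → ℕ) (x : ℕ) (p : List ℕ) : tot k (x :: p) = k x + tot k p := by
  simp [tot]

@[simp] theorem tot_append (k : ℕ → ℕ) (p q : List ℕ) : tot k (p ++ q) = tot k p + tot k q := by
  simp [tot]

theorem tot_perm (k : ℕ → ℕ) {p q : List ℕ} (h : p.Perm q) : tot k p = tot k q := by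
  unfold tot
  exact (h.map k).sum_eq

/-- the indices of the marks of two consecutive levels fit together along the word `w` -/
structure Fits (ρ : ℕ) (k k1 γ e : ℕ → ℕ) (n0 N0 : ℕ) (w : List ℕ) : Prop where
  col : ∀ p x s, w = p ++ x :: s → 0 < k x → (n0 + tot k p) % ρ = γ x
  side : ∀ p x s, w = p ++ x :: s → 0 < k1 x → N0 + tot k1 p = (n0 + tot k p) / ρ + e x
  bd : ∀ p s, w = p ++ s → ∃ ε ≤ 1, N0 + tot k1 p = (n0 + tot k p) / ρ + ε

section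

variable (ρ : ℕ) (k k1 : ℕ → ℕ) (n0 N0 a1 : ℕ) (ψ1 : ℕ → List ℕ)

/-- ruler position of an initial segment -/
def alf (p : List ℕ) : ℕ :=
  cst ρ ((n0 + tot k p) % ρ) (N0 + tot k1 p - (n0 + tot k p) / ρ) (a1 + (p.flatMap ψ1).length)

open Classical in
/-- the lifted substitution -/
noncomputable def lif (u : List ℕ) (x : ℕ) : List ℕ :=
  if h : ∃ p s, u = p ++ x :: s then
    rul (alf ρ k k1 n0 N0 a1 ψ1 h.choose)
      (alf ρ k k1 n0 N0 a1 ψ1 (h.choose ++ [x]) - alf ρ k k1 n0 N0 a1 ψ1 h.choose)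
  else []

end

section

variable {ρ : ℕ} {k k1 γ e : ℕ → ℕ} {n0 N0 a1 n1 : ℕ} {ψ1 : ℕ → List ℕ} {u : List ℕ}

theorem flat_word (hflat : u.flatMap ψ1 = rul a1 n1) {p s : List ℕ} {x : ℕ}
    (h : u = p ++ x :: s) :
    ψ1 x = rul (a1 + (p.flatMap ψ1).length) (ψ1 x).length := by
  rw [h, List.flatMap_append, List.flatMap_cons] at hflat
  have h1 := (rul_of_append hflat).2
  exact (rul_of_append h1).1

theorem mk_step (hρ : 0 < ρ) (hF : Fits ρ k k1 γ e n0 N0 u)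
    (hv : ∀ x ∈ u, (ψ1 x = [] ↔ k1 x = 0)) {p s : List ℕ} {x : ℕ}
    (h : u = p ++ x :: s) (hk : 0 < k x) :
    Step ρ (k x) (k1 x) (ψ1 x).length
      ((n0 + tot k p) / ρ) ((n0 + tot k p) % ρ) (N0 + tot k1 p - (n0 + tot k p) / ρ)
        (a1 + (p.flatMap ψ1).length)
      ((n0 + tot k (p ++ [x])) / ρ) ((n0 + tot k (p ++ [x])) % ρ)
        (N0 + tot k1 (p ++ [x]) - (n0 + tot k (p ++ [x])) / ρ)
        (a1 + ((p ++ [x]).flatMap ψ1).length) := by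
  obtain ⟨ε, hε, e1⟩ := hF.bd p (x :: s) h
  obtain ⟨ε', hε', e2⟩ := hF.bd (p ++ [x]) s (by simp [h])
  have hx : x ∈ u := by rw [h]; simp
  refine ⟨Nat.mod_lt _ hρ, Nat.mod_lt _ hρ, by omega, by omega, ?_, ?_, ?_, ?_, hk⟩
  · rw [Nat.div_add_mod, Nat.div_add_mod]
    simp
    omega
  · rw [e1, e2]
    have e3 : tot k1 (p ++ [x]) = tot k1 p + k1 x := by simp
    omega
  · simp
    omega
  · rw [List.length_eq_zero_iff]
    exact (hv x hx).symm

theorem alf_zero (hkk : ∀ x ∈ u, k x = 0 → k1 x = 0)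
    (hv : ∀ x ∈ u, (ψ1 x = [] ↔ k1 x = 0)) {x : ℕ} (hx : x ∈ u) (p : List ℕ) (hk : k x = 0) :
    alf ρ k k1 n0 N0 a1 ψ1 (p ++ [x]) = alf ρ k k1 n0 N0 a1 ψ1 p := by
  have h1 := hkk x hx hk
  have h2 := (hv x hx).mpr h1
  unfold alf
  simp [hk, h1, h2]

theorem lif_eq (hρ : 0 < ρ) (hF : Fits ρ k k1 γ e n0 N0 u) (hkk : ∀ x ∈ u, k x = 0 → k1 x = 0)
    (hv : ∀ x ∈ u, (ψ1 x = [] ↔ k1 x = 0)) (hflat : u.flatMap ψ1 = rul a1 n1)
    {p s : List ℕ} {x : ℕ} (h : u = p ++ x :: s) :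
    lif ρ k k1 n0 N0 a1 ψ1 u x = rul (alf ρ k k1 n0 N0 a1 ψ1 p)
      (alf ρ k k1 n0 N0 a1 ψ1 (p ++ [x]) - alf ρ k k1 n0 N0 a1 ψ1 p) := by
  have hx : x ∈ u := by rw [h]; simp
  have hex : ∃ p s, u = p ++ x :: s := ⟨p, s, h⟩
  unfold lif
  rw [dif_pos hex]
  obtain ⟨s2, hs2⟩ := hex.choose_spec
  set p2 := hex.choose
  rcases Nat.eq_zero_or_pos (k x) with hk | hk
  · rw [alf_zero hkk hv hx p hk, alf_zero hkk hv hx p2 hk]
    simp
  · have S1 := mk_step (a1 := a1) hρ hF hv h hk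
    have S2 := mk_step (a1 := a1) hρ hF hv hs2 hk
    have c1 := hF.col p x s h hk
    have c2 := hF.col p2 x s2 hs2 hk
    have hcol : (n0 + tot k p2) % ρ = (n0 + tot k p) % ρ := by rw [c1, c2]
    have hcol' : (n0 + tot k (p2 ++ [x])) % ρ = (n0 + tot k (p ++ [x])) % ρ := by
      have : tot k [x] = k x := by simp
      rw [tot_append, tot_append, ← add_assoc, ← add_assoc, Nat.add_mod, hcol, ← Nat.add_mod]
    unfold alf
    rw [hcol, hcol'] at S2 ⊢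
    apply S2.word S1
    · intro h0
      have q1 := hF.side p x s h h0
      have q2 := hF.side p2 x s2 hs2 h0
      omega
    · rw [← flat_word hflat hs2, ← flat_word hflat h]

theorem alf_mono (hρ : 0 < ρ) (hF : Fits ρ k k1 γ e n0 N0 u) (hkk : ∀ x ∈ u, k x = 0 → k1 x = 0)
    (hv : ∀ x ∈ u, (ψ1 x = [] ↔ k1 x = 0))
    {p s : List ℕ} {x : ℕ} (h : u = p ++ x :: s) :
    alf ρ k k1 n0 N0 a1 ψ1 p ≤ alf ρ k k1 n0 N0 a1 ψ1 (p ++ [x]) := by
  have hx : x ∈ u := by rw [h]; simp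
  rcases Nat.eq_zero_or_pos (k x) with hk | hk
  · rw [alf_zero hkk hv hx p hk]
  · exact (mk_step (a1 := a1) hρ hF hv h hk).lt.le

theorem lif_nil (hρ : 0 < ρ) (hF : Fits ρ k k1 γ e n0 N0 u) (hkk : ∀ x ∈ u, k x = 0 → k1 x = 0)
    (hv : ∀ x ∈ u, (ψ1 x = [] ↔ k1 x = 0)) (hflat : u.flatMap ψ1 = rul a1 n1)
    (x : ℕ) (hx : x ∈ u) :
    lif ρ k k1 n0 N0 a1 ψ1 u x = [] ↔ k x = 0 := by
  obtain ⟨p, s, h⟩ := List.append_of_mem hx
  rw [lif_eq hρ hF hkk hv hflat h, ← List.length_eq_zero_iff, rul_length]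
  constructor
  · intro h0
    by_contra hk
    have := (mk_step (a1 := a1) hρ hF hv h (Nat.pos_of_ne_zero hk)).lt
    unfold alf at h0
    omega
  · intro hk
    rw [alf_zero hkk hv hx p hk, Nat.sub_self]

theorem lif_flat (hρ : 0 < ρ) (hF : Fits ρ k k1 γ e n0 N0 u) (hkk : ∀ x ∈ u, k x = 0 → k1 x = 0)
    (hv : ∀ x ∈ u, (ψ1 x = [] ↔ k1 x = 0)) (hflat : u.flatMap ψ1 = rul a1 n1) (p : List ℕ) :
    ∀ s, u = p ++ s →
    p.flatMap (lif ρ k k1 n0 N0 a1 ψ1 u) = rul (alf ρ k k1 n0 N0 a1 ψ1 [])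
      (alf ρ k k1 n0 N0 a1 ψ1 p - alf ρ k k1 n0 N0 a1 ψ1 []) ∧
      alf ρ k k1 n0 N0 a1 ψ1 [] ≤ alf ρ k k1 n0 N0 a1 ψ1 p := by
  induction p using List.reverseRecOn with
  | nil => intro s _; simp
  | append_singleton p x ih =>
    intro s hs
    have hs' : u = p ++ x :: s := by simpa using hs
    obtain ⟨h1, h2⟩ := ih (x :: s) hs'
    have h3 := alf_mono (a1 := a1) hρ hF hkk hv hs'
    refine ⟨?_, h2.trans h3⟩
    rw [List.flatMap_append, h1, List.flatMap_singleton, lif_eq hρ hF hkk hv hflat hs',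
      show alf ρ k k1 n0 N0 a1 ψ1 (p ++ [x]) - alf ρ k k1 n0 N0 a1 ψ1 [] =
        (alf ρ k k1 n0 N0 a1 ψ1 p - alf ρ k k1 n0 N0 a1 ψ1 []) +
        (alf ρ k k1 n0 N0 a1 ψ1 (p ++ [x]) - alf ρ k k1 n0 N0 a1 ψ1 p) by omega, rul_add,
      show alf ρ k k1 n0 N0 a1 ψ1 [] +
        (alf ρ k k1 n0 N0 a1 ψ1 p - alf ρ k k1 n0 N0 a1 ψ1 []) =
        alf ρ k k1 n0 N0 a1 ψ1 p by omega]

theorem lif_ext (hρ : 0 < ρ) (hF : Fits ρ k k1 γ e n0 N0 u) (hkk : ∀ x ∈ u, k x = 0 → k1 x = 0)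
    (hv : ∀ x ∈ u, (ψ1 x = [] ↔ k1 x = 0)) (hflat : u.flatMap ψ1 = rul a1 n1)
    (x : ℕ) (hx : x ∈ u) :
    ext (ρ + 1) (lif ρ k k1 n0 N0 a1 ψ1 u x) = ψ1 x := by
  rcases Nat.eq_zero_or_pos (k x) with hk | hk
  · rw [(lif_nil hρ hF hkk hv hflat x hx).mpr hk, (hv x hx).mpr (hkk x hx hk)]
    rfl
  · obtain ⟨p, s, h⟩ := List.append_of_mem hx
    have hl := alf_mono (a1 := a1) hρ hF hkk hv h
    rw [lif_eq hρ hF hkk hv hflat h, ext_rul, Nat.add_sub_cancel' hl]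
    unfold alf
    rw [cst_div (Nat.mod_lt _ hρ), cst_div (Nat.mod_lt _ hρ)]
    conv_rhs => rw [flat_word hflat h]
    congr 1
    simp
    omega

/-- induction along the other word -/
theorem other_inv (hρ : 0 < ρ) (hF : Fits ρ k k1 γ e n0 N0 u)
    (hkk : ∀ x ∈ u, k x = 0 → k1 x = 0)
    (hv : ∀ x ∈ u, (ψ1 x = [] ↔ k1 x = 0)) (hflat : u.flatMap ψ1 = rul a1 n1)
    {v : List ℕ} (hperm : v.Perm u) {n : ℕ}
    (hvf : v.flatMap (lif ρ k k1 n0 N0 a1 ψ1 u) = rul (alf ρ k k1 n0 N0 a1 ψ1 []) n)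
    (p : List ℕ) :
    ∀ s, v = p ++ s →
      (∃ ε ≤ 1, N0 + tot k1 p = (n0 + tot k p) / ρ + ε ∧
        (alf ρ k k1 n0 N0 a1 ψ1 [] + (p.flatMap (lif ρ k k1 n0 N0 a1 ψ1 u)).length) % 2 ^ (ρ + 1)
          = cst ρ ((n0 + tot k p) % ρ) ε 0) ∧
      (∀ x s', s = x :: s' → (0 < k x → (n0 + tot k p) % ρ = γ x) ∧
        (0 < k1 x → N0 + tot k1 p = (n0 + tot k p) / ρ + e x)) := by
  -- the single step from a state
  have key : ∀ (p : List ℕ) (x : ℕ) (s' : List ℕ), v = p ++ x :: s' →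
      ∀ ε ≤ 1, N0 + tot k1 p = (n0 + tot k p) / ρ + ε →
        (alf ρ k k1 n0 N0 a1 ψ1 [] + (p.flatMap (lif ρ k k1 n0 N0 a1 ψ1 u)).length) % 2 ^ (ρ + 1)
          = cst ρ ((n0 + tot k p) % ρ) ε 0 → 0 < k x →
      ((n0 + tot k p) % ρ = γ x) ∧ (0 < k1 x → N0 + tot k1 p = (n0 + tot k p) / ρ + e x) ∧
      (∃ ε' ≤ 1, N0 + tot k1 (p ++ [x]) = (n0 + tot k (p ++ [x])) / ρ + ε' ∧
        (alf ρ k k1 n0 N0 a1 ψ1 [] +
          ((p ++ [x]).flatMap (lif ρ k k1 n0 N0 a1 ψ1 u)).length) % 2 ^ (ρ + 1)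
          = cst ρ ((n0 + tot k (p ++ [x])) % ρ) ε' 0) := by
    intro p x s' hs ε hε h1 h2 hk
    have hx : x ∈ u := hperm.subset (by rw [hs]; simp)
    obtain ⟨p2, s2, hs2⟩ := List.append_of_mem hx
    have S := mk_step (a1 := a1) hρ hF hv hs2 hk
    have hw1 := lif_eq hρ hF hkk hv hflat hs2
    have hw2 := flat_word hvf hs
    have hlen : (lif ρ k k1 n0 N0 a1 ψ1 u x).length =
        alf ρ k k1 n0 N0 a1 ψ1 (p2 ++ [x]) - alf ρ k k1 n0 N0 a1 ψ1 p2 := by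
      rw [hw1, rul_length]
    rw [hlen] at hw2
    rw [hw1] at hw2
    have hmod := Nat.mod_lt (n0 + tot k p) hρ
    obtain ⟨r1, r2, b2', ε2', r3, r4, r5, r6⟩ := S.other (b2 := (n0 + tot k p) / ρ) hmod hε h2 hw2
    have hdm := Nat.div_add_mod (n0 + tot k p) ρ
    have q1 : n0 + tot k (p ++ [x]) = ρ * b2' + (n0 + tot k (p2 ++ [x])) % ρ := by
      rw [r3]
      rw [tot_append, tot_cons, tot_nil]
      omega
    have q2 : (n0 + tot k (p ++ [x])) / ρ = b2' := by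
      rw [q1, Nat.mul_add_div hρ, Nat.div_eq_of_lt (Nat.mod_lt _ hρ), add_zero]
    have q3 : (n0 + tot k (p ++ [x])) % ρ = (n0 + tot k (p2 ++ [x])) % ρ := by
      rw [q1, Nat.mul_add_mod, Nat.mod_mod]
    refine ⟨?_, ?_, ε2', r4, ?_, ?_⟩
    · rw [r1]
      exact hF.col p2 x s2 hs2 hk
    · intro h0
      have q5 := r2 h0
      have q6 := hF.side p2 x s2 hs2 h0
      omega
    · rw [q2, tot_append, tot_cons, tot_nil]
      omega
    · rw [q3, ← r6, List.flatMap_append, List.flatMap_singleton, List.length_append, hlen]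
      unfold alf
      congr 1
      omega
  induction p using List.reverseRecOn with
  | nil =>
    intro s hs
    have hinit : ∃ ε ≤ 1, N0 + tot k1 [] = (n0 + tot k []) / ρ + ε ∧
        (alf ρ k k1 n0 N0 a1 ψ1 [] + (([] : List ℕ).flatMap
          (lif ρ k k1 n0 N0 a1 ψ1 u)).length) % 2 ^ (ρ + 1)
          = cst ρ ((n0 + tot k []) % ρ) ε 0 := by
      obtain ⟨ε, hε, h1⟩ := hF.bd [] u rfl
      refine ⟨ε, hε, h1, ?_⟩
      simp only [List.flatMap_nil, List.length_nil, add_zero]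
      unfold alf
      rw [cst_mod (Nat.mod_lt _ hρ)]
      congr 1
      omega
    refine ⟨hinit, ?_⟩
    rintro x s' rfl
    obtain ⟨ε, hε, h1, h2⟩ := hinit
    constructor
    · intro hk
      exact (key [] x s' hs ε hε h1 h2 hk).1
    · intro hk1
      have hx : x ∈ u := hperm.subset (by rw [hs]; simp)
      have hk : 0 < k x := by
        rcases Nat.eq_zero_or_pos (k x) with h | h
        · have := hkk x hx h
          omega
        · exact h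
      exact (key [] x s' hs ε hε h1 h2 hk).2.1 hk1
  | append_singleton p y ih =>
    intro s hs
    have hs' : v = p ++ y :: s := by simpa using hs
    obtain ⟨⟨ε, hε, h1, h2⟩, _⟩ := ih (y :: s) hs'
    have hy : y ∈ u := hperm.subset (by rw [hs']; simp)
    have hinv : ∃ ε ≤ 1, N0 + tot k1 (p ++ [y]) = (n0 + tot k (p ++ [y])) / ρ + ε ∧
        (alf ρ k k1 n0 N0 a1 ψ1 [] + ((p ++ [y]).flatMap
          (lif ρ k k1 n0 N0 a1 ψ1 u)).length) % 2 ^ (ρ + 1)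
          = cst ρ ((n0 + tot k (p ++ [y])) % ρ) ε 0 := by
      rcases Nat.eq_zero_or_pos (k y) with hk | hk
      · refine ⟨ε, hε, ?_, ?_⟩
        · have := hkk y hy hk
          simp only [tot_append, tot_cons, tot_nil, hk, this, add_zero]
          exact h1
        · rw [List.flatMap_append, List.flatMap_singleton,
            (lif_nil hρ hF hkk hv hflat y hy).mpr hk, List.append_nil, h2]
          simp [hk]
      · exact (key p y s hs' ε hε h1 h2 hk).2.2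
    refine ⟨hinv, ?_⟩
    rintro x s' rfl
    obtain ⟨ε', hε', h1', h2'⟩ := hinv
    constructor
    · intro hk
      exact (key (p ++ [y]) x s' hs ε' hε' h1' h2' hk).1
    · intro hk1
      have hx : x ∈ u := hperm.subset (by rw [hs]; simp)
      have hk : 0 < k x := by
        rcases Nat.eq_zero_or_pos (k x) with h | h
        · have := hkk x hx h
          omega
        · exact h
      exact (key (p ++ [y]) x s' hs ε' hε' h1' h2' hk).2.1 hk1

/-- The one step lemma. -/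
theorem one_step (hρ : 0 < ρ) (hF : Fits ρ k k1 γ e n0 N0 u)
    (hkk : ∀ x ∈ u, k x = 0 → k1 x = 0)
    (hv : ∀ x ∈ u, (ψ1 x = [] ↔ k1 x = 0)) (hflat : u.flatMap ψ1 = rul a1 n1) :
    ∃ ψ : ℕ → List ℕ, (∀ x ∈ u, (ψ x = [] ↔ k x = 0)) ∧
      (∃ a n, u.flatMap ψ = rul a n) ∧
      ∀ v : List ℕ, v.Perm u → v.flatMap ψ = u.flatMap ψ →
        v.flatMap ψ1 = u.flatMap ψ1 ∧ Fits ρ k k1 γ e n0 N0 v := by
  refine ⟨lif ρ k k1 n0 N0 a1 ψ1 u, lif_nil hρ hF hkk hv hflat, ?_, ?_⟩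
  · exact ⟨_, _, (lif_flat hρ hF hkk hv hflat u [] (by simp)).1⟩
  · intro v hperm hvu
    constructor
    · have h1 : ∀ w : List ℕ, w ⊆ u → w.flatMap ψ1 =
          ext (ρ + 1) (w.flatMap (lif ρ k k1 n0 N0 a1 ψ1 u)) := by
        intro w hw
        rw [ext_flatMap]
        apply List.flatMap_congr
        intro x hx
        exact (lif_ext hρ hF hkk hv hflat x (hw hx)).symm
      rw [h1 v hperm.subset, h1 u (fun _ h => h), hvu]
    · have hvf : v.flatMap (lif ρ k k1 n0 N0 a1 ψ1 u) = rul (alf ρ k k1 n0 N0 a1 ψ1 [])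
          (alf ρ k k1 n0 N0 a1 ψ1 u - alf ρ k k1 n0 N0 a1 ψ1 []) := by
        rw [hvu]
        exact (lif_flat hρ hF hkk hv hflat u [] (by simp)).1
      have hinv := other_inv hρ hF hkk hv hflat hperm hvf
      constructor
      · intro p x s h hk
        exact ((hinv p (x :: s) h).2 x s rfl).1 hk
      · intro p x s h hk
        exact ((hinv p (x :: s) h).2 x s rfl).2 hk
      · intro p s h
        obtain ⟨⟨ε, hε, h1, _⟩, _⟩ := hinv p s h
        exact ⟨ε, hε, h1⟩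

end

/-- The simulation lemma for a tower of marks. -/
theorem simul (T : ℕ) (k : ℕ → ℕ → ℕ) (ρ : ℕ → ℕ) (γ e : ℕ → ℕ → ℕ) (n0 : ℕ → ℕ)
    (u v : List ℕ) (hperm : v.Perm u) (hρ : ∀ s < T, 0 < ρ s)
    (hF : ∀ s < T, Fits (ρ s) (k s) (k (s + 1)) (γ s) (e s) (n0 s) (n0 (s + 1)) u)
    (hkk : ∀ s < T, ∀ x ∈ u, k s x = 0 → k (s + 1) x = 0)
    (hP : PC (k 0) u v)
    (htop : ∃ ψ : ℕ → List ℕ, (∀ x ∈ u, (ψ x = [] ↔ k T x = 0)) ∧
      ∃ a n, u.flatMap ψ = rul a n) :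
    ∀ s < T, Fits (ρ s) (k s) (k (s + 1)) (γ s) (e s) (n0 s) (n0 (s + 1)) v := by
  -- valid substitutions exist on every level
  have hE : ∀ d s, s + d = T → ∃ ψ : ℕ → List ℕ, (∀ x ∈ u, (ψ x = [] ↔ k s x = 0)) ∧
      ∃ a n, u.flatMap ψ = rul a n := by
    intro d
    induction d with
    | zero =>
      intro s hs
      obtain rfl : s = T := by omega
      exact htop
    | succ d ih =>
      intro s hs
      obtain ⟨ψ1, h1, a1, n1, h2⟩ := ih (s + 1) (by omega)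
      obtain ⟨ψ, g1, g2, _⟩ := one_step (hρ s (by omega)) (hF s (by omega)) (hkk s (by omega)) h1 h2
      exact ⟨ψ, g1, g2⟩
  -- the condition holds on every level
  have hPs : ∀ s, s ≤ T → PC (k s) u v := by
    intro s
    induction s with
    | zero => intro _; exact hP
    | succ s ih =>
      intro hs ψ1 h1 a1 n1 h2
      obtain ⟨ψ, g1, ⟨a, n, g2⟩, g3⟩ :=
        one_step (hρ s (by omega)) (hF s (by omega)) (hkk s (by omega)) h1 h2
      have g4 := ih (by omega) ψ g1 a n g2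
      rw [(g3 v hperm (by rw [g4, g2])).1, h2]
  intro s hs
  obtain ⟨ψ1, h1, a1, n1, h2⟩ := hE (T - (s + 1)) (s + 1) (by omega)
  obtain ⟨ψ, g1, ⟨a, n, g2⟩, g3⟩ := one_step (hρ s hs) (hF s hs) (hkk s hs) h1 h2
  have g4 := hPs s hs.le ψ g1 a n g2
  exact (g3 v hperm (by rw [g4, g2])).2

end Pool.Agent.MP_6af7b0_al
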