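import Pool.Agent.MP_6af7b0_al.Defs

set_option autoImplicit false

namespace Pool.Agent.MP_6af7b0_al

/-! ### 2-adic valuations -/

theorem v2_congr {g z z' : ℕ} (h : z % 2 ^ g = z' % 2 ^ g) (hz : ¬ 2 ^ g ∣ z) :
    padicValNat 2 z = padicValNat 2 z' := by
  have hz' : ¬ 2 ^ g ∣ z' := by
    rw [Nat.dvd_iff_mod_eq_zero] at hz ⊢
    rwa [← h]
  have h0 : z ≠ 0 := by rintro rfl; exact hz (dvd_zero _)
  have h0' : z' ≠ 0 := by rintro rfl; exact hz' (dvd_zero _)
  have key : ∀ n ≤ g, (2 ^ n ∣ z ↔ 2 ^ n ∣ z') := by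
    intro n hn
    have hd : 2 ^ n ∣ 2 ^ g := pow_dvd_pow 2 hn
    rw [Nat.dvd_iff_mod_eq_zero, Nat.dvd_iff_mod_eq_zero, ← Nat.mod_mod_of_dvd z hd,
      ← Nat.mod_mod_of_dvd z' hd, h]
  have e1 : padicValNat 2 z < g := by
    by_contra hc
    push Not at hc
    exact hz ((padicValNat_dvd_iff_le h0).mpr hc)
  have e2 : padicValNat 2 z' < g := by
    by_contra hc
    push Not at hc
    exact hz' ((padicValNat_dvd_iff_le h0').mpr hc)
  apply le_antisymm
  · exact (padicValNat_dvd_iff_le h0').mp ((key _ e1.le).mp pow_padicValNat_dvd)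
  · exact (padicValNat_dvd_iff_le h0).mp ((key _ e2.le).mpr pow_padicValNat_dvd)

theorem v2_pow_mul (g w : ℕ) (hw : 0 < w) :
    padicValNat 2 (2 ^ g * w) = g + padicValNat 2 w := by
  rw [padicValNat.mul (by positivity) hw.ne', padicValNat.prime_pow]

theorem v2_first {ρ c A : ℕ} (hc : c < ρ) : padicValNat 2 (2 ^ ρ * A + 2 ^ c) = c := by
  obtain ⟨d, rfl⟩ : ∃ d, ρ = c + (d + 1) := ⟨ρ - c - 1, by omega⟩
  have : 2 ^ (c + (d + 1)) * A + 2 ^ c = 2 ^ c * (2 * (2 ^ d * A) + 1) := by ring
  rw [this, v2_pow_mul _ _ (by omega),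
    padicValNat.eq_zero_of_not_dvd (by omega)]
  rfl

theorem v2_congr_of_dvd {ρ z z' : ℕ} (hz : 0 < z) (hz' : 0 < z')
    (h : padicValNat 2 z = padicValNat 2 z') (hd : 2 ^ ρ ∣ z) :
    z % 2 ^ (ρ + 1) = z' % 2 ^ (ρ + 1) := by
  have h1 : ρ ≤ padicValNat 2 z := (padicValNat_dvd_iff_le hz.ne').mp hd
  have hd' : 2 ^ ρ ∣ z' := (padicValNat_dvd_iff_le hz'.ne').mpr (h ▸ h1)
  obtain ⟨w, rfl⟩ := hd
  obtain ⟨w', rfl⟩ := hd'
  have hw : 0 < w := Nat.pos_of_mul_pos_left hz
  have hw' : 0 < w' := Nat.pos_of_mul_pos_left hz'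
  rw [v2_pow_mul _ _ hw, v2_pow_mul _ _ hw'] at h
  have h2 : padicValNat 2 w = padicValNat 2 w' := by omega
  rw [pow_succ, Nat.mul_mod_mul_left, Nat.mul_mod_mul_left]
  congr 1
  rcases Nat.mod_two_eq_zero_or_one w with e | e <;>
    rcases Nat.mod_two_eq_zero_or_one w' with e' | e'
  · omega
  · exfalso
    have a1 : padicValNat 2 w' = 0 := padicValNat.eq_zero_of_not_dvd (by omega)
    have a2 : 1 ≤ padicValNat 2 w := (padicValNat_dvd_iff_le hw.ne').mp (by simpa using Nat.dvd_of_mod_eq_zero e)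
    omega
  · exfalso
    have a1 : padicValNat 2 w = 0 := padicValNat.eq_zero_of_not_dvd (by omega)
    have a2 : 1 ≤ padicValNat 2 w' := (padicValNat_dvd_iff_le hw'.ne').mp (by simpa using Nat.dvd_of_mod_eq_zero e')
    omega
  · omega

/-! ### Ruler words -/

@[simp] theorem rul_length (a n : ℕ) : (rul a n).length = n := by simp [rul]

@[simp] theorem rul_zero (a : ℕ) : rul a 0 = [] := by simp [rul]

theorem rul_getElem (a n i : ℕ) (h : i < (rul a n).length) :
    (rul a n)[i] = padicValNat 2 (a + 1 + i) := by simp [rul]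

theorem rul_add (a m n : ℕ) : rul a (m + n) = rul a m ++ rul (a + m) n := by
  apply List.ext_getElem
  · simp
  · intro i h1 h2
    rw [rul_getElem, List.getElem_append]
    split_ifs with h
    · rw [rul_getElem]
    · rw [rul_getElem]
      rw [rul_length] at h ⊢
      congr 1
      omega

theorem rul_one (a : ℕ) : rul a 1 = [padicValNat 2 (a + 1)] := by simp [rul]

theorem rul_eq_iff {a b n : ℕ} :
    rul a n = rul b n ↔ ∀ i < n, padicValNat 2 (a + 1 + i) = padicValNat 2 (b + 1 + i) := by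
  constructor
  · intro h i hi
    have h1 : (rul a n)[i]'(by simpa) = (rul b n)[i]'(by simpa) := by simp [h]
    rwa [rul_getElem, rul_getElem] at h1
  · intro h
    apply List.ext_getElem (by simp)
    intro i h1 h2
    rw [rul_getElem, rul_getElem]
    exact h i (by simpa using h1)

/-- an initial segment of a ruler word is a ruler word -/
theorem rul_of_append {a n : ℕ} {w1 w2 : List ℕ} (h : w1 ++ w2 = rul a n) :
    w1 = rul a w1.length ∧ w2 = rul (a + w1.length) w2.length := by
  have hl : n = w1.length + w2.length := by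
    have := congrArg List.length h
    simp at this
    omega
  subst hl
  rw [rul_add] at h
  exact List.append_inj h (by simp)

/-- extraction of the big letters -/
def ext (g : ℕ) (w : List ℕ) : List ℕ := (w.filter (fun z => g ≤ z)).map (fun z => z - g)

theorem ext_append (g : ℕ) (w1 w2 : List ℕ) : ext g (w1 ++ w2) = ext g w1 ++ ext g w2 := by
  simp [ext]

theorem ext_flatMap (g : ℕ) (ψ : ℕ → List ℕ) (u : List ℕ) :
    ext g (u.flatMap ψ) = u.flatMap (fun x => ext g (ψ x)) := by
  induction u with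
  | nil => simp [ext]
  | cons x u ih => simp [List.flatMap_cons, ext_append, ih]

theorem ext_rul (g a n : ℕ) :
    ext g (rul a n) = rul (a / 2 ^ g) ((a + n) / 2 ^ g - a / 2 ^ g) := by
  induction n with
  | zero => simp [ext]
  | succ n ih =>
    rw [rul_add, ext_append, ih, rul_one]
    have hmono : a / 2 ^ g ≤ (a + n) / 2 ^ g := Nat.div_le_div_right (by omega)
    by_cases hd : 2 ^ g ∣ a + n + 1
    · have h1 : g ≤ padicValNat 2 (a + n + 1) := (padicValNat_dvd_iff_le (by omega)).mp hd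
      have h2 : (a + (n + 1)) / 2 ^ g = (a + n) / 2 ^ g + 1 := by
        rw [← add_assoc, Nat.succ_div]
        simp [hd]
      rw [h2, show (a + n) / 2 ^ g + 1 - a / 2 ^ g = ((a + n) / 2 ^ g - a / 2 ^ g) + 1 by omega,
        rul_add, rul_one]
      congr 1
      simp only [ext, List.filter_cons, List.filter_nil, h1, decide_true, if_true, List.map_cons,
        List.map_nil, List.cons.injEq, and_true]
      obtain ⟨w, hw⟩ := hd
      have hw0 : 0 < w := by
        rcases Nat.eq_zero_or_pos w with h | h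
        · subst h; omega
        · exact h
      rw [hw, v2_pow_mul _ _ hw0]
      have h3 : (a + (n + 1)) / 2 ^ g = w := by
        rw [← add_assoc, hw]
        exact Nat.mul_div_cancel_left _ (by positivity)
      rw [show a / 2 ^ g + ((a + n) / 2 ^ g - a / 2 ^ g) + 1 = w by omega]
      omega
    · have h1 : ¬ g ≤ padicValNat 2 (a + n + 1) := fun h =>
        hd ((padicValNat_dvd_iff_le (by omega)).mpr h)
      have h2 : (a + (n + 1)) / 2 ^ g = (a + n) / 2 ^ g := by
        rw [← add_assoc, Nat.succ_div]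
        simp [hd]
      rw [h2]
      simp [ext, h1]

end Pool.Agent.MP_6af7b0_al
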