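import Pool.Agent.MP_6af7b0_al.Geo2
import Pool.Agent.MP_6af7b0_al.Defs2

set_option autoImplicit false

open Classical

namespace Pool.Agent.MP_6af7b0_al

/-! ### Refining marks -/

theorem cnt_unique {M : ℕ → Prop} {a b P : ℕ} (h1 : a ≤ P) (h2 : P < b) (h3 : M P)
    (h4 : ∀ Q, a ≤ Q → Q < b → M Q → Q = P) : cnt M b = cnt M a + 1 := by
  have e1 : cnt M a = cnt M P := by
    apply le_antisymm (cnt_mono M h1)
    by_contra hc
    push Not at hc
    obtain ⟨Q, g1, g2, g3, _⟩ := cnt_lt_exists hc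
    have := h4 Q g1 (by omega) g3
    omega
  have e2 : cnt M (P + 1) = cnt M b := by
    apply le_antisymm (cnt_mono M h2)
    by_contra hc
    push Not at hc
    obtain ⟨Q, g1, g2, g3, _⟩ := cnt_lt_exists hc
    have := h4 Q (by omega) g2 g3
    omega
  rw [← e2, cnt_succ_pos h3, e1]

theorem Cell.mark {M : ℕ → Prop} {L : ℕ} (h : Cell M L) (n : ℕ) :
    ∃ P, n * L ≤ P ∧ P < (n + 1) * L ∧ M P := by
  obtain ⟨P, h1, h2, h3, _⟩ := cnt_lt_exists (show cnt M (n * L) < cnt M ((n + 1) * L) by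
    rw [h, h]; omega)
  exact ⟨P, h1, h2, h3⟩

theorem Cell.mark_unique {M : ℕ → Prop} {L : ℕ} (hL : 0 < L) (h : Cell M L) {P Q : ℕ}
    (hP : M P) (hQ : M Q) (h1 : P / L = Q / L) : P = Q := by
  have i1 := h.idx hL hP
  have i2 := h.idx hL hQ
  rcases Nat.lt_trichotomy P Q with hlt | heq | hgt
  · have := cnt_mono M (show P + 1 ≤ Q by omega)
    rw [cnt_succ_pos hP] at this
    omega
  · exact heq
  · have := cnt_mono M (show Q + 1 ≤ P by omega)
    rw [cnt_succ_pos hQ] at this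
    omega

theorem div_of_bounds {n P L : ℕ} (h1 : n * L ≤ P) (h2 : P < (n + 1) * L) : P / L = n := by
  have hL : 0 < L := by
    rcases Nat.eq_zero_or_pos L with h | h
    · subst h; omega
    · exact h
  apply le_antisymm
  · have := (Nat.div_lt_iff_lt_mul hL).mpr h2
    omega
  · exact (Nat.le_div_iff_mul_le hL).mpr h1

theorem bounds_of_div {n P L : ℕ} (hL : 0 < L) (h : P / L = n) :
    n * L ≤ P ∧ P < (n + 1) * L := by
  subst h
  constructor
  · exact Nat.div_mul_le_self P L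
  · have := Nat.lt_mul_div_succ P hL
    rwa [mul_comm] at this

theorem cell_next {M : ℕ → Prop} {Z : ℕ → Prop} {L ρ : ℕ} (hL : 0 < L) (hρ : 0 < ρ)
    (h : Cell M L)
    (hZ : ∀ B, ∃ n, n / ρ = B ∧ Z n ∧ ∀ n', n' / ρ = B → Z n' → n' = n) :
    Cell (fun P => M P ∧ Z (P / L)) (L * ρ) := by
  intro B
  induction B with
  | zero => rw [zero_mul, cnt_zero]
  | succ B ih =>
    obtain ⟨n, h1, h2, h3⟩ := hZ B
    obtain ⟨P, g1, g2, g3⟩ := h.mark n
    have g4 := div_of_bounds g1 g2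
    have hd : P / (L * ρ) = B := by rw [← Nat.div_div_eq_div_mul, g4, h1]
    have hb := bounds_of_div (Nat.mul_pos hL hρ) hd
    rw [cnt_unique (M := fun P => M P ∧ Z (P / L)) hb.1 hb.2 ⟨g3, by rw [g4]; exact h2⟩ ?_, ih]
    intro Q q1 q2 q3
    have hdq : Q / (L * ρ) = B := div_of_bounds q1 q2
    rw [← Nat.div_div_eq_div_mul] at hdq
    have := h3 _ hdq q3.2
    exact h.mark_unique hL q3.1 g3 (by rw [this, g4])

/-! ### The tower -/

/-- address level of the tower level `s`, with the double step at `k` -/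
def As (k s : ℕ) : ℕ := if s ≤ k then s else s + 1

def Ls (m k s : ℕ) : ℕ := Rf m (As k s)

def rs (m k s : ℕ) : ℕ :=
  if s < k then rf m s else if s = k then rf m k * rf m (k + 1) else rf m (s + 1)

theorem Ls_pos (m k s : ℕ) : 0 < Ls m k s := Rf_pos _ _

theorem rs_pos (m k s : ℕ) : 0 < rs m k s := by
  unfold rs
  split_ifs
  · exact rf_pos _ _
  · exact Nat.mul_pos (rf_pos _ _) (rf_pos _ _)
  · exact rf_pos _ _

theorem Rf_succ (m k : ℕ) : Rf m (k + 1) = Rf m k * rf m k := by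
  rw [Rf, mul_comm]

theorem Rf_add_two (m k : ℕ) : Rf m (k + 2) = Rf m k * (rf m k * rf m (k + 1)) := by
  rw [Rf_succ, Rf_succ, mul_assoc]

theorem Ls_succ (m k s : ℕ) : Ls m k (s + 1) = Ls m k s * rs m k s := by
  unfold Ls rs As
  rcases Nat.lt_trichotomy s k with h | h | h
  · rw [if_pos (by omega), if_pos (by omega), if_pos h]
    exact Rf_succ m s
  · subst h
    rw [if_neg (by omega), if_pos le_rfl, if_neg (by omega), if_pos rfl]
    exact Rf_add_two m s
  · rw [if_neg (by omega), if_neg (by omega), if_neg (by omega), if_neg (by omega)]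
    exact Rf_succ m (s + 1)

/-- selection of a subcell -/
def Zs (m k : ℕ) (col : ℕ → ℕ) (Sp : ℕ → Prop) (s n : ℕ) : Prop :=
  if s < k then n % rf m s = col s else if s = k then Sp n else n % rf m (s + 1) = col (s + 1)

/-- the marks of the tower -/
def Mks (m k : ℕ) (col : ℕ → ℕ) (Sp : ℕ → Prop) : ℕ → ℕ → Prop
  | 0, _ => True
  | s + 1, P => Mks m k col Sp s P ∧ Zs m k col Sp s (P / Ls m k s)

theorem unique_col {ρ c : ℕ} (hc : c < ρ) (B : ℕ) :
    ∃ n, n / ρ = B ∧ n % ρ = c ∧ ∀ n', n' / ρ = B → n' % ρ = c → n' = n := by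
  have hρ : 0 < ρ := by omega
  refine ⟨ρ * B + c, ?_, ?_, ?_⟩
  · rw [Nat.mul_add_div hρ, Nat.div_eq_of_lt hc, add_zero]
  · rw [Nat.mul_add_mod, Nat.mod_eq_of_lt hc]
  · intro n' h1 h2
    rw [← Nat.div_add_mod n' ρ, h1, h2]

theorem Mks_cell {m k : ℕ} {col : ℕ → ℕ} {Sp : ℕ → Prop} (hcol : ∀ j, col j < rf m j)
    (sp1 : ∀ B, ∃ n, n / (rf m k * rf m (k + 1)) = B ∧ Sp n ∧
      ∀ n', n' / (rf m k * rf m (k + 1)) = B → Sp n' → n' = n) (s : ℕ) :
    Cell (Mks m k col Sp s) (Ls m k s) := by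
  induction s with
  | zero =>
    intro n
    have h0 : Ls m k 0 = 1 := by unfold Ls As; simp [Rf]
    rw [h0, mul_one]
    exact cnt_true n (fun _ => trivial)
  | succ s ih =>
    rw [Ls_succ]
    refine cell_next (Ls_pos m k s) (rs_pos m k s) ih ?_
    intro B
    unfold rs Zs
    rcases Nat.lt_trichotomy s k with h | h | h
    · simp only [if_pos h]
      exact unique_col (hcol s) B
    · subst h
      simp only [lt_irrefl, if_false, if_true]
      exact sp1 B
    · simp only [if_neg (show ¬ s < k by omega), if_neg (show ¬ s = k by omega)]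
      exact unique_col (hcol (s + 1)) B

end Pool.Agent.MP_6af7b0_al
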