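import Pool.Agent.MP_6af7b0_al.Uworld

set_option autoImplicit false

open Classical

namespace Pool.Agent.MP_6af7b0_al

section

variable {m : ℕ} {y : ℕ → Fin (Nf m)} {len : ℕ → ℕ} {q0 : ℕ} {u v : List ℕ} {k : ℕ}
  {Sp : ℕ → Prop}

/-- a word gives only few cuts -/
theorem exists_col (m : ℕ) (len : ℕ → ℕ) (q0 : ℕ) (u : List ℕ) (j : ℕ)
    (hu : u.length + 1 < rf m j) :
    ∃ c < rf m j, ∀ n, n % rf m j = c → ¬ Cut m len q0 u j n := by
  set S : Finset ℕ := (Finset.range (u.length + 1)).image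
    (fun i => (q0 + tot len (u.take i)) / Rf m j % rf m j) with hS
  have hcard : S.card ≤ u.length + 1 := by
    refine Finset.card_image_le.trans ?_
    simp
  have : ∃ c ∈ Finset.range (rf m j), c ∉ S := by
    by_contra hcon
    push Not at hcon
    have h1 : Finset.range (rf m j) ⊆ S := fun c hc => hcon c hc
    have := Finset.card_le_card h1
    rw [Finset.card_range] at this
    omega
  obtain ⟨c, h1, h2⟩ := this
  refine ⟨c, Finset.mem_range.mp h1, ?_⟩
  rintro n hn ⟨p, s, hp, g1, g2⟩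
  apply h2
  rw [hS, Finset.mem_image]
  refine ⟨p.length, ?_, ?_⟩
  · rw [Finset.mem_range, hp, List.length_append]; omega
  · have : u.take p.length = p := by rw [hp]; simp
    rw [this, div_of_bounds g1.le g2, hn]

/-- rows containing a cut -/
noncomputable def badRows (m : ℕ) (len : ℕ → ℕ) (q0 : ℕ) (u : List ℕ) (j : ℕ) : Finset ℕ :=
  (Finset.range (u.length + 1)).image
    (fun i => (q0 + tot len (u.take i)) / Rf m j % rf m j)

theorem badRows_card (m : ℕ) (len : ℕ → ℕ) (q0 : ℕ) (u : List ℕ) (j : ℕ) :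
    (badRows m len q0 u j).card ≤ u.length + 1 := by
  refine Finset.card_image_le.trans ?_
  simp

theorem not_badRows {m : ℕ} {len : ℕ → ℕ} {q0 : ℕ} {u : List ℕ} {j n : ℕ}
    (h : n % rf m j ∉ badRows m len q0 u j) : ¬ Cut m len q0 u j n := by
  rintro ⟨p, s, hp, g1, g2⟩
  apply h
  unfold badRows
  rw [Finset.mem_image]
  refine ⟨p.length, ?_, ?_⟩
  · rw [Finset.mem_range, hp, List.length_append]; omega
  · have : u.take p.length = p := by rw [hp]; simp
    rw [this, div_of_bounds g1.le g2]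

/-- the cell `n` of level `k` lies in the range of the word -/
def InR (m : ℕ) (len : ℕ → ℕ) (q0 : ℕ) (u : List ℕ) (k n : ℕ) : Prop :=
  q0 ≤ n * Rf m k ∧ (n + 1) * Rf m k ≤ q0 + tot len u

/-- The transfer lemma. -/
theorem transfer (hpl : Placed m y len q0 u) (hperm : v.Perm u) (hPC : PC (fun _ => 1) u v)
    (hu : ∀ j, u.length + 1 < rf m j) {K : ℕ} (hq : q0 + tot len u ≤ Rf m K) (hk : k + 2 ≤ K)
    (hS : Spec m y len q0 u k Sp) {n0 : ℕ} (hin : InR m len q0 u k n0) (h0 : Sp n0) :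
    ∃ n n1, n / (rf m k * rf m (k + 1)) = n0 / (rf m k * rf m (k + 1)) ∧ Sp n1 ∧
      n ≡ n1 [MOD rf m k * rf m (k + 1)] ∧
      ∃ p x s o, v = p ++ x :: s ∧ o + Rf m k ≤ len x ∧ n * Rf m k = q0 + tot len p + o ∧
        n1 * Rf m k = cgp len q0 u x + o ∧
        q0 + tot len p ≡ cgp len q0 u x [MOD Rf m (k + 3)] := by
  have hex := fun j => exists_col m len q0 u j (hu j)
  choose col hcol hcut using hex
  have hWu := uworld hpl hcol hcut hS K
  have hL0 : Ls m k 0 = 1 := by unfold Ls As; simp [Rf]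
  have hAk1 : As k (k + 1) = k + 2 := by unfold As; rw [if_neg (by omega)]
  have hAk2 : As k (k + 2) = k + 3 := by unfold As; rw [if_neg (by omega)]
  have hAk : As k k = k := by unfold As; rw [if_pos le_rfl]
  have hLk1 : Ls m k (k + 1) = Rf m (k + 2) := by unfold Ls; rw [hAk1]
  have hLk2 : Ls m k (k + 2) = Rf m (k + 3) := by unfold Ls; rw [hAk2]
  have htop : q0 + tot len u ≤ Ls m k K := by
    refine hq.trans ?_
    unfold Ls
    refine Nat.le_of_dvd (Rf_pos _ _) (Rf_dvd m ?_)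
    unfold As
    split_ifs <;> omega
  have hWv := geo (T := K) (ρ := rs m k) hperm hL0 (fun s _ => Ls_succ m k s)
    (fun s _ => rs_pos m k s) (Ls_pos m k) hpl.hlen hPC hWu
    (fun s _ P h => h.1) (fun _ => trivial) htop
  have htl : tot len v = tot len u := tot_perm len hperm
  -- the special level
  have hspec : ∀ P, Mks m k col Sp (k + 1) P → Sp (P / Rf m k) := by
    intro P hP
    have h1 := hP.2
    unfold Zs at h1
    rw [if_neg (lt_irrefl _), if_pos rfl] at h1
    unfold Ls at h1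
    rwa [hAk] at h1
  set B0 := n0 / (rf m k * rf m (k + 1)) with hB0
  obtain ⟨n0', w1, w2, w3⟩ := hS.sp1 B0
  have hn0 : n0 = n0' := w3 n0 hB0.symm h0
  obtain ⟨P, g1, g2, g3⟩ := (hWv.cell (k + 1) (by omega)).mark B0
  have gdiv : P / Ls m k (k + 1) = B0 := div_of_bounds g1 g2
  have gblk : P / Rf m k / (rf m k * rf m (k + 1)) = B0 := by
    rw [Nat.div_div_eq_div_mul, ← Rf_add_two, ← hLk1]
    exact gdiv
  -- the mark lies in the range
  have hout : ¬ (P < q0 ∨ q0 + tot len v ≤ P) := by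
    intro hor
    have hM : Mks m k col Sp (k + 1) P := by
      rcases hor with h | h
      · exact (mkv_low h).mp g3
      · exact (mkv_high h).mp g3
    have h1 := hspec P hM
    have h2 := w3 _ gblk h1
    have hb := bounds_of_div (Rf_pos m k) (h2.trans hn0.symm)
    obtain ⟨r1, r2⟩ := hin
    omega
  push Not at hout
  obtain ⟨p, x, s, o, e1, e2, e3⟩ := locs_cases (len := len) v (P - q0) (by omega)
  obtain rfl : P = q0 + tot len p + o := by omega
  have hO := (mkv_mid e1 e2).mp g3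
  have hx : x ∈ u := hperm.subset (by rw [e1]; simp)
  obtain ⟨p2, s2, f1, f2⟩ := cgp_spec len q0 hx
  have hcong := hWv.cong (k + 1) (by omega) p x s e1 ⟨o, e2, hO⟩
  rw [hLk2] at hcong
  have hSp1 := hspec _ hO
  set n1 := (cgp len q0 u x + o) / Rf m k with hn1
  have huc := hS.sp2 n1 hSp1
  obtain ⟨i1, i2⟩ := uncut_inside (P := cgp len q0 u x + o) huc hn1.symm f1 (by omega) (by omega)
  rw [← f2] at i1 i2
  obtain ⟨o', ho'⟩ := Nat.exists_eq_add_of_le i1
  have hb1 := bounds_of_div (Rf_pos m k) hn1.symm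
  have ee : (n1 + 1) * Rf m k = n1 * Rf m k + Rf m k := by ring
  have hc' : n1 * Rf m k ≡ q0 + tot len p + o' [MOD Rf m (k + 3)] := by
    rw [ho']
    exact Nat.ModEq.add_right _ hcong.symm
  have hdvd : Rf m k ∣ q0 + tot len p + o' :=
    (Nat.ModEq.dvd_iff hc' (Rf_dvd m (by omega))).mp (Dvd.intro_left n1 rfl)
  obtain ⟨n, hn⟩ := hdvd
  have hn' : n * Rf m k = q0 + tot len p + o' := by rw [hn, mul_comm]
  have hdiv : (q0 + tot len p + o) / Rf m k = n := by
    apply div_of_bounds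
    · omega
    · have : (n + 1) * Rf m k = n * Rf m k + Rf m k := by ring
      omega
  rw [← hn'] at hc'
  have hmod : n1 ≡ n [MOD rf m k * rf m (k + 1) * rf m (k + 2)] := by
    rw [Rf_add_three] at hc'
    exact Nat.ModEq.mul_right_cancel' (Rf_pos m k).ne' hc'
  refine ⟨n, n1, ?_, hSp1, (hmod.of_dvd (Dvd.intro _ rfl)).symm, p, x, s, o', e1, by omega, hn',
    ho', hcong⟩
  rw [← hdiv]
  exact gblk

end

end Pool.Agent.MP_6af7b0_al
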