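import Pool.Agent.MP_6af7b0_al.Tower
import Pool.Agent.MP_6af7b0_al.Addr

set_option autoImplicit false

open Classical

namespace Pool.Agent.MP_6af7b0_al

/-- letter of the sequence at `P` -/
noncomputable def wl (m : ℕ) (y : ℕ → Fin (Nf m)) (P : ℕ) : Letter m := (y P, tau m P)

/-- a cut of the placed word `u` lies strictly inside the level-`k` cell number `n` -/
def Cut (m : ℕ) (len : ℕ → ℕ) (q0 : ℕ) (u : List ℕ) (k n : ℕ) : Prop :=
  ∃ p s, u = p ++ s ∧ n * Rf m k < q0 + tot len p ∧ q0 + tot len p < (n + 1) * Rf m k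

theorem Rf_dvd (m : ℕ) {i j : ℕ} (h : i ≤ j) : Rf m i ∣ Rf m j := by
  induction j with
  | zero => obtain rfl : i = 0 := by omega
            exact dvd_rfl
  | succ j ih =>
    rcases Nat.lt_or_ge j i with h1 | h1
    · obtain rfl : i = j + 1 := by omega
      exact dvd_rfl
    · rw [Rf_succ]
      exact Dvd.dvd.mul_right (ih h1) _

theorem uncut_inside {m : ℕ} {len : ℕ → ℕ} {q0 : ℕ} {u : List ℕ} {k n : ℕ}
    (hc : ¬ Cut m len q0 u k n) {P : ℕ} (hP : P / Rf m k = n) {p s : List ℕ} {x : ℕ}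
    (h : u = p ++ x :: s) (h1 : q0 + tot len p ≤ P) (h2 : P < q0 + tot len p + len x) :
    q0 + tot len p ≤ n * Rf m k ∧ (n + 1) * Rf m k ≤ q0 + tot len p + len x := by
  obtain ⟨b1, b2⟩ := bounds_of_div (Rf_pos m k) hP
  constructor
  · by_contra hcon
    push Not at hcon
    exact hc ⟨p, x :: s, h, hcon, by omega⟩
  · by_contra hcon
    push Not at hcon
    refine hc ⟨p ++ [x], s, by simp [h], ?_, ?_⟩
    · rw [tot_append, tot_cons, tot_nil]; omega
    · rw [tot_append, tot_cons, tot_nil]; omega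

/-- data for the word `u` placed in the sequence `y` -/
structure Placed (m : ℕ) (y : ℕ → Fin (Nf m)) (len : ℕ → ℕ) (q0 : ℕ) (u : List ℕ) : Prop where
  hm : 1 ≤ m
  hlen : ∀ x ∈ u, 0 < len x
  same : ∀ p x s p2 s2, u = p ++ x :: s → u = p2 ++ x :: s2 → ∀ o < len x,
    wl m y (q0 + tot len p + o) = wl m y (q0 + tot len p2 + o)

/-- admissible special selection on level `k` -/
structure Spec (m : ℕ) (y : ℕ → Fin (Nf m)) (len : ℕ → ℕ) (q0 : ℕ) (u : List ℕ) (k : ℕ)
    (Sp : ℕ → Prop) : Prop where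
  sp1 : ∀ B, ∃ n, n / (rf m k * rf m (k + 1)) = B ∧ Sp n ∧
      ∀ n', n' / (rf m k * rf m (k + 1)) = B → Sp n' → n' = n
  sp2 : ∀ n, Sp n → ¬ Cut m len q0 u k n
  sp3 : ∀ n n', Sp n → n ≡ n' [MOD rf m k * rf m (k + 1)] →
    (∀ i < Rf m k, wl m y (n * Rf m k + i) = wl m y (n' * Rf m k + i)) → Sp n'

theorem recog {m : ℕ} {y : ℕ → Fin (Nf m)} {len : ℕ → ℕ} {q0 : ℕ} {u : List ℕ}
    (hpl : Placed m y len q0 u) {p s p2 s2 : List ℕ} {x : ℕ}
    (h1 : u = p ++ x :: s) (h2 : u = p2 ++ x :: s2) {j o : ℕ} (ho : o + Rf m j ≤ len x)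
    (hd : Rf m j ∣ q0 + tot len p + o) :
    q0 + tot len p ≡ q0 + tot len p2 [MOD Rf m (j + 3)] := by
  have := tau_rec m hpl.hm j _ (q0 + tot len p2 + o) hd (fun i hi => by
    have := hpl.same p x s p2 s2 h1 h2 (o + i) (by omega)
    rw [← add_assoc, ← add_assoc] at this
    exact congrArg Prod.snd this)
  exact Nat.ModEq.add_right_cancel' _ this

theorem As_le (k s : ℕ) : As k (s + 2) ≤ As k s + 3 := by
  unfold As
  split_ifs <;> omega

theorem Rf_add_three (m k : ℕ) :
    Rf m (k + 3) = (rf m k * rf m (k + 1) * rf m (k + 2)) * Rf m k := by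
  rw [Rf_succ, Rf_add_two]
  ring

section

variable {m : ℕ} {y : ℕ → Fin (Nf m)} {len : ℕ → ℕ} {q0 : ℕ} {u : List ℕ} {k : ℕ}
  {col : ℕ → ℕ} {Sp : ℕ → Prop}

theorem zs_uncut (hcut : ∀ j n, n % rf m j = col j → ¬ Cut m len q0 u j n)
    (hS : Spec m y len q0 u k Sp) {s n : ℕ} (h : Zs m k col Sp s n) :
    ¬ Cut m len q0 u (As k s) n := by
  unfold Zs at h
  unfold As
  rcases Nat.lt_trichotomy s k with h1 | h1 | h1
  · rw [if_pos h1] at h
    rw [if_pos (by omega)]
    exact hcut s n h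
  · subst h1
    rw [if_neg (lt_irrefl _), if_pos rfl] at h
    rw [if_pos le_rfl]
    exact hS.sp2 n h
  · rw [if_neg (by omega), if_neg (by omega)] at h
    rw [if_neg (by omega)]
    exact hcut (s + 1) n h

theorem uworld_aux (hpl : Placed m y len q0 u)
    (hcut : ∀ j n, n % rf m j = col j → ¬ Cut m len q0 u j n)
    (hS : Spec m y len q0 u k Sp) (s : ℕ) :
    ∀ p x s1 p2 s2, u = p ++ x :: s1 → u = p2 ++ x :: s2 → ∀ o < len x,
      Mks m k col Sp s (q0 + tot len p + o) →
      Mks m k col Sp s (q0 + tot len p2 + o) ∧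
        q0 + tot len p ≡ q0 + tot len p2 [MOD Ls m k (s + 1)] := by
  induction s with
  | zero =>
    intro p x s1 p2 s2 h1 h2 o ho _
    refine ⟨trivial, ?_⟩
    have hx : x ∈ u := by rw [h1]; simp
    have hl := hpl.hlen x hx
    have h3 := recog hpl h1 h2 (j := 0) (o := 0) (by simp [Rf]; omega) (by simp [Rf])
    exact h3.of_dvd (Rf_dvd m (by unfold As; split_ifs <;> omega))
  | succ s ih =>
    intro p x s1 p2 s2 h1 h2 o ho hM
    obtain ⟨hM1, hZ⟩ := hM
    obtain ⟨ihM, -⟩ := ih p x s1 p2 s2 h1 h2 o ho hM1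
    set n := (q0 + tot len p + o) / Ls m k s with hn
    have huc := zs_uncut hcut hS hZ
    obtain ⟨i1, i2⟩ := uncut_inside (P := q0 + tot len p + o) huc hn.symm h1 (by omega) (by omega)
    have i1' : q0 + tot len p ≤ n * Ls m k s := i1
    have i2' : (n + 1) * Ls m k s ≤ q0 + tot len p + len x := i2
    obtain ⟨o', ho'⟩ := Nat.exists_eq_add_of_le i1'
    have e1 : (n + 1) * Ls m k s = n * Ls m k s + Ls m k s := by ring
    have hb := bounds_of_div (Ls_pos m k s) hn.symm
    have hc : q0 + tot len p ≡ q0 + tot len p2 [MOD Rf m (As k s + 3)] := by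
      apply recog hpl h1 h2 (o := o')
      · change o' + Ls m k s ≤ len x
        omega
      · rw [← ho']
        exact Dvd.intro_left n rfl
    constructor
    · refine ⟨ihM, ?_⟩
      -- the corresponding cell
      have hc' : n * Ls m k s ≡ q0 + tot len p2 + o' [MOD Rf m (As k s + 3)] := by
        rw [ho']
        exact Nat.ModEq.add_right _ hc
      have hdvd : Ls m k s ∣ q0 + tot len p2 + o' := by
        have hd1 : Ls m k s ∣ Rf m (As k s + 3) := Rf_dvd m (by omega)
        exact (Nat.ModEq.dvd_iff hc' hd1).mp (Dvd.intro_left n rfl)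
      obtain ⟨n2, hn2⟩ := hdvd
      have hn2' : n2 * Ls m k s = q0 + tot len p2 + o' := by rw [hn2, mul_comm]
      have hdiv : (q0 + tot len p2 + o) / Ls m k s = n2 := by
        apply div_of_bounds
        · omega
        · have : (n2 + 1) * Ls m k s = n2 * Ls m k s + Ls m k s := by ring
          omega
      rw [hdiv]
      rw [← hn2'] at hc'
      have hmod : n ≡ n2 [MOD rf m (As k s) * rf m (As k s + 1) * rf m (As k s + 2)] := by
        rw [Rf_add_three] at hc'
        exact Nat.ModEq.mul_right_cancel' (Ls_pos m k s).ne' hc'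
      unfold Zs at hZ ⊢
      rcases Nat.lt_trichotomy s k with hs | hs | hs
      · rw [if_pos hs] at hZ ⊢
        have ha : As k s = s := by unfold As; rw [if_pos (by omega)]
        rw [ha] at hmod
        have : n ≡ n2 [MOD rf m s] :=
          hmod.of_dvd (Dvd.dvd.mul_right (Dvd.intro _ rfl) _)
        rw [← hZ]
        exact this.symm
      · subst hs
        rw [if_neg (lt_irrefl _), if_pos rfl] at hZ ⊢
        have ha : As s s = s := by unfold As; rw [if_pos le_rfl]
        rw [ha] at hmod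
        have hL : Ls m s s = Rf m s := by unfold Ls; rw [ha]
        refine hS.sp3 n n2 hZ (hmod.of_dvd (Dvd.intro _ rfl)) ?_
        intro i hi
        rw [← hL, ho', hn2', add_assoc, add_assoc (q0 + tot len p2)]
        exact hpl.same p x s1 p2 s2 h1 h2 (o' + i) (by rw [← hL] at hi; omega)
      · rw [if_neg (by omega), if_neg (by omega)] at hZ ⊢
        have ha : As k s = s + 1 := by unfold As; rw [if_neg (by omega)]
        rw [ha] at hmod
        have : n ≡ n2 [MOD rf m (s + 1)] :=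
          hmod.of_dvd (Dvd.dvd.mul_right (Dvd.intro _ rfl) _)
        rw [← hZ]
        exact this.symm
    · exact hc.of_dvd (Rf_dvd m (As_le k s))

/-- position of a chosen occurrence -/
noncomputable def cgp (len : ℕ → ℕ) (q0 : ℕ) (u : List ℕ) (x : ℕ) : ℕ :=
  if h : ∃ p s, u = p ++ x :: s then q0 + tot len h.choose else 0

theorem cgp_spec (len : ℕ → ℕ) (q0 : ℕ) {u : List ℕ} {x : ℕ} (hx : x ∈ u) :
    ∃ p s, u = p ++ x :: s ∧ cgp len q0 u x = q0 + tot len p := by
  have h : ∃ p s, u = p ++ x :: s := List.append_of_mem hx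
  obtain ⟨s, hs⟩ := h.choose_spec
  exact ⟨h.choose, s, hs, by unfold cgp; rw [dif_pos h]⟩

theorem uworld (hpl : Placed m y len q0 u) (hcol : ∀ j, col j < rf m j)
    (hcut : ∀ j n, n % rf m j = col j → ¬ Cut m len q0 u j n)
    (hS : Spec m y len q0 u k Sp) (T : ℕ) :
    World T (Ls m k) len (cgp len q0 u) q0 (fun s x o => Mks m k col Sp s (cgp len q0 u x + o)) u
      (Mks m k col Sp) := by
  constructor
  · intro s _ p x s' h o ho
    obtain ⟨p2, s2, h2, h3⟩ := cgp_spec len q0 (u := u) (x := x) (by rw [h]; simp)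
    rw [h3]
    exact ⟨fun hM => (uworld_aux hpl hcut hS s p x s' p2 s2 h h2 o ho hM).1,
      fun hM => (uworld_aux hpl hcut hS s p2 x s2 p s' h2 h o ho hM).1⟩
  · intro s _
    exact Mks_cell hcol hS.sp1 s
  · rintro s _ p x s' h ⟨o, ho, hM⟩
    obtain ⟨p2, s2, h2, h3⟩ := cgp_spec len q0 (u := u) (x := x) (by rw [h]; simp)
    rw [h3] at hM ⊢
    exact (uworld_aux hpl hcut hS s p2 x s2 p s' h2 h o ho hM).2.symm

end

end Pool.Agent.MP_6af7b0_al
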